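import Pool.Agent.MP_67f0e4_gt.K.Chain

/-! Affine changes of coordinates: derivative bounds and the potential flow. -/

open Set Metric Filter Topology
open scoped ContDiff

noncomputable section

namespace Pool.Agent.MP_67f0e4_gt.B

open K

lemma aff_concat (l : List (Fin 4)) (i : Fin 4) (f : V → ℝ) :
    DL (l ++ [i]) f = DL l (D (e i) f) := by
  induction l with
  | nil => rfl
  | cons j l ih => simp only [List.cons_append, DL, ih]

lemma aff_sum {x : V} (c : Fin 4 → ℝ) {g : Fin 4 → V → ℝ} (hg : ∀ j, ContDiffAt ℝ ∞ (g j) x)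
    (l : List (Fin 4)) :
    DL l (fun y => ∑ j, c j * g j y) =ᶠ[𝓝 x] fun y => ∑ j, c j * DL l (g j) y := by
  induction l with
  | nil => exact EventuallyEq.rfl
  | cons i l ih =>
    refine (D_congr_ev ih (e i)).trans ?_
    have h : ∀ᶠ y in 𝓝 x, ∀ j, DifferentiableAt ℝ (DL l (g j)) y :=
      eventually_all.2 fun j => ev_diff ((DL_smooth (hg j) l).of_le two_le_inf)
    filter_upwards [h] with y hy
    have h1 := HasFDerivAt.fun_sum (u := Finset.univ)
      fun j _ => (hy j).hasFDerivAt.const_mul (c j)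
    rw [D_of_has h1]
    simp [DL, D]

/-- real coordinates -/
def co (y : V) : Fin 4 → ℝ := ![y.1.re, y.1.im, y.2.re, y.2.im]

lemma aff_co (y : V) : y = ∑ j, co y j • e j := by
  ext <;> simp [co, e, Fin.sum_univ_four]

lemma aff_co_le (y : V) (j : Fin 4) : |co y j| ≤ ‖y‖ := by
  fin_cases j
  · exact (Complex.abs_re_le_norm _).trans (norm_fst_le y)
  · exact (Complex.abs_im_le_norm _).trans (norm_fst_le y)
  · exact (Complex.abs_re_le_norm _).trans (norm_snd_le y)
  · exact (Complex.abs_im_le_norm _).trans (norm_snd_le y)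

lemma aff_cd (A : V →L[ℂ] V) (b : V) : ContDiff ℝ ∞ (fun y : V => b + A y) :=
  contDiff_const.add (A.restrictScalars ℝ).contDiff

lemma aff_D (A : V →L[ℂ] V) (b : V) {h : V → ℝ} {y : V} (hh : DifferentiableAt ℝ h (b + A y))
    (v : V) : D v (fun y => h (b + A y)) y = ∑ j, co (A v) j * D (e j) h (b + A y) := by
  have h1 : HasFDerivAt (fun y : V => b + A y) (A.restrictScalars ℝ) y :=
    (A.restrictScalars ℝ).hasFDerivAt.const_add b
  have h2 := hh.hasFDerivAt.comp y h1
  rw [show (fun y => h (b + A y)) = h ∘ fun y : V => b + A y from rfl, D_of_has h2]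
  simp only [ContinuousLinearMap.comp_apply, ContinuousLinearMap.coe_restrictScalars', D]
  conv_lhs => rw [aff_co (A v)]
  simp only [map_sum, map_smul, smul_eq_mul]

/-- words of a function composed with an affine map -/
lemma aff_words (A : V →L[ℂ] V) (b x : V) {L : ℝ} (hA : ∀ v, ‖A v‖ ≤ L * ‖v‖) (M : ℝ)
    (l : List (Fin 4)) : ∀ h : V → ℝ, ContDiffAt ℝ ∞ h (b + A x) →
    (∀ w : List (Fin 4), w.length = l.length → |DL w h (b + A x)| ≤ M) →
    |DL l (fun y => h (b + A y)) x| ≤ (4 * L) ^ l.length * M := by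
  induction l using List.reverseRecOn with
  | nil => intro h _ hM; simpa [DL] using hM [] rfl
  | append_singleton l i ih =>
    intro h hh hM
    have hL : ‖A (e i)‖ ≤ L := by simpa [norm_e] using hA (e i)
    have hc := (aff_cd A b).continuous.continuousAt (x := x)
    have h1 : D (e i) (fun y => h (b + A y)) =ᶠ[𝓝 x]
        fun y => ∑ j, co (A (e i)) j * D (e j) h (b + A y) := by
      filter_upwards [hc.eventually (ev_diff (hh.of_le two_le_inf))] with y hy
      exact aff_D A b hy _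
    have h2 : ∀ j, ContDiffAt ℝ ∞ (fun y => D (e j) h (b + A y)) x := fun j =>
      ContDiffAt.comp (f := fun y : V => b + A y) x (D_smooth hh _) (aff_cd A b).contDiffAt
    rw [aff_concat, (DL_congr_ev h1 l).eq_of_nhds, (aff_sum _ h2 l).eq_of_nhds]
    have h3 : ∀ j, |co (A (e i)) j * DL l (fun y => D (e j) h (b + A y)) x| ≤
        L * ((4 * L) ^ l.length * M) := fun j => by
      rw [abs_mul]
      refine mul_le_mul ((aff_co_le _ j).trans hL) (ih _ (D_smooth hh _) fun w hw => ?_)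
        (abs_nonneg _) ((norm_nonneg _).trans hL)
      rw [← aff_concat]
      exact hM _ (by simp [hw])
    refine (Finset.abs_sum_le_sum_abs _ _).trans ((Finset.sum_le_sum fun j _ => h3 j).trans ?_)
    simp only [Finset.sum_const, Finset.card_univ, Fintype.card_fin, List.length_append,
      List.length_singleton, nsmul_eq_mul]
    exact le_of_eq (by push_cast; ring)

lemma aff_pb (A : V →L[ℂ] V) (g : Hm) (α : Fin 4) :
    pb A g α = ∑ β, pb A (Pi.single β 1) α * g β := by
  have : g = g 0 • Pi.single 0 1 + g 1 • Pi.single 1 1 + g 2 • Pi.single 2 1 +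
      g 3 • Pi.single 3 1 := by
    funext β; fin_cases β <;> simp
  conv_lhs => rw [this]
  simp only [pb_add, pb_smul, Pi.add_apply, Pi.smul_apply, smul_eq_mul, Fin.sum_univ_four]
  ring

lemma aff_pb_le (A : V →L[ℂ] V) {L : ℝ} (hA : ∀ v, ‖A v‖ ≤ L * ‖v‖) (β α : Fin 4) :
    |pb A (Pi.single β 1) α| ≤ 6 * L ^ 2 := by
  have hL : ∀ i, ‖A (e i)‖ ≤ L := fun i => by simpa [norm_e] using hA (e i)
  have h : ∀ i j, |bf (Pi.single β 1) (A (e i)) (A (e j))| ≤ 6 * L ^ 2 := fun i j => by
    refine (abs_bf_le _ _ _).trans ?_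
    rw [Pi.norm_single, norm_one]
    nlinarith [mul_le_mul (hL i) (hL j) (norm_nonneg _) ((norm_nonneg _).trans (hL i))]
  fin_cases α
  exacts [h 0 0, h 2 2, h 0 2, h 0 3]

/-- derivative bounds of the Levi form under a complex affine change of coordinates -/
theorem LB_aff (A : V →L[ℂ] V) (b : V) {L M : ℝ} (hL : 1 ≤ L) (hA : ∀ v, ‖A v‖ ≤ L * ‖v‖)
    {k : ℕ} {f : V → ℝ} {U W U' : Set V} (hU : IsOpen U) (hf : ContDiffOn ℝ ∞ f U) (hW : W ⊆ U)
    (h : LB k M f W) (hm : ∀ y ∈ U', b + A y ∈ W) :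
    LB k (24 * L ^ 2 * (4 * L) ^ k * M) (fun y => f (b + A y)) U' := by
  intro l hl α x hx
  have hxW := hm x hx
  have hc := (aff_cd A b).continuous.continuousAt (x := x)
  have hM : 0 ≤ M := (abs_nonneg _).trans (h [] (Nat.zero_le _) 0 _ hxW)
  have hfa : ContDiffAt ℝ ∞ f (b + A x) := hf.contDiffAt (hU.mem_nhds (hW hxW))
  have hs : ∀ β, ContDiffAt ℝ ∞ (fun y => lv f y β) (b + A x) := fun β =>
    contDiffAt_pi.1 (lv_smooth hfa) β
  have h1 : (fun y => lv (fun y => f (b + A y)) y α) =ᶠ[𝓝 x]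
      fun y => ∑ β, pb A (Pi.single β 1) α * lv f (b + A y) β := by
    filter_upwards [hc.eventually (hU.mem_nhds (hW hxW))] with y hy
    rw [lv_affine A b ((hf.contDiffAt (hU.mem_nhds hy)).of_le two_le_inf), aff_pb]
  have h2 : ∀ β, ContDiffAt ℝ ∞ (fun y => lv f (b + A y) β) x := fun β =>
    ContDiffAt.comp (f := fun y : V => b + A y) x (hs β) (aff_cd A b).contDiffAt
  rw [(DL_congr_ev h1 l).eq_of_nhds, (aff_sum _ h2 l).eq_of_nhds]
  have h3 : ∀ β, |pb A (Pi.single β 1) α * DL l (fun y => lv f (b + A y) β) x| ≤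
      6 * L ^ 2 * ((4 * L) ^ k * M) := fun β => by
    rw [abs_mul]
    refine mul_le_mul (aff_pb_le A hA β α) ((aff_words A b x hA M l _ (hs β)
      fun w hw => h w (hw ▸ hl) β _ hxW).trans ?_) (abs_nonneg _) (by positivity)
    exact mul_le_mul_of_nonneg_right (pow_le_pow_right₀ (by linarith) hl) hM
  refine (Finset.abs_sum_le_sum_abs _ _).trans ((Finset.sum_le_sum fun j _ => h3 j).trans ?_)
  simp only [Finset.sum_const, Finset.card_univ, Fintype.card_fin, nsmul_eq_mul]
  exact le_of_eq (by push_cast; ring)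

/-- the potential flow under a complex affine change of coordinates -/
theorem PFlow_aff (A : V →L[ℂ] V) (b : V) (hA : Function.Injective A) {S : Set ℝ}
    {U U' : Set V} (hU : IsOpen U) {φ : ℝ → V → ℝ} {w0 : V → ℝ} (h : PFlow S U φ w0)
    (hm : ∀ y ∈ U', b + A y ∈ U) :
    PFlow S U' (fun t y => φ t (b + A y))
      (fun y => w0 (b + A y) + Real.log (‖cdet A‖ ^ 2)) := by
  have hs : ∀ t ∈ S, ∀ y ∈ U', ContDiffAt ℝ 2 (φ t) (b + A y) := fun t ht y hy =>
    ((ContDiffOn.comp (f := fun x : V => ((t, x) : ℝ × V)) h.sm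
      (contDiff_const.prodMk contDiff_id).contDiffOn fun _ hx => ⟨ht, hx⟩).contDiffAt
      (hU.mem_nhds (hm y hy))).of_le two_le_inf
  refine ⟨?_, ?_, fun x hx => ?_, fun t ht x hx => ?_, fun t ht x hx => ?_⟩
  · exact ContDiffOn.comp (f := fun q : ℝ × V => ((q.1, b + A q.2) : ℝ × V)) h.sm
      (contDiff_fst.prodMk ((aff_cd A b).comp contDiff_snd)).contDiffOn
      fun q hq => ⟨hq.1, hm _ hq.2⟩
  · exact (h.om.comp (aff_cd A b).contDiffOn hm).add contDiffOn_const
  · rw [lv_add_const, lv_affine A b ((h.om.contDiffAt (hU.mem_nhds (hm x hx))).of_le two_le_inf),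
      h.ph _ (hm x hx), pb_zero]
  · rw [lv_affine A b (hs t ht x hx)]
    exact (h.pos t ht _ (hm x hx)).pb hA
  · rw [lv_affine A b (hs t ht x hx), hdet_pb,
      Real.log_mul (pow_ne_zero 2 (norm_ne_zero_iff.2 (cdet_ne.2 hA)))
        (h.pos t ht _ (hm x hx)).det.ne']
    exact (h.eq t ht _ (hm x hx)).congr_deriv (by ring)

end Pool.Agent.MP_67f0e4_gt.B
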