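import Pool.Agent.MP_67f0e4_gt.B.Spec
import Pool.Agent.MP_67f0e4_gt.B.Aff
import Pool.Agent.MP_67f0e4_gt.K.Spec

/-! The interior estimate with a threshold that does not depend on the ellipticity. -/

open Set Metric Filter Topology
open scoped ContDiff

noncomputable section

namespace Pool.Agent.MP_67f0e4_gt.B

open K

lemma bern_le {a b L : ℝ} (ha : 0 ≤ a) (hb : 0 ≤ b) (hL : 1 ≤ L) (h : a ^ 2 ≤ 2 * L * b ^ 2) :
    a ≤ 2 * L * b := by
  refine (pow_le_pow_iff_left₀ ha (by positivity) two_ne_zero).1 (h.trans ?_)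
  nlinarith [mul_nonneg (sq_nonneg b) (sub_nonneg.2 hL),
    mul_nonneg (mul_nonneg (sq_nonneg b) (sub_nonneg.2 hL)) (zero_le_one.trans hL)]

lemma LB_mono {k : ℕ} {M M' : ℝ} {f : V → ℝ} {U : Set V} (h : LB k M f U) (hM : M ≤ M') :
    LB k M' f U := fun l hl α x hx => (h l hl α x hx).trans hM

theorem bern_of (h : SB) : BERN := by
  obtain ⟨δ, hδ, hδ2, hB⟩ := h 2 two_pos
  refine ⟨δ, hδ, fun Λ r hr k M => ?_⟩
  by_cases hΛ : 1 ≤ Λ
  swap
  · exact ⟨0, fun G0 φ w0 t0 t1 hG => absurd hG.one_le hΛ⟩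
  rcases Nat.eq_zero_or_pos k with rfl | hk
  · refine ⟨2 * (2 * Λ), fun G0 φ w0 t0 t1 hG h01 _ _ hC _ l hl α x hx => ?_⟩
    obtain rfl : l = [] := List.length_eq_zero_iff.1 (Nat.le_zero.1 hl)
    have hc := hC t1 ⟨h01.le, le_rfl⟩ x (ball_subset_ball (by linarith) hx)
    have h1 : ‖lv (φ t1) x‖ ≤ 2 * (2 * Λ) := norm_le_of_qf fun v => by
      have a := abs_le.1 (hc v)
      have b := (hG.2 v).2
      have c := hG.isPos.nn v
      rw [abs_le]
      constructor <;> nlinarith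
    exact (norm_le_pi_norm (lv (φ t1) x) α).trans h1
  set L := 2 * Λ with hL
  have hL1 : 1 ≤ L := by linarith
  set ρ := r / (4 * L) with hρ
  have hρ0 : 0 < ρ := by positivity
  obtain ⟨C1, h1⟩ := hB k hk (ρ / 2) ρ (r ^ 2) 0 (by linarith) (by positivity)
  obtain ⟨C2, h2⟩ := hB k hk (ρ / 2) ρ 0 (24 * L ^ 2 * (4 * L) ^ k * M) (by linarith) le_rfl
  refine ⟨24 * L ^ 2 * (4 * L) ^ k * max C1 C2,
    fun G0 φ w0 t0 t1 hG h01 _ hF hC hD l hl α x hx => ?_⟩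
  obtain ⟨A, hA, hA'⟩ := hG.isPos.chol
  have nA : ∀ v, ‖(A : V →L[ℂ] V) v‖ ≤ L * ‖v‖ := fun v =>
    bern_le (norm_nonneg _) (norm_nonneg _) hΛ (by
      have a := qf_one_ge ((A : V →L[ℂ] V) v)
      rw [← qf_pb, hA] at a
      nlinarith [(hG.2 v).2, mul_nonneg (zero_le_one.trans hΛ) (sq_nonneg ‖v‖)])
  have nB : ∀ v, ‖(A.symm : V →L[ℂ] V) v‖ ≤ L * ‖v‖ := fun v =>
    bern_le (norm_nonneg _) (norm_nonneg _) hΛ (by
      have a := (hG.2 ((A.symm : V →L[ℂ] V) v)).1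
      rw [← qf_pb, hA'] at a
      nlinarith [mul_le_mul_of_nonneg_left (qf_one_le v) (zero_le_one.trans hΛ)])
  have hm : ∀ y ∈ ball (0 : V) ρ, x + (A.symm : V →L[ℂ] V) y ∈ ball (0 : V) r := by
    intro y hy
    rw [mem_ball_zero_iff] at hx hy ⊢
    have a : L * ‖y‖ ≤ L * ρ := mul_le_mul_of_nonneg_left hy.le (by linarith)
    have b : L * ρ = r / 4 := by rw [hρ]; field_simp
    linarith [norm_add_le x ((A.symm : V →L[ℂ] V) y), nB y]
  have hF' := PFlow_aff (A.symm : V →L[ℂ] V) x A.symm.injective isOpen_ball hF hm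
  have hs : ∀ {U : Set V} {φ : ℝ → V → ℝ} {w0 : V → ℝ}, PFlow (Icc t0 t1) U φ w0 →
      ∀ t ∈ Icc t0 t1, ContDiffOn ℝ ∞ (φ t) U := fun hF t ht =>
    ContDiffOn.comp (f := fun x : V => ((t, x) : ℝ × V)) hF.sm
      (contDiff_const.prodMk contDiff_id).contDiffOn fun _ hx => ⟨ht, hx⟩
  have hC' : ∀ t ∈ Icc t0 t1, ∀ y ∈ ball (0 : V) ρ,
      Cl δ (lv (fun y => φ t (x + (A.symm : V →L[ℂ] V) y)) y) one := by
    intro t ht y hy
    rw [lv_affine _ _ (((hs hF t ht).contDiffAt (isOpen_ball.mem_nhds (hm y hy))).of_le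
      two_le_inf), ← hA']
    exact (hC t ht _ (hm y hy)).pb _
  have key : LB k (max C1 C2) (fun y => φ t1 (x + (A.symm : V →L[ℂ] V) y)) (ball 0 (ρ / 2)) := by
    rcases hD with hD | hD
    · exact LB_mono (h1 one t0 t1 0 _ _ ellH_one h01 hF' hC' (Or.inl (by positivity)) t1
        ⟨hD.ge, le_rfl⟩) (le_max_left _ _)
    · exact LB_mono (h2 one t0 t1 0 _ _ ellH_one h01 hF' hC' (Or.inr (LB_aff _ x hL1 nB
        isOpen_ball (hs hF t0 ⟨le_rfl, h01.le⟩) subset_rfl hD hm)) t1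
        ⟨by linarith, le_rfl⟩) (le_max_right _ _)
  have fin := LB_aff (A : V →L[ℂ] V) (-(A x)) hL1 nA isOpen_ball (hs hF' t1 ⟨h01.le, le_rfl⟩)
    (ball_subset_ball (by linarith)) key (U' := {x}) (by
      rintro y rfl
      simpa using hρ0)
  have e1 : (fun y => φ t1 (x + (A.symm : V →L[ℂ] V) (-(A x) + (A : V →L[ℂ] V) y))) = φ t1 := by
    funext y; simp
  rw [e1] at fin
  exact fin l hl α x rfl

end Pool.Agent.MP_67f0e4_gt.B
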