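import Pool.Agent.MP_67f0e4_gt.K.Base

/-! Block B (interior derivative estimates): operators, formal expressions in the jets. -/

open Set Metric Filter Topology
open scoped ContDiff

noncomputable section

namespace Pool.Agent.MP_67f0e4_gt.B

open K

abbrev Fn := ℝ → V → ℝ

/-- a set of times on which one-sided calculus works -/
def Nice (S : Set ℝ) : Prop := UniqueDiffOn ℝ S ∧ S ⊆ closure (interior S)

def Dx (i : Fin 4) (f : Fn) : Fn := fun t => D (e i) (f t)

def Dw (l : List (Fin 4)) (f : Fn) : Fn := fun t => DL l (f t)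

def Dt (S : Set ℝ) (f : Fn) : Fn := fun t x => derivWithin (fun s => f s x) S t

/-- the gradient -/
def gr (f : Fn) (t : ℝ) (x : V) : Fin 4 → ℝ := fun i => Dx i f t x

/-- the heat operator with coefficients `b` -/
def Box (S : Set ℝ) (b : ℝ → V → Hm) (f : Fn) : Fn :=
  fun t x => Dt S f t x - hmix (b t x) (lv (f t) x)

/-- the symbol of `f ↦ hmix b (lv f)` -/
def gam (b : Hm) (ξ ζ : Fin 4 → ℝ) : ℝ :=
  b 0 * (ξ 2 * ζ 2 + ξ 3 * ζ 3) + b 1 * (ξ 0 * ζ 0 + ξ 1 * ζ 1) -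
    b 2 * (ξ 0 * ζ 2 + ξ 2 * ζ 0 + ξ 1 * ζ 3 + ξ 3 * ζ 1) -
    b 3 * (ξ 0 * ζ 3 + ξ 3 * ζ 0 - ξ 1 * ζ 2 - ξ 2 * ζ 1)

def n2 (ξ : Fin 4 → ℝ) : ℝ := ∑ i, ξ i ^ 2

/-- ellipticity of the coefficients -/
def Eb (c C : ℝ) (b : Hm) : Prop := (∀ ξ, c * n2 ξ ≤ gam b ξ ξ) ∧ ∀ α, |b α| ≤ C

/-- sum of squares of a finite family -/
def ss {ι : Type} [Fintype ι] (v : ι → Fn) : Fn := fun t x => ∑ β, v β t x ^ 2

/-- the family of first derivatives -/
def dv {ι : Type} (v : ι → Fn) : Fin 4 × ι → Fn := fun p => Dx p.1 (v p.2)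

/-- the entries of the metric -/
def Gm (φ : Fn) (α : Fin 4) : Fn := fun t x => lv (φ t) x α

/-- the coefficients of the linearised operator -/
def bb (φ : Fn) : ℝ → V → Hm := fun t x => (hdet (lv (φ t) x))⁻¹ • lv (φ t) x

/-- closed Euclidean ball -/
def EB (z : V) (ρ : ℝ) : Set V := {x | ‖x.1 - z.1‖ ^ 2 + ‖x.2 - z.2‖ ^ 2 ≤ ρ ^ 2}

/-- polynomial cut-off -/
def cut (z : V) (ρ : ℝ) : V → ℝ := fun x => (ρ ^ 2 - (‖x.1 - z.1‖ ^ 2 + ‖x.2 - z.2‖ ^ 2)) ^ 2

/-- polynomials in the jets of the metric and the inverse determinant -/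
inductive Ex : Type
  | cst (r : ℝ) : Ex
  | jet (α : Fin 4) (l : List (Fin 4)) : Ex
  | qi : Ex
  | add (a b : Ex) : Ex
  | mul (a b : Ex) : Ex

namespace Ex

def ev (J : Fin 4 → List (Fin 4) → ℝ) (ι : ℝ) : Ex → ℝ
  | cst r => r
  | jet α l => J α l
  | qi => ι
  | add a b => ev J ι a + ev J ι b
  | mul a b => ev J ι a * ev J ι b

/-- total number of derivatives in a monomial (maximum over the monomials) -/
def wt : Ex → ℕ
  | cst _ => 0
  | jet _ l => l.length
  | qi => 0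
  | add a b => max (wt a) (wt b)
  | mul a b => wt a + wt b

/-- highest order of a jet that occurs -/
def ord : Ex → ℕ
  | cst _ => 0
  | jet _ l => l.length
  | qi => 0
  | add a b => max (ord a) (ord b)
  | mul a b => max (ord a) (ord b)

/-- derivative of the determinant -/
def dq (i : Fin 4) : Ex :=
  add (add (mul (jet 0 [i]) (jet 1 [])) (mul (jet 0 []) (jet 1 [i])))
    (mul (cst (-2)) (add (mul (jet 2 []) (jet 2 [i])) (mul (jet 3 []) (jet 3 [i]))))

/-- formal derivative -/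
def der (i : Fin 4) : Ex → Ex
  | cst _ => cst 0
  | jet α l => jet α (i :: l)
  | qi => mul (cst (-1)) (mul (mul qi qi) (dq i))
  | add a b => add (der i a) (der i b)
  | mul a b => add (mul (der i a) b) (mul a (der i b))

/-- value along a potential -/
def val (φ : Fn) (a : Ex) : Fn :=
  fun t x => ev (fun α l => Dw l (Gm φ α) t x) (hdet (lv (φ t) x))⁻¹ a

end Ex

end Pool.Agent.MP_67f0e4_gt.B
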