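import Pool.Agent.MP_67f0e4_gt.B.Spec

/-! Block B: calculus of jointly smooth functions. -/

open Set Metric Filter Topology
open scoped ContDiff

noncomputable section

namespace Pool.Agent.MP_67f0e4_gt.B

open K

theorem nice : SNICE := by
  refine ⟨fun a b h => ⟨uniqueDiffOn_Icc h, ?_⟩, fun a b => ⟨uniqueDiffOn_Ico a b, ?_⟩,
    fun a b => ⟨isOpen_Ioo.uniqueDiffOn, ?_⟩⟩
  · rw [interior_Icc, closure_Ioo h.ne]
  · intro t ht
    rw [interior_Ico, closure_Ioo (ht.1.trans_lt ht.2).ne]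
    exact Ico_subset_Icc_self ht
  · rw [interior_Ioo]; exact subset_closure

variable {S : Set ℝ} {U : Set V} {f g : Fn}

lemma kit_slice (hf : Sm S U f) {t : ℝ} (ht : t ∈ S) : ContDiffOn ℝ ∞ (f t) U :=
  ContDiffOn.comp (f := fun x : V => ((t, x) : ℝ × V)) hf
    (contDiff_const.prodMk contDiff_id).contDiffOn fun _ hx => ⟨ht, hx⟩

lemma kit_da (hU : IsOpen U) (hf : Sm S U f) {t : ℝ} (ht : t ∈ S) {x : V} (hx : x ∈ U) :
    DifferentiableAt ℝ (f t) x :=
  ((kit_slice hf ht).differentiableOn (by simp) x hx).differentiableAt (hU.mem_nhds hx)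

lemma kit_ud (hS : Nice S) (hU : IsOpen U) : UniqueDiffOn ℝ (S ×ˢ U) :=
  hS.1.prod hU.uniqueDiffOn

lemma kit_hf (hf : Sm S U f) {t : ℝ} (ht : t ∈ S) {x : V} (hx : x ∈ U) :
    HasFDerivWithinAt (fun q : ℝ × V => f q.1 q.2)
      (fderivWithin ℝ (fun q : ℝ × V => f q.1 q.2) (S ×ˢ U) (t, x)) (S ×ˢ U) (t, x) :=
  (ContDiffOn.differentiableOn hf (by simp) (t, x) ⟨ht, hx⟩).hasFDerivWithinAt

lemma kit_has (hf : Sm S U f) {t : ℝ} (ht : t ∈ S) {x : V} (hx : x ∈ U) :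
    HasDerivWithinAt (fun s => f s x)
      (fderivWithin ℝ (fun q : ℝ × V => f q.1 q.2) (S ×ˢ U) (t, x) (1, 0)) S t := by
  have h1 : HasDerivWithinAt (fun s : ℝ => ((s, x) : ℝ × V)) (1, 0) S t :=
    ((hasDerivAt_id t).prodMk (hasDerivAt_const t x)).hasDerivWithinAt
  have h2 : MapsTo (fun s : ℝ => ((s, x) : ℝ × V)) S (S ×ˢ U) := fun s hs => ⟨hs, hx⟩
  exact HasFDerivWithinAt.comp_hasDerivWithinAt (f := fun s : ℝ => ((s, x) : ℝ × V)) t
    (kit_hf hf ht hx) h1 h2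

lemma kit_Dt (hS : Nice S) (hf : Sm S U f) {t : ℝ} (ht : t ∈ S) {x : V} (hx : x ∈ U) :
    Dt S f t x = fderivWithin ℝ (fun q : ℝ × V => f q.1 q.2) (S ×ˢ U) (t, x) (1, 0) :=
  (kit_has hf ht hx).derivWithin (hS.1 t ht)

lemma kit_hasDt (hS : Nice S) (hf : Sm S U f) {t : ℝ} (ht : t ∈ S) {x : V} (hx : x ∈ U) :
    HasDerivWithinAt (fun s => f s x) (Dt S f t x) S t := by
  rw [kit_Dt hS hf ht hx]; exact kit_has hf ht hx

lemma kit_D (hU : IsOpen U) (hf : Sm S U f) {t : ℝ} (ht : t ∈ S) {x : V} (hx : x ∈ U) (v : V) :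
    D v (f t) x = fderivWithin ℝ (fun q : ℝ × V => f q.1 q.2) (S ×ˢ U) (t, x) (0, v) := by
  have h1 : HasFDerivWithinAt (fun y : V => ((t, y) : ℝ × V)) (ContinuousLinearMap.inr ℝ ℝ V) U x :=
    (hasFDerivAt_prodMk_right t x).hasFDerivWithinAt
  have h2 := ((kit_hf hf ht hx).comp x h1 fun y hy => ⟨ht, hy⟩).hasFDerivAt (hU.mem_nhds hx)
  have h3 : fderiv ℝ (f t) x = _ := h2.fderiv
  simp only [D, h3, ContinuousLinearMap.comp_apply, ContinuousLinearMap.inr_apply]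

lemma kit_congr (hf : Sm S U f) (h : ∀ t ∈ S, ∀ x ∈ U, g t x = f t x) : Sm S U g :=
  ContDiffOn.congr hf fun q hq => h q.1 hq.1 q.2 hq.2

lemma kit_smw (hS : Nice S) (hU : IsOpen U) (hf : Sm S U f) (w : ℝ × V) :
    ContDiffOn ℝ ∞ (fun q => fderivWithin ℝ (fun q : ℝ × V => f q.1 q.2) (S ×ˢ U) q w) (S ×ˢ U) :=
  (ContDiffOn.fderivWithin hf (kit_ud hS hU) (m := ∞) (by simp)).clm_apply contDiffOn_const

lemma kit_smDx (hS : Nice S) (hU : IsOpen U) (hf : Sm S U f) (i : Fin 4) : Sm S U (Dx i f) :=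
  (kit_smw hS hU hf (0, e i)).congr fun q hq => kit_D hU hf hq.1 hq.2 (e i)

lemma kit_smDt (hS : Nice S) (hU : IsOpen U) (hf : Sm S U f) : Sm S U (Dt S f) :=
  (kit_smw hS hU hf (1, 0)).congr fun q hq => kit_Dt hS hf hq.1 hq.2

lemma kit_smDw (hS : Nice S) (hU : IsOpen U) (hf : Sm S U f) (l : List (Fin 4)) :
    Sm S U (Dw l f) := by
  induction l with
  | nil => exact hf
  | cons i l ih => exact kit_smDx hS hU ih i

lemma kit_Gm (f : Fn) (t : ℝ) (x : V) :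
    Gm f 0 t x = Dx 0 (Dx 0 f) t x + Dx 1 (Dx 1 f) t x ∧
    Gm f 1 t x = Dx 2 (Dx 2 f) t x + Dx 3 (Dx 3 f) t x ∧
    Gm f 2 t x = Dx 0 (Dx 2 f) t x + Dx 1 (Dx 3 f) t x ∧
    Gm f 3 t x = Dx 0 (Dx 3 f) t x - Dx 1 (Dx 2 f) t x := by
  have h0 : Complex.I • e 0 = e 1 := by simp [e]
  have h2 : Complex.I • e 2 = e 3 := by simp [e]
  have h3 : Complex.I • e 3 = -e 2 := by simp [e]
  have h4 : D (-e 2) (f t) = fun y => -D (e 2) (f t) y := by funext y; simp [D]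
  have h5 : D (e 1) (fun y => -D (e 2) (f t) y) x = -D (e 1) (D (e 2) (f t)) x := by
    show fderiv ℝ (fun y => -D (e 2) (f t) y) x (e 1) = _
    rw [fderiv_fun_neg]; rfl
  refine ⟨?_, ?_, ?_, ?_⟩
  · show lev (f t) x (e 0) (e 0) = _
    rw [lev, h0]; rfl
  · show lev (f t) x (e 2) (e 2) = _
    rw [lev, h2]; rfl
  · show lev (f t) x (e 0) (e 2) = _
    rw [lev, h0, h2]; rfl
  · show lev (f t) x (e 0) (e 3) = _
    rw [lev, h0, h3, h4, h5, sub_eq_add_neg]; rfl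

lemma kit_smGm (hS : Nice S) (hU : IsOpen U) (hf : Sm S U f) (α : Fin 4) : Sm S U (Gm f α) := by
  have h := fun i j => kit_smDx hS hU (kit_smDx hS hU hf j) i
  have ha : ∀ {f g : Fn}, Sm S U f → Sm S U g → Sm S U (fun t x => f t x + g t x) :=
    fun hf hg => ContDiffOn.add hf hg
  have hs : ∀ {f g : Fn}, Sm S U f → Sm S U g → Sm S U (fun t x => f t x - g t x) :=
    fun hf hg => ContDiffOn.sub hf hg
  fin_cases α
  · exact kit_congr (ha (h 0 0) (h 1 1)) fun t _ x _ => (kit_Gm f t x).1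
  · exact kit_congr (ha (h 2 2) (h 3 3)) fun t _ x _ => (kit_Gm f t x).2.1
  · exact kit_congr (ha (h 0 2) (h 1 3)) fun t _ x _ => (kit_Gm f t x).2.2.1
  · exact kit_congr (hs (h 0 3) (h 1 2)) fun t _ x _ => (kit_Gm f t x).2.2.2

lemma kit_Dxc (hU : IsOpen U) (h : ∀ t ∈ S, ∀ x ∈ U, f t x = g t x) (i : Fin 4) :
    ∀ t ∈ S, ∀ x ∈ U, Dx i f t x = Dx i g t x := by
  intro t ht x hx
  have : f t =ᶠ[𝓝 x] g t := by
    filter_upwards [hU.mem_nhds hx] with y hy using h t ht y hy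
  simp only [Dx, D, this.fderiv_eq]

lemma kit_Dtc (h : ∀ t ∈ S, ∀ x ∈ U, f t x = g t x) :
    ∀ t ∈ S, ∀ x ∈ U, Dt S f t x = Dt S g t x := fun t ht x hx =>
  derivWithin_congr (fun s hs => h s hs x hx) (h t ht x hx)

lemma kit_sym (hS : Nice S) (hU : IsOpen U) {F : ℝ × V → ℝ} (hF : ContDiffOn ℝ ∞ F (S ×ˢ U))
    {q : ℝ × V} (hq : q ∈ S ×ˢ U) (v w : ℝ × V) :
    fderivWithin ℝ (fun p => fderivWithin ℝ F (S ×ˢ U) p w) (S ×ˢ U) q v =
      fderivWithin ℝ (fun p => fderivWithin ℝ F (S ×ˢ U) p v) (S ×ˢ U) q w := by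
  have hu := kit_ud hS hU
  have hd : DifferentiableWithinAt ℝ (fderivWithin ℝ F (S ×ˢ U)) (S ×ˢ U) q :=
    (hF.fderivWithin hu (m := ∞) (by simp)).differentiableOn (by simp) q hq
  have h1 : ∀ a b : ℝ × V, fderivWithin ℝ (fun p => fderivWithin ℝ F (S ×ˢ U) p b) (S ×ˢ U) q a =
      fderivWithin ℝ (fderivWithin ℝ F (S ×ˢ U)) (S ×ˢ U) q a b := by
    intro a b
    rw [fderivWithin_clm_apply (hu q hq) hd (differentiableWithinAt_const b)]
    simp
  have hc : q ∈ closure (interior (S ×ˢ U)) := by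
    rw [interior_prod_eq, closure_prod_eq, hU.interior_eq]
    exact ⟨hS.2 hq.1, subset_closure hq.2⟩
  rw [h1, h1]
  have h2 : minSmoothness ℝ 2 ≤ ∞ := by
    rw [minSmoothness_of_isRCLikeNormedField]
    exact WithTop.coe_le_coe.2 (le_top : (2 : ℕ∞) ≤ ⊤)
  exact ((hF q hq).isSymmSndFDerivWithinAt h2 hu hc hq).eq v w

lemma kit_fc {F : ℝ × V → ℝ} (h : ∀ q ∈ S ×ˢ U, f q.1 q.2 = F q) {q : ℝ × V}
    (hq : q ∈ S ×ˢ U) :
    fderivWithin ℝ (fun q : ℝ × V => f q.1 q.2) (S ×ˢ U) q = fderivWithin ℝ F (S ×ˢ U) q :=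
  fderivWithin_congr h (h q hq)

lemma kit_DxDx (hS : Nice S) (hU : IsOpen U) (hf : Sm S U f) (i j : Fin 4) :
    ∀ t ∈ S, ∀ x ∈ U, Dx i (Dx j f) t x = Dx j (Dx i f) t x := by
  intro t ht x hx
  have h : ∀ i j : Fin 4, Dx i (Dx j f) t x = fderivWithin ℝ (fun p => fderivWithin ℝ
      (fun q : ℝ × V => f q.1 q.2) (S ×ˢ U) p (0, e j)) (S ×ˢ U) (t, x) (0, e i) := by
    intro i j
    rw [← kit_fc (f := Dx j f) (fun q hq => kit_D hU hf hq.1 hq.2 (e j)) ⟨ht, hx⟩]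
    exact kit_D hU (kit_smDx hS hU hf j) ht hx (e i)
  rw [h, h]
  exact kit_sym hS hU hf ⟨ht, hx⟩ _ _

lemma kit_DtDx (hS : Nice S) (hU : IsOpen U) (hf : Sm S U f) (i : Fin 4) :
    ∀ t ∈ S, ∀ x ∈ U, Dt S (Dx i f) t x = Dx i (Dt S f) t x := by
  intro t ht x hx
  rw [kit_Dt hS (kit_smDx hS hU hf i) ht hx,
    kit_fc (f := Dx i f) (fun q hq => kit_D hU hf hq.1 hq.2 (e i)) ⟨ht, hx⟩,
    kit_sym hS hU hf ⟨ht, hx⟩,
    ← kit_fc (f := Dt S f) (fun q hq => kit_Dt hS hf hq.1 hq.2) ⟨ht, hx⟩]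
  exact (kit_D hU (kit_smDt hS hU hf) ht hx (e i)).symm

lemma kit_add (hU : IsOpen U) (hf : Sm S U f) (hg : Sm S U g) (i : Fin 4) :
    ∀ t ∈ S, ∀ x ∈ U,
      Dx i (fun t x => f t x + g t x) t x = Dx i f t x + Dx i g t x := by
  intro t ht x hx
  simp only [Dx, D]
  rw [fderiv_fun_add (kit_da hU hf ht hx) (kit_da hU hg ht hx)]; rfl

lemma kit_mul (hU : IsOpen U) (hf : Sm S U f) (hg : Sm S U g) (i : Fin 4) :
    ∀ t ∈ S, ∀ x ∈ U,
      Dx i (fun t x => f t x * g t x) t x = Dx i f t x * g t x + f t x * Dx i g t x := by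
  intro t ht x hx
  simp only [Dx, D]
  rw [fderiv_fun_mul (kit_da hU hf ht hx) (kit_da hU hg ht hx)]
  simp only [ContinuousLinearMap.add_apply, ContinuousLinearMap.smul_apply, smul_eq_mul]
  ring

lemma kit_Box (b : ℝ → V → Hm) (f : Fn) (t : ℝ) (x : V) :
    Box S b f t x = Dt S f t x - (b t x 0 * (Dx 2 (Dx 2 f) t x + Dx 3 (Dx 3 f) t x) +
      b t x 1 * (Dx 0 (Dx 0 f) t x + Dx 1 (Dx 1 f) t x) -
      2 * b t x 2 * (Dx 0 (Dx 2 f) t x + Dx 1 (Dx 3 f) t x) -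
      2 * b t x 3 * (Dx 0 (Dx 3 f) t x - Dx 1 (Dx 2 f) t x)) := by
  obtain ⟨h0, h1, h2, h3⟩ := kit_Gm f t x
  rw [← h0, ← h1, ← h2, ← h3]; rfl

lemma kit_Boxc (hU : IsOpen U) (h : ∀ t ∈ S, ∀ x ∈ U, f t x = g t x) (b : ℝ → V → Hm) :
    ∀ t ∈ S, ∀ x ∈ U, Box S b f t x = Box S b g t x := by
  intro t ht x hx
  have h2 := fun i j => kit_Dxc hU (kit_Dxc hU h j) i t ht x hx
  simp only [kit_Box, h2, kit_Dtc h t ht x hx]

lemma kit_tadd (hS : Nice S) (hf : Sm S U f) (hg : Sm S U g) : ∀ t ∈ S, ∀ x ∈ U,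
    Dt S (fun t x => f t x + g t x) t x = Dt S f t x + Dt S g t x := fun t ht _ hx =>
  ((kit_hasDt hS hf ht hx).add (kit_hasDt hS hg ht hx)).derivWithin (hS.1 t ht)

lemma kit_tmul (hS : Nice S) (hf : Sm S U f) (hg : Sm S U g) : ∀ t ∈ S, ∀ x ∈ U,
    Dt S (fun t x => f t x * g t x) t x = Dt S f t x * g t x + f t x * Dt S g t x :=
  fun t ht _ hx => ((kit_hasDt hS hf ht hx).mul (kit_hasDt hS hg ht hx)).derivWithin (hS.1 t ht)

lemma kit_Dxtime (θ : ℝ → ℝ) (i : Fin 4) (t : ℝ) (x : V) : Dx i (fun t _ => θ t) t x = 0 := by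
  simp [Dx, D]

lemma kit_Boxconst (c : ℝ) (b : ℝ → V → Hm) (t : ℝ) (x : V) :
    Box S b (fun _ _ => c) t x = 0 := by
  have h1 : ∀ i, Dx i (fun _ _ => c) = fun _ _ => 0 := fun i => by
    funext t x; exact kit_Dxtime (fun _ => c) i t x
  have h2 : ∀ i, Dx i (fun _ _ => (0 : ℝ)) t x = 0 := fun i => kit_Dxtime (fun _ => 0) i t x
  simp [kit_Box, h1, h2, Dt]

lemma kit_Boxadd (hS : Nice S) (hU : IsOpen U) (hf : Sm S U f) (hg : Sm S U g)
    (b : ℝ → V → Hm) : ∀ t ∈ S, ∀ x ∈ U,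
      Box S b (fun t x => f t x + g t x) t x = Box S b f t x + Box S b g t x := by
  intro t ht x hx
  have h2 : ∀ i j, Dx i (Dx j (fun t x => f t x + g t x)) t x =
      Dx i (Dx j f) t x + Dx i (Dx j g) t x := fun i j =>
    (kit_Dxc hU (kit_add hU hf hg j) i t ht x hx).trans
      (kit_add hU (kit_smDx hS hU hf j) (kit_smDx hS hU hg j) i t ht x hx)
  simp only [kit_Box, h2, kit_tadd hS hf hg t ht x hx]
  ring

lemma kit_Boxmul (hS : Nice S) (hU : IsOpen U) (hf : Sm S U f) (hg : Sm S U g)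
    (b : ℝ → V → Hm) : ∀ t ∈ S, ∀ x ∈ U,
      Box S b (fun t x => f t x * g t x) t x =
        f t x * Box S b g t x + g t x * Box S b f t x -
          2 * gam (b t x) (gr f t x) (gr g t x) := by
  intro t ht x hx
  have h2 : ∀ i j, Dx i (Dx j (fun t x => f t x * g t x)) t x =
      Dx i (Dx j f) t x * g t x + Dx j f t x * Dx i g t x +
        (Dx i f t x * Dx j g t x + f t x * Dx i (Dx j g) t x) := fun i j => by
    have a1 := kit_smDx hS hU hf j
    have a2 := kit_smDx hS hU hg j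
    rw [kit_Dxc hU (kit_mul hU hf hg j) i t ht x hx,
      kit_add hU (f := fun t x => Dx j f t x * g t x) (g := fun t x => f t x * Dx j g t x)
        (ContDiffOn.mul a1 hg) (ContDiffOn.mul hf a2) i t ht x hx,
      kit_mul hU a1 hg i t ht x hx, kit_mul hU hf a2 i t ht x hx]
  simp only [kit_Box, h2, kit_tmul hS hf hg t ht x hx, gam, gr]
  ring

lemma kit_smsum {ι : Type} (T : Finset ι) {v : ι → Fn} (h : ∀ β ∈ T, Sm S U (v β)) :
    Sm S U (fun t x => ∑ β ∈ T, v β t x) :=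
  ContDiffOn.sum (f := fun β (q : ℝ × V) => v β q.1 q.2) h

theorem kit : SKIT := by
  intro S U hS hU
  refine
    { sm_slice := fun hf t ht => kit_slice hf ht
      sm_space := fun hg => ContDiffOn.comp hg contDiffOn_snd fun _ hq => hq.2
      sm_time := fun hθ => (hθ.comp contDiff_fst).contDiffOn
      sm_congr := kit_congr
      sm_add := fun hf hg => ContDiffOn.add hf hg
      sm_mul := fun hf hg => ContDiffOn.mul hf hg
      sm_inv := fun hf h => ContDiffOn.inv hf fun q hq => h q.1 hq.1 q.2 hq.2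
      sm_log := fun hf h => ContDiffOn.log hf fun q hq => h q.1 hq.1 q.2 hq.2
      sm_sum := fun T _ h => kit_smsum T h
      sm_Dx := fun hf i => kit_smDx hS hU hf i
      sm_Dw := fun hf l => kit_smDw hS hU hf l
      sm_Dt := fun hf => kit_smDt hS hU hf
      sm_Gm := fun hf α => kit_smGm hS hU hf α
      has_Dt := fun hf t ht x hx => kit_hasDt hS hf ht hx
      Dt_eq := fun t ht x h => h.derivWithin (hS.1 t ht)
      fderiv_eq := ?_
      Dx_congr := fun h i => kit_Dxc hU h i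
      Dw_congr := ?_
      Dt_congr := fun h => kit_Dtc h
      Box_congr := fun h b => kit_Boxc hU h b
      Gm_eq := kit_Gm
      Dx_Dx := fun hf i j => kit_DxDx hS hU hf i j
      Dt_Dx := fun hf i => kit_DtDx hS hU hf i
      Dx_const := fun c i t x => kit_Dxtime (fun _ => c) i t x
      Dx_time := kit_Dxtime
      Dt_space := fun g t _ x => by simp [Dt]
      Dx_add := fun hf hg i => kit_add hU hf hg i
      Dx_sub := ?_
      Dx_mul := fun hf hg i => kit_mul hU hf hg i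
      Dx_inv := ?_
      Dx_log := ?_
      Dx_sum := ?_
      Dt_add := fun hf hg => kit_tadd hS hf hg
      Dt_sub := fun hf hg t ht _ hx =>
        ((kit_hasDt hS hf ht hx).sub (kit_hasDt hS hg ht hx)).derivWithin (hS.1 t ht)
      Dt_mul := fun hf hg => kit_tmul hS hf hg
      Dt_inv := ?_
      Box_const := fun c b t _ x => kit_Boxconst c b t x
      Box_add := fun hf hg b => kit_Boxadd hS hU hf hg b
      Box_mul := fun hf hg b => kit_Boxmul hS hU hf hg b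
      Box_sum := ?_ }
  · intro f hf t ht x hx w
    have hw : w = w.1 • ((1, 0) : ℝ × V) + (w.2.1.re • ((0, e 0) : ℝ × V) +
        w.2.1.im • ((0, e 1) : ℝ × V) + w.2.2.re • ((0, e 2) : ℝ × V) +
        w.2.2.im • ((0, e 3) : ℝ × V)) := by
      ext <;> simp [e, Complex.ext_iff]
    rw [kit_Dt hS hf ht hx]
    simp only [Dx, kit_D hU hf ht hx]
    conv_lhs => rw [hw]
    simp only [map_add, map_smul, smul_eq_mul]
  · intro f g h l
    induction l with
    | nil => exact h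
    | cons i l ih => exact kit_Dxc hU ih i
  · intro f g hf hg i t ht x hx
    simp only [Dx, D]
    rw [fderiv_fun_sub (kit_da hU hf ht hx) (kit_da hU hg ht hx)]; rfl
  · intro f hf i t ht x hx h0
    have h := (hasDerivAt_inv h0).comp_hasFDerivAt x (kit_da hU hf ht hx).hasFDerivAt
    have h' : fderiv ℝ (fun x => (f t x)⁻¹) x = _ := h.fderiv
    simp only [Dx, D, h', ContinuousLinearMap.smul_apply, smul_eq_mul]
    field_simp
  · intro f hf i t ht x hx h0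
    have h := (kit_da hU hf ht hx).hasFDerivAt.log h0
    simp only [Dx, D, h.fderiv, ContinuousLinearMap.smul_apply, smul_eq_mul]
  · intro ι T v h i t ht x hx
    simp only [Dx, D]
    rw [fderiv_fun_sum fun β hβ => kit_da hU (h β hβ) ht hx, ContinuousLinearMap.sum_apply]
  · intro f hf t ht x hx h0
    have h := ((kit_hasDt hS hf ht hx).inv h0).derivWithin (hS.1 t ht)
    refine Eq.trans h ?_
    field_simp
  · intro ι T v h b t ht x hx
    classical
    induction T using Finset.induction_on with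
    | empty => simpa using kit_Boxconst (S := S) 0 b t x
    | insert a T ha ih =>
      have h1 := h a (Finset.mem_insert_self a T)
      have h2 : ∀ β ∈ T, Sm S U (v β) := fun β hβ => h β (Finset.mem_insert_of_mem hβ)
      simp only [Finset.sum_insert ha]
      rw [kit_Boxadd hS hU h1 (kit_smsum T h2) b t ht x hx, ih h2]

end Pool.Agent.MP_67f0e4_gt.B
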