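import Pool.Agent.MP_67f0e4_gt.B.Spec

/-! Block B: the interior estimate of first order. -/

open Set Metric

noncomputable section

namespace Pool.Agent.MP_67f0e4_gt.B

open K

theorem b1_D (w : V) (f : V → ℝ) (c : ℝ) : D w (fun x => f x - c) = D w f := by
  funext x
  simp only [D, fderiv_sub_const]

theorem b1_box (S : Set ℝ) (b : ℝ → V → Hm) (f : Fn) (c t : ℝ) (x : V) :
    Box S b (fun t x => f t x - c) t x = Box S b f t x := by
  simp only [Box, Dt, derivWithin_sub_const, lv, lev, b1_D]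

theorem b1_le {ι : Type} [Fintype ι] (v : ι → Fn) (j : ι) (t : ℝ) (x : V) :
    |v j t x| ≤ √(ss v t x) :=
  Real.abs_le_sqrt (Finset.single_le_sum (f := fun β => v β t x ^ 2) (fun _ _ => sq_nonneg _)
    (Finset.mem_univ j))

theorem b1_nn {ι : Type} [Fintype ι] (v : ι → Fn) (t : ℝ) (x : V) : 0 ≤ ss v t x :=
  Finset.sum_nonneg fun _ _ => sq_nonneg _

theorem b1_ss {ι : Type} [Fintype ι] (v : ι → Fn) (t : ℝ) (x : V) (M : ℝ)
    (h : ∀ j, |v j t x| ≤ M) : ss v t x ≤ Fintype.card ι * M ^ 2 := by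
  have := Finset.sum_le_card_nsmul Finset.univ (fun j => v j t x ^ 2) (M ^ 2)
    fun j _ => sq_le_sq' (abs_le.1 (h j)).1 (abs_le.1 (h j)).2
  simpa [ss] using this

theorem b1_sum {ι : Type} [Fintype ι] (p q : ι → ℝ) (M N : ℝ) (hp : ∀ j, |p j| ≤ M)
    (hq : ∀ j, |q j| ≤ N) : ∑ j, p j * q j ≤ Fintype.card ι * (M * N) := by
  have := Finset.sum_le_card_nsmul Finset.univ (fun j => p j * q j) (M * N) fun j _ =>
    (le_abs_self _).trans (by
      rw [abs_mul]
      exact mul_le_mul (hp j) (hq j) (abs_nonneg _) ((abs_nonneg _).trans (hp j)))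
  simpa using this

theorem b1_bound (hB : SEXB) (hQ : ∀ l, EQ l) {ι : Type} [Fintype ι] (l : ι → List (Fin 4))
    (k : ℕ) (hl : ∀ i, (l i).length = k) (C : ℝ) : ∃ C0 : ℝ, 0 < C0 ∧ ∀ (S : Set ℝ) (U : Set V)
    (φ : Fn) (w0 : V → ℝ), Nice S → IsOpen U → PFlow S U φ w0 → ∀ t ∈ S, ∀ x ∈ U, ∀ lam : ℝ,
    1 ≤ lam → |(hdet (lv (φ t) x))⁻¹| ≤ C →
    (∀ α m, m.length ≤ k + 1 → |Dw m (Gm φ α) t x| ≤ C * lam ^ m.length) →
    ∀ i α, |Box S (bb φ) (Dw (l i) (Gm φ α)) t x| ≤ C0 * lam ^ (k + 2) := by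
  choose R h1 h2 h3 using fun p : ι × Fin 4 => hQ (l p.1) p.2
  choose M m1 m2 using fun p : ι × Fin 4 =>
    hB.2 (R p) (k + 2) (k + 1) C (hl p.1 ▸ h1 p) (hl p.1 ▸ h2 p)
  have h0 : 0 ≤ ∑ p, M p := Finset.sum_nonneg fun p _ => (m1 p).le
  refine ⟨∑ p, M p + 1, by linarith, fun S U φ w0 hS hU hφ t ht x hx lam hl1 hi hj i α => ?_⟩
  rw [h3 (i, α) S U φ w0 hS hU hφ t ht x hx]
  refine (m2 (i, α) _ _ lam hl1 hi hj).trans (mul_le_mul_of_nonneg_right ?_ (by positivity))
  have := Finset.single_le_sum (f := M) (fun p _ => (m1 p).le) (Finset.mem_univ (i, α))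
  linarith

theorem b1 (hK : SKIT) (hN : SNICE) (hE : SELL) (hS : SSTEP) (hB : SEXB) (hU : SNUM)
    (hQ : ∀ l, EQ l) : SB1 := by
  intro Λ hΛ
  obtain ⟨c, C, hc, hC, hell⟩ := hE.2.2 Λ hΛ
  obtain ⟨C0, p0, b0⟩ := b1_bound hB hQ (fun _ : Unit => []) 0 (fun _ => rfl) C
  obtain ⟨C1, p1, b1⟩ := b1_bound hB hQ (fun i : Fin 4 => [i]) 1 (fun _ => rfl) C
  obtain ⟨η, hη, hnum⟩ := hU.1 (c / (32 * C1)) (by positivity)
  have C0' : 0 < C := by linarith
  obtain ⟨A, hA⟩ : ∃ A, A = c / (8 * (32 * C1 * η)) := ⟨_, rfl⟩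
  have A0 : 0 < A := by rw [hA]; positivity
  obtain ⟨δ, d0, d1, d2, d3, d4⟩ : ∃ δ : ℝ, 0 < δ ∧ δ ≤ 1 / 2 ∧ δ ≤ c / (8 * C * C0) ∧
      δ ≤ A / (4 * C ^ 2) ∧ δ ≤ c ^ 2 * A / (2304 * C ^ 4) :=
    ⟨min (min (1 / 2) (c / (8 * C * C0))) (min (A / (4 * C ^ 2)) (c ^ 2 * A / (2304 * C ^ 4))),
      by positivity, (min_le_left _ _).trans (min_le_left _ _),
      (min_le_left _ _).trans (min_le_right _ _), (min_le_right _ _).trans (min_le_left _ _),
      (min_le_right _ _).trans (min_le_right _ _)⟩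
  rw [le_div_iff₀ (by positivity)] at d2 d3 d4
  refine ⟨δ, d0, d1, fun r R σ K hr hσ => ?_⟩
  obtain ⟨C2, hC2⟩ := hS c C A (4 * C ^ 2 * δ) (32 * C1 * η) (c + 32 * C1 * η) (R - r) σ
    (16 * K ^ 2) hc A0 (by positivity) (by positivity) (by positivity) (by linarith) hσ (by
      have h1 : A * (32 * C1 * η) = c / 8 := by rw [hA]; field_simp
      have h2 : 4 * C ^ 2 * δ * (32 * C1 * η) ≤ A * (32 * C1 * η) :=
        mul_le_mul_of_nonneg_right (by linarith) (by positivity)
      have h3 : 144 * C ^ 2 * (4 * C ^ 2 * δ) / (c * A) ≤ c / 4 := by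
        rw [div_le_iff₀ (by positivity)]
        nlinarith
      nlinarith)
  refine ⟨C + √C2, fun g0 a b z φ w0 hg hab hφ hcl hin t ht l hl α x hx => ?_⟩
  have nS := hN.1 a b hab
  have kit := hK _ _ nS (isOpen_ball (x := z) (ε := R))
  have sub : ball x (R - r) ⊆ ball z R := ball_subset_ball' (by linarith [mem_ball.1 hx])
  have el := fun s hs y hy => hell g0 _ δ hg d0.le d1 (hcl s hs y hy)
  have tS : t ∈ Icc a b := ⟨by linarith [ht.1], ht.2⟩
  have xU : x ∈ ball z R := ball_subset_ball hr.le hx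
  obtain ⟨v, hv⟩ : ∃ v : Fin 4 → Fn, v = fun α t x => Gm φ α t x - g0 α := ⟨_, rfl⟩
  have e1 : dv v = fun p => Dw [p.1] (Gm φ p.2) := by
    funext p s
    rw [hv]
    exact b1_D _ _ _
  have key : ss (dv v) t x ≤ C2 := by
    refine hC2 (Fin 4) a b x (bb φ) v hab (fun j => ?_) (fun s hs y hy => ?_)
      (hin.imp_right fun h y hy => ?_) t ht
    · have := kit.sm_add (kit.sm_Gm hφ.sm j) (kit.sm_space (g := fun _ => -g0 j) contDiffOn_const)
      rw [hv]
      simp only [sub_eq_add_neg]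
      exact this.mono (prod_mono Subset.rfl sub)
    · obtain ⟨q1, q2, q3, q4, q5⟩ := el s hs y (sub hy)
      have qi : |(hdet (lv (φ s) y))⁻¹| ≤ C := by rwa [abs_of_pos (inv_pos.2 q3)]
      have v0 : ∀ j, |v j s y| ≤ C * δ := fun j => by rw [hv]; exact q1 j
      have j1 : ∀ i j, |Dw [i] (Gm φ j) s y| ≤ √(ss (dv v) s y) := fun i j => by
        rw [e1]
        exact b1_le (fun p : Fin 4 × Fin 4 => Dw [p.1] (Gm φ p.2)) (i, j) s y
      have j2 : ∀ i i' j, |Dw [i, i'] (Gm φ j) s y| ≤ √(ss (dv (dv v)) s y) := fun i i' j => by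
        rw [e1]
        exact b1_le (dv fun p : Fin 4 × Fin 4 => Dw [p.1] (Gm φ p.2)) (i, i', j) s y
      have a2 := Real.sq_sqrt (b1_nn (dv v) s y)
      have b2 := Real.sq_sqrt (b1_nn (dv (dv v)) s y)
      have a0 := Real.sqrt_nonneg (ss (dv v) s y)
      have jet : ∀ lam : ℝ, 1 ≤ lam → √(ss (dv v) s y) ≤ lam → ∀ j (m : List (Fin 4)),
          m.length ≤ 1 → |Dw m (Gm φ j) s y| ≤ C * lam ^ m.length := fun lam l1 l2 j m hm => by
        rcases m with _ | ⟨i, _ | ⟨i', m⟩⟩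
        · rw [List.length_nil, pow_zero, mul_one]
          exact q2 j
        · have := j1 i j
          simp only [List.length_singleton, pow_one]
          nlinarith
        · simp at hm
      refine ⟨q5, ?_, ?_, ?_⟩
      · have := b1_ss v s y _ v0
        simp only [Fintype.card_fin, Nat.cast_ofNat] at this
        have h1 : C ^ 2 * δ * δ ≤ C ^ 2 * δ * 1 :=
          mul_le_mul_of_nonneg_left (by linarith) (by positivity)
        nlinarith
      · have h1 := b0 _ _ φ w0 nS isOpen_ball hφ s hs y (sub hy) _ (le_max_left 1 _) qi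
          (jet _ (le_max_left _ _) (le_max_right _ _)) ()
        have h2 := b1_sum (fun j => v j s y) (fun j => Box (Icc a b) (bb φ) (v j) s y) _ _ v0
          fun j => by
            rw [hv]
            exact (congrArg abs (b1_box _ _ _ _ _ _)).trans_le (h1 j)
        have h3 : max 1 √(ss (dv v) s y) ^ (0 + 2) ≤ 1 + ss (dv v) s y := by
          rcases le_total 1 √(ss (dv v) s y) with h | h
          · rw [max_eq_right h, zero_add, a2]
            linarith
          · rw [max_eq_left h, one_pow]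
            linarith [b1_nn (dv v) s y]
        simp only [Fintype.card_fin, Nat.cast_ofNat] at h2
        have h4 := mul_le_mul d2 h3 (by positivity) hc.le
        have h5 : 0 < C1 * η := by positivity
        nlinarith
      · obtain ⟨lam, l1, l2, l3, l4⟩ := hnum _ _ a0 (Real.sqrt_nonneg (ss (dv (dv v)) s y))
        have h1 := b1 _ _ φ w0 nS isOpen_ball hφ s hs y (sub hy) lam l1 qi fun j m hm => by
          rcases m with _ | ⟨i, _ | ⟨i', _ | ⟨i'', m⟩⟩⟩
          · exact jet lam l1 l2 j _ (by simp)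
          · exact jet lam l1 l2 j _ (by simp)
          · have := j2 i i' j
            have h : lam ^ [i, i'].length = lam ^ 2 := rfl
            rw [h]
            nlinarith [sq_nonneg lam]
          · simp at hm
        have h2 := b1_sum (fun j => dv v j s y) (fun j => Box (Icc a b) (bb φ) (dv v j) s y) _ _
          (fun j => b1_le (dv v) j s y) fun j => by
            rw [e1]
            exact h1 j.1 j.2
        have h3 : √(ss (dv v) s y) ^ 4 = ss (dv v) s y ^ 2 := by
          exact (pow_mul _ 2 2).trans (congrArg (· ^ 2) a2)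
        rw [b2, h3] at l4
        have h4 := mul_le_mul_of_nonneg_left l4 (show 0 ≤ 32 * C1 by positivity)
        have h5 : 32 * C1 * (c / (32 * C1) * ss (dv (dv v)) s y) = c * ss (dv (dv v)) s y := by
          field_simp
        simp only [Fintype.card_prod, Fintype.card_fin, Nat.cast_mul, Nat.cast_ofNat,
          Nat.reduceAdd] at h2
        linarith
    · have := b1_ss (dv v) a y K fun j => by
        rw [e1]
        exact h [j.1] (by simp) j.2 y (sub hy)
      simp only [Fintype.card_prod, Fintype.card_fin, Nat.cast_mul, Nat.cast_ofNat] at this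
      linarith
  rcases l with _ | ⟨i, _ | ⟨i', l⟩⟩
  · have := (el t tS x xU).2.1 α
    exact this.trans (le_add_of_nonneg_right (Real.sqrt_nonneg _))
  · have h1 := b1_le (dv v) (i, α) t x
    have h2 := Real.sqrt_le_sqrt key
    rw [e1] at h1 h2
    exact (h1.trans h2).trans (le_add_of_nonneg_left C0'.le)
  · simp at hl

end Pool.Agent.MP_67f0e4_gt.B
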