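import Pool.Agent.MP_67f0e4_gt.B.Spec

/-! Row BS: the induction step of the interior estimates. -/

open Set Metric Filter Topology
open scoped ContDiff

noncomputable section

namespace Pool.Agent.MP_67f0e4_gt.B

open K

theorem bs_mono {S S' : Set ℝ} {U U' : Set V} {φ : Fn} {w0 : V → ℝ} (h : PFlow S U φ w0)
    (hS : S' ⊆ S) (hU : U' ⊆ U) : PFlow S' U' φ w0 :=
  ⟨h.sm.mono (prod_mono hS hU), h.om.mono hU, fun x hx => h.ph x (hU hx),
    fun t ht x hx => h.pos t (hS ht) x (hU hx),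
    fun t ht x hx => (h.eq t (hS ht) x (hU hx)).mono hS⟩

theorem bs_abs_le {ι : Type} [Fintype ι] (v : ι → Fn) (j : ι) (t : ℝ) (x : V) :
    |v j t x| ≤ √(ss v t x) :=
  Real.abs_le_sqrt (Finset.single_le_sum (f := fun β => v β t x ^ 2) (fun _ _ => sq_nonneg _)
    (Finset.mem_univ j))

theorem bs_ss_nonneg {ι : Type} [Fintype ι] (v : ι → Fn) (t : ℝ) (x : V) : 0 ≤ ss v t x :=
  Finset.sum_nonneg fun _ _ => sq_nonneg _

theorem bs_sum_le {ι : Type} [Fintype ι] (u w : ι → ℝ) {P Q : ℝ} (hu : ∀ j, |u j| ≤ P)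
    (hw : ∀ j, |w j| ≤ Q) : ∑ j, u j * w j ≤ Fintype.card ι * (P * Q) := by
  have h := Finset.sum_le_card_nsmul Finset.univ (fun j => u j * w j) (P * Q) fun j _ =>
    (le_abs_self _).trans (by
      rw [abs_mul]
      exact mul_le_mul (hu j) (hw j) (abs_nonneg _) ((abs_nonneg _).trans (hu j)))
  rwa [nsmul_eq_mul, Finset.card_univ] at h

theorem bs_ss_le {ι : Type} [Fintype ι] (v : ι → Fn) (t : ℝ) (x : V) {P : ℝ}
    (h : ∀ j, |v j t x| ≤ P) : ss v t x ≤ Fintype.card ι * (P * P) := by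
  have := bs_sum_le (fun j => v j t x) (fun j => v j t x) h h
  simpa only [ss, sq] using this

/-- one constant for all words of a given length -/
theorem bs_unif (hB : SEXB) (hQ : ∀ l, EQ l) (n : ℕ) (K : ℝ) : ∃ C0 : ℝ, 0 < C0 ∧
    ∀ (α : Fin 4) (l : List (Fin 4)), l.length = n → ∀ (S : Set ℝ) (U : Set V) (φ : Fn)
      (w0 : V → ℝ), Nice S → IsOpen U → PFlow S U φ w0 → ∀ t ∈ S, ∀ x ∈ U, ∀ lam : ℝ, 1 ≤ lam →
      |(hdet (lv (φ t) x))⁻¹| ≤ K →
      (∀ α l, l.length ≤ n + 1 → |Dw l (Gm φ α) t x| ≤ K * lam ^ l.length) →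
      |Box S (bb φ) (Dw l (Gm φ α)) t x| ≤ C0 * lam ^ (n + 2) := by
  choose R hR1 hR2 hR3 using fun j : Fin 4 × List.Vector (Fin 4) n => hQ j.2.1 j.1
  choose C hC1 hC2 using fun j : Fin 4 × List.Vector (Fin 4) n =>
    hB.2 (R j) (n + 2) (n + 1) K (by have := hR1 j; rwa [j.2.2] at this)
      (by have := hR2 j; rwa [j.2.2] at this)
  obtain ⟨C0, hC0⟩ := Finite.exists_le C
  refine ⟨max C0 1, lt_max_of_lt_right one_pos, fun α l hl S U φ w0 hS hU hφ t ht x hx lam h1 h2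
    h3 => ?_⟩
  have h4 := hR3 (α, ⟨l, hl⟩) S U φ w0 hS hU hφ t ht x hx
  have h5 := hC2 (α, ⟨l, hl⟩) (fun α l => Dw l (Gm φ α) t x) _ lam h1 h2 h3
  refine (congrArg abs h4).le.trans (h5.trans ?_)
  exact mul_le_mul_of_nonneg_right ((hC0 _).trans (le_max_left _ _)) (by positivity)

/-- the family of all derivatives of order `k` -/
def bs_fam (k : ℕ) (φ : Fn) : Fin 4 × List.Vector (Fin 4) k → Fn := fun j => Dw j.2.1 (Gm φ j.1)

theorem bs_jet1 {k : ℕ} (φ : Fn) (α : Fin 4) (l : List (Fin 4)) (hl : l.length = k + 1) (t : ℝ)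
    (x : V) : |Dw l (Gm φ α) t x| ≤ √(ss (dv (bs_fam k φ)) t x) := by
  cases l with
  | nil => simp at hl
  | cons i l => exact bs_abs_le (dv (bs_fam k φ)) (i, α, ⟨l, Nat.succ.inj hl⟩) t x

theorem bs_jet2 {k : ℕ} (φ : Fn) (α : Fin 4) (l : List (Fin 4)) (hl : l.length = k + 2) (t : ℝ)
    (x : V) : |Dw l (Gm φ α) t x| ≤ √(ss (dv (dv (bs_fam k φ))) t x) := by
  match l, hl with
  | i :: j :: l, hl =>
    exact bs_abs_le (dv (dv (bs_fam k φ))) (i, j, α, ⟨l, Nat.succ.inj (Nat.succ.inj hl)⟩) t x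

theorem bs_arith {N P ε c s E : ℝ} (hN : 0 ≤ N) (hP : 0 < P) (hc : 0 ≤ c) (hs : 0 ≤ s)
    (hε : ε ≤ c / (2 * (N + 1) * P)) : 2 * (N * (P * (ε * s + E))) ≤ c * s + 2 * N * P * E := by
  have h1 : ε * (2 * (N + 1) * P) ≤ c := (le_div_iff₀ (by positivity)).1 hε
  have h2 : 2 * N * P * ε ≤ c := by
    rcases le_total ε 0 with h | h
    · exact (mul_nonpos_of_nonneg_of_nonpos (by positivity) h).trans hc
    · nlinarith [mul_nonneg hP.le h]
  nlinarith [mul_le_mul_of_nonneg_right h2 hs]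

theorem bs (hK : SKIT) (hN : SNICE) (hE : SELL) (hS : SSTEP) (hB : SEXB) (hU : SNUM)
    (hQ : ∀ l, EQ l) : SBS := by
  intro Λ δ k hΛ hδ hδ2 hk hBK r R σ K hrR hσ
  obtain ⟨c, C, hc, hC, hell⟩ := hE.2.2 Λ hΛ
  obtain ⟨M0, hM0⟩ := hBK ((r + R) / 2) R (σ / 2) K (by linarith) (by linarith)
  obtain ⟨M, hM1, hM2, hM3⟩ : ∃ M : ℝ, 1 ≤ M ∧ M0 ≤ M ∧ C ≤ M :=
    ⟨max M0 C, hC.trans (le_max_right _ _), le_max_left _ _, le_max_right _ _⟩
  have hMp : 0 < M := one_pos.trans_le hM1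
  obtain ⟨N, hNd⟩ : ∃ N : ℝ, N = Fintype.card (Fin 4 × List.Vector (Fin 4) k) := ⟨_, rfl⟩
  obtain ⟨N', hNd'⟩ : ∃ N : ℝ, N = Fintype.card (Fin 4 × Fin 4 × List.Vector (Fin 4) k) :=
    ⟨_, rfl⟩
  have hN0 : 0 ≤ N := hNd ▸ Nat.cast_nonneg _
  have hN0' : 0 ≤ N' := hNd' ▸ Nat.cast_nonneg _
  obtain ⟨κ, hκ⟩ : ∃ κ : ℝ, κ = N * (M * M) := ⟨_, rfl⟩
  have hκ0 : 0 ≤ κ := by rw [hκ]; positivity
  obtain ⟨A, hA⟩ : ∃ A : ℝ, A = 576 * C ^ 2 * κ / c ^ 2 + 1 := ⟨_, rfl⟩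
  have hA0 : 0 < A := by rw [hA]; positivity
  obtain ⟨η, hη⟩ : ∃ η : ℝ, η = c / (4 * (A + κ)) := ⟨_, rfl⟩
  have hη0 : 0 < η := by rw [hη]; positivity
  have hsm : (A + κ) * η + 144 * C ^ 2 * κ / (c * A) ≤ c / 2 := by
    have h1 : (A + κ) * η = c / 4 := by rw [hη]; field_simp
    have h2 : 144 * C ^ 2 * κ / (c * A) ≤ c / 4 := by
      rw [div_le_iff₀ (by positivity)]
      have h3 : c / 4 * (c * A) = 144 * C ^ 2 * κ + c ^ 2 / 4 := by rw [hA]; field_simp; ring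
      rw [h3]
      linarith [sq_nonneg c]
    linarith
  obtain ⟨P1, hP1, hu1⟩ := bs_unif hB hQ k M
  obtain ⟨P2, hP2, hu2⟩ := bs_unif hB hQ (k + 1) M
  obtain ⟨E1, hE1, hn1⟩ := hU.2.1 k (c / (2 * (N + 1) * (M * P1))) hk (by positivity)
  obtain ⟨ε, hε0, hε1, hε2⟩ : ∃ ε : ℝ, 0 < ε ∧ ε ≤ c / (2 * (N' + 1) * P2) ∧
      ε ≤ η / (2 * (N' + 1) * P2) :=
    ⟨min _ _, lt_min (by positivity) (by positivity), min_le_left _ _, min_le_right _ _⟩
  obtain ⟨E2, hE2, hn2⟩ := hU.2.2 k ε hk hε0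
  obtain ⟨C2, hC2⟩ := hS c C A κ η (2 * N * (M * P1) * E1 + 2 * N' * P2 * E2) ((R - r) / 2) (σ / 2)
    (N' * (K * K)) hc hA0 hκ0 hη0.le (by positivity) (by linarith) (by linarith) hsm
  refine ⟨max M √C2, fun g0 a b z φ w0 hg hab hφ hcl hd t ht l hl α x hx => ?_⟩
  have hab' : a + σ / 2 < b := by
    rcases hσ.eq_or_lt with h | h
    · rw [← h]; linarith
    · linarith [ht.1, ht.2]
  have hM := hM0 g0 a b z φ w0 hg hab hφ hcl
    (hd.imp (fun h => by linarith) fun h l hl => h l (by omega))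
  have hb1 : ball x ((R - r) / 2) ⊆ ball z ((r + R) / 2) := fun y hy => by
    rw [mem_ball] at hx hy ⊢
    linarith [dist_triangle y x z]
  have hb2 : ball x ((R - r) / 2) ⊆ ball z R := hb1.trans (ball_subset_ball (by linarith))
  have hI : Icc (a + σ / 2) b ⊆ Icc a b := Icc_subset_Icc_left (by linarith)
  have hx' : x ∈ ball x ((R - r) / 2) := mem_ball_self (by linarith)
  have hlow : ∀ s ∈ Icc (a + σ / 2) b, ∀ y ∈ ball x ((R - r) / 2), ∀ α (l : List (Fin 4)),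
      l.length ≤ k → |Dw l (Gm φ α) s y| ≤ M :=
    fun s hs y hy α l hl => (hM s hs l hl α y (hb1 hy)).trans hM2
  rcases (Nat.lt_or_eq_of_le hl) with hl' | hl'
  · exact (hlow t ⟨by linarith [ht.1], ht.2⟩ x hx' α l (by omega)).trans (le_max_left _ _)
  have hφ' := bs_mono hφ hI hb2
  have hni := hN.1 _ _ hab'
  have kit := hK _ _ hni (isOpen_ball (x := x) (ε := (R - r) / 2))
  have key := hC2 _ (a + σ / 2) b x (bb φ) (bs_fam k φ) hab'
    (fun j => kit.sm_Dw (kit.sm_Gm hφ'.sm j.1) j.2.1) (fun s hs y hy => ?_) ?_ t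
    ⟨by linarith [ht.1], ht.2⟩
  · exact ((bs_jet1 φ α l hl' t x).trans (Real.sqrt_le_sqrt key)).trans (le_max_right _ _)
  · obtain ⟨-, -, e3, e4, e5⟩ := hell g0 _ δ hg hδ hδ2 (hcl s (hI hs) y (hb2 hy))
    have e6 : |(hdet (lv (φ s) y))⁻¹| ≤ M := by
      rw [abs_of_pos (inv_pos.2 e3)]; exact e4.trans hM3
    have hv : ∀ j, |bs_fam k φ j s y| ≤ M := fun j => hlow s hs y hy j.1 j.2.1 j.2.2.le
    have hsh : ∀ lam : ℝ, 1 ≤ lam → ∀ α (l : List (Fin 4)), l.length ≤ k →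
        |Dw l (Gm φ α) s y| ≤ M * lam ^ l.length := fun lam h1 α l hl =>
      (hlow s hs y hy α l hl).trans (le_mul_of_one_le_right hMp.le (one_le_pow₀ h1))
    have hpw : ∀ (lam : ℝ) (n : ℕ), 1 ≤ lam → lam ^ n ≤ M * lam ^ n := fun lam n h1 =>
      le_mul_of_one_le_left (by positivity) hM1
    have s1 := bs_ss_nonneg (dv (bs_fam k φ)) s y
    have s2 := bs_ss_nonneg (dv (dv (bs_fam k φ))) s y
    refine ⟨e5, by rw [hκ, hNd]; exact bs_ss_le _ s y hv, ?_, ?_⟩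
    · obtain ⟨lam, l1, l2, l3⟩ := hn1 _ (Real.sqrt_nonneg (ss (dv (bs_fam k φ)) s y))
      rw [Real.sq_sqrt s1] at l3
      have h1 := bs_sum_le (fun j => bs_fam k φ j s y)
        (fun j => Box (Icc (a + σ / 2) b) (bb φ) (bs_fam k φ j) s y) hv fun j =>
          (hu1 j.1 j.2.1 j.2.2 _ _ φ w0 hni isOpen_ball hφ' s hs y hy lam l1 e6 fun α l hl => by
            rcases Nat.lt_or_eq_of_le hl with h | h
            · exact hsh lam l1 α l (by omega)
            · rw [h]; exact (bs_jet1 φ α l h s y).trans (l2.trans (hpw lam _ l1))).trans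
          (mul_le_mul_of_nonneg_left l3 hP1.le)
      rw [← hNd, ← mul_assoc M P1] at h1
      have h2 := bs_arith (E := E1) hN0 (mul_pos hMp hP1) hc.le s1 le_rfl
      have h3 : 0 ≤ 2 * N' * P2 * E2 := by positivity
      linarith
    · obtain ⟨lam, l1, l2, l3, l4⟩ := hn2 _ _ (Real.sqrt_nonneg (ss (dv (bs_fam k φ)) s y))
        (Real.sqrt_nonneg (ss (dv (dv (bs_fam k φ))) s y))
      have hq : √(ss (dv (bs_fam k φ)) s y) ^ 4 = ss (dv (bs_fam k φ)) s y ^ 2 :=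
        (pow_mul _ 2 2).trans (congrArg (· ^ 2) (Real.sq_sqrt s1))
      rw [Real.sq_sqrt s2, hq] at l4
      have h1 := bs_sum_le (fun j => dv (bs_fam k φ) j s y)
        (fun j => Box (Icc (a + σ / 2) b) (bb φ) (dv (bs_fam k φ) j) s y)
        (fun j => bs_abs_le (dv (bs_fam k φ)) j s y) fun j =>
          hu2 j.2.1 (j.1 :: j.2.2.1) (congrArg Nat.succ j.2.2.2) _ _ φ w0 hni isOpen_ball hφ' s hs
            y hy lam l1 e6 fun α l hl => by
            rcases Nat.lt_or_eq_of_le hl with h | h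
            · rcases Nat.lt_or_eq_of_le (Nat.le_of_lt_succ h) with h' | h'
              · exact hsh lam l1 α l (by omega)
              · rw [h']; exact (bs_jet1 φ α l h' s y).trans (l2.trans (hpw lam _ l1))
            · rw [h]; exact (bs_jet2 φ α l h s y).trans (l3.trans (hpw lam _ l1))
      rw [← hNd', mul_left_comm _ P2] at h1
      have h0 := mul_le_mul_of_nonneg_left (mul_le_mul_of_nonneg_left l4 hP2.le) hN0'
      have h2 := bs_arith (E := E2) hN0' hP2 hc.le s2 hε1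
      have h3 := bs_arith (E := 0) hN0' hP2 hη0.le (sq_nonneg (ss (dv (bs_fam k φ)) s y)) hε2
      have h4 : 0 ≤ 2 * N * (M * P1) * E1 := by positivity
      have h5 : k + 1 + 2 = k + 3 := rfl
      rw [h5] at h1
      linarith
  · rcases hσ.eq_or_lt with h | h
    · refine Or.inr fun y hy => ?_
      have h1 := hd.resolve_left (h ▸ lt_irrefl _)
      have h2 : a + σ / 2 = a := by rw [← h]; ring
      rw [h2, hNd']
      exact bs_ss_le _ a y fun j =>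
        h1 (j.1 :: j.2.2.1) (congrArg Nat.succ j.2.2.2).le j.2.1 y (hb2 hy)
    · exact Or.inl (by linarith)

end Pool.Agent.MP_67f0e4_gt.B
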