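import Pool.Agent.MP_67f0e4_gt.B.Spec

/-! Uniform convergence with bounded derivatives gives convergence of all derivatives. -/

open Set Metric Filter Topology
open scoped ContDiff

noncomputable section

namespace Pool.Agent.MP_67f0e4_gt.B

open K

theorem conv_landau {F H : Type} [NormedAddCommGroup F] [NormedSpace ℝ F] [NormedAddCommGroup H]
    [NormedSpace ℝ H] (h : F → H) (x : F) (s ε C : ℝ) (hs : 0 < s)
    (hd : ∀ y ∈ closedBall x s, DifferentiableAt ℝ h y) (h0 : ∀ y ∈ closedBall x s, ‖h y‖ ≤ ε)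
    (h1 : ∀ y ∈ closedBall x s, ‖fderiv ℝ h y - fderiv ℝ h x‖ ≤ C) :
    ‖fderiv ℝ h x‖ ≤ 2 * ε / s + C := by
  have hx : x ∈ closedBall x s := mem_closedBall_self hs.le
  have hε : 0 ≤ ε := (norm_nonneg _).trans (h0 x hx)
  have hC : 0 ≤ C := (norm_nonneg _).trans (h1 x hx)
  refine ContinuousLinearMap.opNorm_le_of_unit_norm (by positivity) fun v hv => ?_
  have hn : ‖s • v‖ = s := by rw [norm_smul, hv, mul_one, Real.norm_of_nonneg hs.le]
  have hy : x + s • v ∈ closedBall x s := by
    rw [mem_closedBall_iff_norm, add_sub_cancel_left, hn]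
  have h2 := (convex_closedBall x s).norm_image_sub_le_of_norm_fderiv_le' hd h1 hx hy
  rw [add_sub_cancel_left, hn, map_smul] at h2
  have h3 : ‖s • fderiv ℝ h x v‖ ≤ ε + ε + C * s := by
    have e : s • fderiv ℝ h x v =
        h (x + s • v) - h x - (h (x + s • v) - h x - s • fderiv ℝ h x v) := by abel
    rw [e]
    exact (norm_sub_le _ _).trans (add_le_add ((norm_sub_le _ _).trans
      (add_le_add (h0 _ hy) (h0 _ hx))) h2)
  rw [norm_smul, Real.norm_of_nonneg hs.le] at h3
  rw [div_add' _ _ _ hs.ne', le_div_iff₀ hs]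
  linarith

theorem conv_step {F G : Type} [NormedAddCommGroup F] [NormedSpace ℝ F] [NormedAddCommGroup G]
    [NormedSpace ℝ G] (d : F → G) (x : F) (s ε M : ℝ) (k : ℕ) (hs : 0 < s)
    (hd : ∀ y ∈ closedBall x s, ContDiffAt ℝ ∞ d y)
    (h0 : ∀ y ∈ closedBall x s, ‖iteratedFDeriv ℝ k d y‖ ≤ ε)
    (h2 : ∀ y ∈ closedBall x s, ‖iteratedFDeriv ℝ (k + 1 + 1) d y‖ ≤ M) :
    ‖iteratedFDeriv ℝ (k + 1) d x‖ ≤ 2 * ε / s + M * s := by
  have hx : x ∈ closedBall x s := mem_closedBall_self hs.le
  have hM : 0 ≤ M := (norm_nonneg _).trans (h2 x hx)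
  have hD : ∀ j : ℕ, ∀ y ∈ closedBall x s, DifferentiableAt ℝ (iteratedFDeriv ℝ j d) y :=
    fun j y hy => (hd y hy).differentiableAt_iteratedFDeriv (by exact_mod_cast ENat.natCast_lt_top j)
  rw [← norm_fderiv_iteratedFDeriv]
  refine conv_landau _ x s ε _ hs (hD k) h0 fun y hy => ?_
  rw [fderiv_iteratedFDeriv, Function.comp_apply, Function.comp_apply,
    ← LinearIsometryEquiv.map_sub, LinearIsometryEquiv.norm_map]
  refine ((convex_closedBall x s).norm_image_sub_le_of_norm_fderiv_le (hD (k + 1))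
    (fun z hz => by rw [norm_fderiv_iteratedFDeriv]; exact h2 z hz) hx hy).trans ?_
  exact mul_le_mul_of_nonneg_left (mem_closedBall_iff_norm.1 hy) hM

theorem conv : SCONV := by
  intro F G ι _ _ _ _ l W K f g hW hK hKW hf hg hM hu k
  obtain ⟨r, hr, hrW⟩ := hK.exists_thickening_subset_open hW hKW
  have hsub : ∀ᶠ i in l, ∀ y ∈ W, ContDiffAt ℝ ∞ (f i - g) y ∧ ∀ j : ℕ,
      iteratedFDeriv ℝ j (f i - g) y = iteratedFDeriv ℝ j (f i) y - iteratedFDeriv ℝ j g y := by
    filter_upwards [hf] with i hi y hy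
    have a1 := hi.contDiffAt (hW.mem_nhds hy)
    have a2 := hg.contDiffAt (hW.mem_nhds hy)
    exact ⟨a1.sub a2, fun j => iteratedFDeriv_sub_apply (a1.of_le (by exact_mod_cast le_top))
      (a2.of_le (by exact_mod_cast le_top))⟩
  have key : ∀ j : ℕ, ∀ r1, 0 < r1 → r1 < r → ∀ ε, 0 < ε → ∀ᶠ i in l, ∀ y ∈ thickening r1 K,
      ‖iteratedFDeriv ℝ j (f i - g) y‖ ≤ ε := by
    intro j
    induction j with
    | zero =>
      intro r1 _ h1 ε hε
      filter_upwards [Metric.tendstoUniformlyOn_iff.1 hu ε hε] with i hi y hy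
      rw [norm_iteratedFDeriv_zero, Pi.sub_apply, ← dist_eq_norm, dist_comm]
      exact (hi y (hrW (thickening_mono h1.le K hy))).le
    | succ j ih =>
      intro r1 h0 h1 ε hε
      obtain ⟨M, hM1, hM2⟩ := hM (j + 1 + 1)
      obtain ⟨s, hs, hs1, hs2⟩ : ∃ s : ℝ, 0 < s ∧ s < (r - r1) / 2 ∧ (|M| + |M|) * s ≤ ε / 2 := by
        refine ⟨min ((r - r1) / 4) (ε / (4 * (|M| + 1))), lt_min (by linarith) (by positivity),
          (min_le_left _ _).trans_lt (by linarith), ?_⟩
        refine (mul_le_mul_of_nonneg_left (min_le_right _ _) (by positivity)).trans ?_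
        rw [← mul_div_assoc, div_le_div_iff₀ (by positivity) (by positivity)]
        nlinarith [abs_nonneg M]
      filter_upwards [ih ((r - r1) / 2 + r1) (by linarith) (by linarith) (ε * s / 4)
        (by positivity), hsub, hM1] with i a1 a2 a3 y hy
      have b1 : closedBall y s ⊆ thickening ((r - r1) / 2 + r1) K :=
        (closedBall_subset_ball hs1).trans
          ((ball_subset_thickening hy _).trans (thickening_thickening_subset _ _ _))
      have b2 : closedBall y s ⊆ W := b1.trans ((thickening_mono (by linarith) K).trans hrW)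
      have := conv_step (f i - g) y s (ε * s / 4) (|M| + |M|) j hs (fun z hz => (a2 z (b2 hz)).1)
        (fun z hz => a1 z (b1 hz)) fun z hz => by
          rw [(a2 z (b2 hz)).2]
          exact (norm_sub_le _ _).trans (add_le_add ((a3 z (b2 hz)).trans (le_abs_self M))
            ((hM2 z (b2 hz)).trans (le_abs_self M)))
      have e : 2 * (ε * s / 4) / s = ε / 2 := by field_simp; ring
      linarith
  refine Metric.tendstoUniformlyOn_iff.2 fun ε hε => ?_
  filter_upwards [key k (r / 2) (by linarith) (by linarith) (ε / 2) (by linarith), hsub]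
    with i a1 a2 y hy
  have := a1 y (self_subset_thickening (by linarith) K hy)
  rw [(a2 y (hKW hy)).2] at this
  rw [dist_comm, dist_eq_norm]
  linarith

end Pool.Agent.MP_67f0e4_gt.B
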