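import Pool.Agent.MP_67f0e4_gt.B.Spec

/-! The polynomial cut-off. -/

open Set Metric Filter Topology
open scoped ContDiff

noncomputable section

namespace Pool.Agent.MP_67f0e4_gt.B

open K

/-- the Euclidean inner product -/
def scut_ip (u v : V) : ℝ := u.1.re * v.1.re + u.1.im * v.1.im + u.2.re * v.2.re + u.2.im * v.2.im

/-- the inner product with `w` as a linear map -/
def scut_L (w : V) : V →L[ℝ] ℝ :=
  w.1.re • Complex.reCLM.comp (ContinuousLinearMap.fst ℝ ℂ ℂ) +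
    w.1.im • Complex.imCLM.comp (ContinuousLinearMap.fst ℝ ℂ ℂ) +
    w.2.re • Complex.reCLM.comp (ContinuousLinearMap.snd ℝ ℂ ℂ) +
    w.2.im • Complex.imCLM.comp (ContinuousLinearMap.snd ℝ ℂ ℂ)

theorem scut_L_apply (w v : V) : scut_L w v = scut_ip v w := by
  simp [scut_L, scut_ip]
  ring

theorem scut_q (z x : V) : ‖x.1 - z.1‖ ^ 2 + ‖x.2 - z.2‖ ^ 2 = scut_ip (x - z) (x - z) := by
  simp only [Complex.sq_norm, Complex.normSq_apply, scut_ip, Prod.fst_sub, Prod.snd_sub]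
  ring

theorem scut_d1 (z w x : V) : HasFDerivAt (fun y => scut_ip (y - z) w) (scut_L w) x := by
  have : (fun y => scut_ip (y - z) w) = fun y => scut_L w y - scut_L w z := by
    funext y
    rw [← map_sub, scut_L_apply]
  rw [this]
  exact (scut_L w).hasFDerivAt.sub_const _

theorem scut_sq (u : V) : scut_ip u u = ∑ i, scut_ip u (e i) * scut_ip u (e i) := by
  simp [scut_ip, e, Fin.sum_univ_four]

theorem scut_d2 (z x : V) :
    HasFDerivAt (fun y => scut_ip (y - z) (y - z)) ((2 : ℝ) • scut_L (x - z)) x := by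
  have h := HasFDerivAt.fun_sum (u := Finset.univ) fun i _ =>
    (scut_d1 z (e i) x).fun_mul (scut_d1 z (e i) x)
  simp only [← scut_sq] at h
  refine h.congr_fderiv (ContinuousLinearMap.ext fun v => ?_)
  simp [scut_L_apply, scut_ip, e, Fin.sum_univ_four]
  ring

theorem scut_eq (z : V) (ρ : ℝ) :
    cut z ρ = fun x => (ρ ^ 2 - scut_ip (x - z) (x - z)) * (ρ ^ 2 - scut_ip (x - z) (x - z)) := by
  funext x
  rw [cut, scut_q, sq]

theorem scut_D (z : V) (ρ : ℝ) (w : V) : D w (cut z ρ) =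
    fun x => -4 * ((ρ ^ 2 - scut_ip (x - z) (x - z)) * scut_ip (x - z) w) := by
  funext x
  have h := ((scut_d2 z x).const_sub (ρ ^ 2)).fun_mul ((scut_d2 z x).const_sub (ρ ^ 2))
  rw [D, scut_eq, h.fderiv]
  simp [scut_L_apply, scut_ip]
  ring

theorem scut_DD (z : V) (ρ : ℝ) (v w x : V) : D v (D w (cut z ρ)) x =
    8 * (scut_ip (x - z) v * scut_ip (x - z) w) -
      4 * ((ρ ^ 2 - scut_ip (x - z) (x - z)) * scut_ip v w) := by
  have h := (((scut_d2 z x).const_sub (ρ ^ 2)).fun_mul (scut_d1 z w x)).const_mul (-4)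
  rw [scut_D, D, h.fderiv]
  simp [scut_L_apply, scut_ip]
  ring

theorem scut_cs (u v : V) : scut_ip u v ^ 2 ≤ scut_ip u u * scut_ip v v := by
  unfold scut_ip
  nlinarith [sq_nonneg (u.1.re * v.1.im - u.1.im * v.1.re),
    sq_nonneg (u.1.re * v.2.re - u.2.re * v.1.re), sq_nonneg (u.1.re * v.2.im - u.2.im * v.1.re),
    sq_nonneg (u.1.im * v.2.re - u.2.re * v.1.im), sq_nonneg (u.1.im * v.2.im - u.2.im * v.1.im),
    sq_nonneg (u.2.re * v.2.im - u.2.im * v.2.re)]

theorem scut_bd (z : V) (ρ : ℝ) (v w x : V) (hv : scut_ip v v = 1) (hw : scut_ip w w = 1)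
    (hx : scut_ip (x - z) (x - z) ≤ ρ ^ 2) : |D v (D w (cut z ρ)) x| ≤ 12 * ρ ^ 2 := by
  have h1 := scut_cs (x - z) v
  have h2 := scut_cs (x - z) w
  have h3 := scut_cs v w
  rw [hv, mul_one] at h1
  rw [hw, mul_one] at h2
  rw [hv, hw, mul_one] at h3
  have h4 := abs_le.1 ((sq_le_one_iff_abs_le_one _).1 h3)
  have h5 : 0 ≤ scut_ip (x - z) (x - z) := (sq_nonneg _).trans h1
  rw [scut_DD, abs_le]
  generalize scut_ip (x - z) v = a at *
  generalize scut_ip (x - z) w = b at *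
  generalize scut_ip (x - z) (x - z) = q at *
  generalize scut_ip v w = c at *
  have h6 : 0 ≤ (ρ ^ 2 - q) * (1 - c) := mul_nonneg (by linarith) (by linarith)
  have h7 : 0 ≤ (ρ ^ 2 - q) * (1 + c) := mul_nonneg (by linarith) (by linarith)
  constructor <;> nlinarith [sq_nonneg (a + b), sq_nonneg (a - b)]

theorem scut_lev (z : V) (ρ : ℝ) (i j : Fin 4) (x : V)
    (hx : scut_ip (x - z) (x - z) ≤ ρ ^ 2) : |lev (cut z ρ) x (e i) (e j)| ≤ 24 * ρ ^ 2 := by
  have h1 : ∀ i, scut_ip (e i) (e i) = 1 := fun i => by fin_cases i <;> simp [scut_ip, e]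
  have h2 : ∀ i, scut_ip (Complex.I • e i) (Complex.I • e i) = 1 := fun i => by
    fin_cases i <;> simp [scut_ip, e]
  refine (abs_add_le _ _).trans ?_
  linarith [scut_bd z ρ _ _ x (h1 i) (h1 j) hx, scut_bd z ρ _ _ x (h2 i) (h2 j) hx]

theorem scut_sm (z : V) : ContDiff ℝ ∞ fun x => scut_ip (x - z) (x - z) := by
  have h : ∀ w, ContDiff ℝ ∞ fun y => scut_ip (y - z) w := fun w => by
    simp only [← scut_L_apply]
    exact (scut_L w).contDiff.comp (contDiff_id.sub contDiff_const)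
  have := ContDiff.sum (s := Finset.univ) fun i _ => (h (e i)).mul (h (e i))
  simpa only [← scut_sq] using this

theorem scut : SCUT := by
  intro ρ hρ
  refine ⟨ρ ^ 4 + 24 * ρ ^ 2, by positivity, fun z => ?_⟩
  have hE : EB z ρ = {x | scut_ip (x - z) (x - z) ≤ ρ ^ 2} := by simp only [EB, scut_q]
  have hB : EB z ρ ⊆ closedBall z ρ := fun x hx => by
    have hx' : ‖x.1 - z.1‖ ^ 2 + ‖x.2 - z.2‖ ^ 2 ≤ ρ ^ 2 := hx
    rw [mem_closedBall, Prod.dist_eq, dist_eq_norm, dist_eq_norm, max_le_iff]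
    exact ⟨(pow_le_pow_iff_left₀ (norm_nonneg _) hρ.le two_ne_zero).1
        (by linarith [sq_nonneg ‖x.2 - z.2‖]),
      (pow_le_pow_iff_left₀ (norm_nonneg _) hρ.le two_ne_zero).1
        (by linarith [sq_nonneg ‖x.1 - z.1‖])⟩
  refine ⟨?_, (isCompact_closedBall z ρ).of_isClosed_subset ?_ hB, hB, ?_, ?_, fun x hx => ?_⟩
  · rw [scut_eq]
    exact (contDiff_const.sub (scut_sm z)).mul (contDiff_const.sub (scut_sm z))
  · rw [hE]
    exact isClosed_le (scut_sm z).continuous continuous_const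
  · simp [EB, hρ.le]
  · simp [cut]
    ring
  · have h0 : 0 ≤ scut_ip (x - z) (x - z) := by rw [← scut_q]; positivity
    have h1 : scut_ip (x - z) (x - z) ≤ ρ ^ 2 := by rwa [hE] at hx
    have hc : cut z ρ x = (ρ ^ 2 - scut_ip (x - z) (x - z)) ^ 2 := by rw [cut, scut_q]
    have h2 : 0 < ρ ^ 2 := by positivity
    have h4 : 0 < ρ ^ 4 := by positivity
    refine ⟨fun h => ?_, hc ▸ sq_nonneg _, ?_, ?_, fun α => ?_⟩
    · rw [hE]
      refine mem_of_superset ((isOpen_lt (scut_sm z).continuous continuous_const).mem_nhds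
        (lt_of_le_of_ne h1 fun k => h ?_)) fun y hy => Set.mem_ofPred_eq ▸ le_of_lt hy
      rw [hc, k, sub_self, sq, mul_zero]
    · rw [hc]
      nlinarith
    · have e1 : n2 (fun i => D (e i) (cut z ρ) x) =
          16 * scut_ip (x - z) (x - z) * cut z ρ x := by
        rw [hc, scut_sq (x - z), Finset.mul_sum, Finset.sum_mul, ← scut_sq]
        refine Finset.sum_congr rfl fun i _ => ?_
        simp only [scut_D]
        ring
      rw [e1]
      exact mul_le_mul_of_nonneg_right (by linarith) (hc ▸ sq_nonneg _)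
    · have : |lv (cut z ρ) x α| ≤ 24 * ρ ^ 2 := by
        fin_cases α
        exacts [scut_lev z ρ 0 0 x h1, scut_lev z ρ 2 2 x h1, scut_lev z ρ 0 2 x h1,
          scut_lev z ρ 0 3 x h1]
      linarith

end Pool.Agent.MP_67f0e4_gt.B
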