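import Pool.Agent.MP_67f0e4_gt.B.Spec

/-! Row ELL: algebra of Hermitian forms. -/

noncomputable section

namespace Pool.Agent.MP_67f0e4_gt.B

open K

theorem ell_cs (x0 x1 x2 x3 y0 y1 y2 y3 : ℝ) :
    (x0 * y0 + x1 * y1 + x2 * y2 + x3 * y3) ^ 2 ≤
      (x0 ^ 2 + x1 ^ 2 + x2 ^ 2 + x3 ^ 2) * (y0 ^ 2 + y1 ^ 2 + y2 ^ 2 + y3 ^ 2) := by
  nlinarith [sq_nonneg (x0 * y1 - x1 * y0), sq_nonneg (x0 * y2 - x2 * y0),
    sq_nonneg (x0 * y3 - x3 * y0), sq_nonneg (x1 * y2 - x2 * y1), sq_nonneg (x1 * y3 - x3 * y1),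
    sq_nonneg (x2 * y3 - x3 * y2)]

theorem ell_n2 (ξ : Fin 4 → ℝ) : n2 ξ = ξ 0 ^ 2 + ξ 1 ^ 2 + ξ 2 ^ 2 + ξ 3 ^ 2 := by
  simp [n2, Fin.sum_univ_four]

theorem ell_gam (C : ℝ) (b : Hm) (ξ ζ : Fin 4 → ℝ) (h : ∀ α, |b α| ≤ C) :
    gam b ξ ζ ^ 2 ≤ 9 * C ^ 2 * (n2 ξ * n2 ζ) := by
  have hb : ∀ α, b α ^ 2 ≤ C ^ 2 := fun α => sq_le_sq' (abs_le.1 (h α)).1 (abs_le.1 (h α)).2
  have hX : 0 ≤ n2 ξ := by rw [ell_n2]; positivity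
  have key : ∀ y0 y1 y2 y3 : ℝ, y0 ^ 2 + y1 ^ 2 + y2 ^ 2 + y3 ^ 2 ≤ C ^ 2 * n2 ζ →
      (ξ 0 * y0 + ξ 1 * y1 + ξ 2 * y2 + ξ 3 * y3) ^ 2 ≤ C ^ 2 * (n2 ξ * n2 ζ) := by
    intro y0 y1 y2 y3 hy
    refine (ell_cs _ _ _ _ _ _ _ _).trans ?_
    rw [← ell_n2]
    calc n2 ξ * (y0 ^ 2 + y1 ^ 2 + y2 ^ 2 + y3 ^ 2) ≤ n2 ξ * (C ^ 2 * n2 ζ) :=
          mul_le_mul_of_nonneg_left hy hX
      _ = _ := by ring
  have hm : ∀ α i, (b α * ζ i) ^ 2 ≤ C ^ 2 * ζ i ^ 2 := fun α i => by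
    rw [mul_pow]
    exact mul_le_mul_of_nonneg_right (hb α) (sq_nonneg _)
  have h1 := key (b 1 * ζ 0) (b 1 * ζ 1) (b 0 * ζ 2) (b 0 * ζ 3) (by
    rw [ell_n2]
    linarith [hm 1 0, hm 1 1, hm 0 2, hm 0 3])
  have h2 := key (b 2 * ζ 2) (b 2 * ζ 3) (b 2 * ζ 0) (b 2 * ζ 1) (by
    rw [ell_n2]
    linarith [hm 2 0, hm 2 1, hm 2 2, hm 2 3])
  have h3 := key (b 3 * ζ 3) (-(b 3 * ζ 2)) (-(b 3 * ζ 1)) (b 3 * ζ 0) (by
    rw [ell_n2, neg_sq, neg_sq]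
    linarith [hm 3 0, hm 3 1, hm 3 2, hm 3 3])
  set T1 := ξ 0 * (b 1 * ζ 0) + ξ 1 * (b 1 * ζ 1) + ξ 2 * (b 0 * ζ 2) + ξ 3 * (b 0 * ζ 3) with e1
  set T2 := ξ 0 * (b 2 * ζ 2) + ξ 1 * (b 2 * ζ 3) + ξ 2 * (b 2 * ζ 0) + ξ 3 * (b 2 * ζ 1) with e2
  set T3 := ξ 0 * (b 3 * ζ 3) + ξ 1 * -(b 3 * ζ 2) + ξ 2 * -(b 3 * ζ 1) + ξ 3 * (b 3 * ζ 0)
    with e3
  have hg : gam b ξ ζ = T1 - T2 - T3 := by
    rw [e1, e2, e3, gam]
    ring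
  rw [hg]
  nlinarith [sq_nonneg (T1 + T2), sq_nonneg (T1 + T3), sq_nonneg (T2 - T3)]

theorem ell_q0 (g : Hm) : qf g (1, 0) = g 0 := by simp [qf, bf]

theorem ell_q1 (g : Hm) : qf g (0, 1) = g 1 := by simp [qf, bf]

theorem ell_q2 (g : Hm) : qf g (1, 1) = g 0 + g 1 + 2 * g 2 := by
  simp [qf, bf]
  ring

theorem ell_q3 (g : Hm) : qf g (1, Complex.I) = g 0 + g 1 + 2 * g 3 := by
  simp [qf, bf]
  ring

theorem ell_q4 (g : Hm) : qf g (⟨-g 2, g 3⟩, ⟨g 0, 0⟩) = g 0 * hdet g := by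
  simp [qf, bf, hdet]
  ring

theorem ell_q5 (g : Hm) (ξ : Fin 4 → ℝ) :
    gam g ξ ξ = qf g (⟨ξ 2, -ξ 3⟩, ⟨-ξ 0, ξ 1⟩) := by
  simp [qf, bf, gam]
  ring

theorem ell_pos (g : Hm) (h : Pos g) : 0 < hdet g := by
  have h0 : 0 < g 0 := by
    rw [← ell_q0 g]
    exact h _ (by simp)
  have h1 := h (⟨-g 2, g 3⟩, ⟨g 0, 0⟩) (by
    intro e
    have : g 0 = 0 := congrArg (fun v : V => v.2.re) e
    exact h0.ne' this)
  rw [ell_q4] at h1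
  exact (mul_pos_iff_of_pos_left h0).1 h1

/-- the entries are bounded by the values on unit vectors -/
theorem ell_ent (g : Hm) (K : ℝ) (h : ∀ v : V, ‖v‖ = 1 → |qf g v| ≤ K) (α : Fin 4) :
    |g α| ≤ 2 * K := by
  have h0 := h (1, 0) (by simp)
  have h1 := h (0, 1) (by simp)
  have h2 := h (1, 1) (by simp)
  have h3 := h (1, Complex.I) (by simp)
  rw [ell_q0] at h0
  rw [ell_q1] at h1
  rw [ell_q2] at h2
  rw [ell_q3] at h3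
  have hK : 0 ≤ K := (abs_nonneg _).trans h0
  rw [abs_le] at h0 h1 h2 h3 ⊢
  have : α = 0 ∨ α = 1 ∨ α = 2 ∨ α = 3 := by
    fin_cases α <;> simp
  rcases this with rfl | rfl | rfl | rfl <;> constructor <;> linarith [h0.1, h0.2, h1.1, h1.2,
    h2.1, h2.2, h3.1, h3.2]

theorem ell_sub (g g0 : Hm) (v : V) : qf (g - g0) v = qf g v - qf g0 v := by
  simp only [qf, bf, Pi.sub_apply]
  ring

theorem ell_norm (ξ : Fin 4 → ℝ) :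
    n2 ξ ≤ 2 * ‖((⟨ξ 2, -ξ 3⟩, ⟨-ξ 0, ξ 1⟩) : V)‖ ^ 2 := by
  set v : V := (⟨ξ 2, -ξ 3⟩, ⟨-ξ 0, ξ 1⟩) with hv
  have h1 : ‖v.1‖ ^ 2 ≤ ‖v‖ ^ 2 := pow_le_pow_left₀ (norm_nonneg _) (norm_fst_le v) 2
  have h2 : ‖v.2‖ ^ 2 ≤ ‖v‖ ^ 2 := pow_le_pow_left₀ (norm_nonneg _) (norm_snd_le v) 2
  rw [Complex.sq_norm, Complex.normSq_apply] at h1 h2
  rw [ell_n2]
  simp only [hv] at h1 h2 ⊢
  nlinarith

theorem ell_smul (q : ℝ) (g : Hm) (ξ ζ : Fin 4 → ℝ) : gam (q • g) ξ ζ = q * gam g ξ ζ := by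
  simp only [gam, Pi.smul_apply, smul_eq_mul]
  ring

theorem ell : SELL := by
  refine ⟨ell_gam, ell_pos, fun Λ hΛ => ?_⟩
  have p1 : 0 < Λ ^ 2 := by positivity
  have p2 : 0 < Λ ^ 3 := by positivity
  refine ⟨1 / (9 * Λ ^ 3), 1 + 3 * Λ + 4 * Λ ^ 2 + 12 * Λ ^ 3, by positivity, by linarith, ?_⟩
  intro g0 g δ hE hδ hδ' hC
  have hq0 : ∀ v, 0 ≤ qf g0 v := fun v =>
    nonneg_of_mul_nonneg_right ((sq_nonneg _).trans (hE.2 v).1) hΛ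
  have hlow : ∀ v, ‖v‖ ^ 2 ≤ 2 * Λ * qf g v := fun v => by
    have h1 := (abs_le.1 (hC v)).1
    have h2 : δ * qf g0 v ≤ 1 / 2 * qf g0 v := mul_le_mul_of_nonneg_right hδ' (hq0 v)
    have h3 : qf g0 v ≤ 2 * qf g v := by linarith
    calc ‖v‖ ^ 2 ≤ Λ * qf g0 v := (hE.2 v).1
      _ ≤ Λ * (2 * qf g v) := mul_le_mul_of_nonneg_left h3 hΛ.le
      _ = _ := by ring
  have hup : ∀ v : V, ‖v‖ = 1 → |qf g v| ≤ 3 / 2 * Λ := fun v hv => by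
    have h1 := abs_le.1 (hC v)
    have h2 : δ * qf g0 v ≤ 1 / 2 * qf g0 v := mul_le_mul_of_nonneg_right hδ' (hq0 v)
    have h3 := (hE.2 v).2
    rw [hv] at h3
    have h4 := hq0 v
    rw [abs_le]
    constructor <;> linarith [h1.1, h1.2]
  have hdiff : ∀ v : V, ‖v‖ = 1 → |qf (g - g0) v| ≤ Λ * δ := fun v hv => by
    rw [ell_sub]
    have h3 := (hE.2 v).2
    rw [hv] at h3
    calc _ ≤ δ * qf g0 v := hC v
      _ ≤ δ * Λ := mul_le_mul_of_nonneg_left (by linarith) hδ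
      _ = _ := mul_comm _ _
  have hent : ∀ α, |g α| ≤ 3 * Λ := fun α => (ell_ent g _ hup α).trans_eq (by ring)
  have h0 : 1 ≤ 2 * Λ * g 0 := by
    have := hlow (1, 0)
    rw [ell_q0] at this
    simpa using this
  have h0' : 0 < g 0 := by
    by_contra hn
    have : 2 * Λ * g 0 ≤ 0 := mul_nonpos_of_nonneg_of_nonpos (by positivity) (not_lt.1 hn)
    linarith
  have hd1 : g 0 ≤ 2 * Λ * hdet g := by
    have h1 := hlow (⟨-g 2, g 3⟩, ⟨g 0, 0⟩)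
    rw [ell_q4] at h1
    have h2 : g 0 ≤ ‖((⟨-g 2, g 3⟩, ⟨g 0, 0⟩) : V)‖ :=
      le_trans (Complex.re_le_norm ⟨g 0, 0⟩) (norm_snd_le ((⟨-g 2, g 3⟩, ⟨g 0, 0⟩) : V))
    have h3 := pow_le_pow_left₀ h0'.le h2 2
    have h4 : g 0 * g 0 ≤ g 0 * (2 * Λ * hdet g) := by nlinarith
    exact le_of_mul_le_mul_left h4 h0'
  have hd2 : 1 ≤ 4 * Λ ^ 2 * hdet g := by nlinarith
  have hd : 0 < hdet g := by
    by_contra hn
    have : 4 * Λ ^ 2 * hdet g ≤ 0 := mul_nonpos_of_nonneg_of_nonpos (by positivity) (not_lt.1 hn)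
    linarith
  have hinv : (hdet g)⁻¹ ≤ 4 * Λ ^ 2 := by
    rw [inv_le_iff_one_le_mul₀ hd]
    exact hd2
  have hinv0 : 0 < (hdet g)⁻¹ := inv_pos.2 hd
  have hd3 : hdet g ≤ 9 / 4 * Λ ^ 2 := by
    have a0 := hup (1, 0) (by simp)
    have a1 := hup (0, 1) (by simp)
    rw [ell_q0] at a0
    rw [ell_q1] at a1
    have a2 : g 0 * g 1 ≤ 3 / 2 * Λ * (3 / 2 * Λ) :=
      (le_abs_self _).trans (by
        rw [abs_mul]
        exact mul_le_mul a0 a1 (abs_nonneg _) (by positivity))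
    unfold hdet
    nlinarith [sq_nonneg (g 2), sq_nonneg (g 3)]
  refine ⟨fun α => ?_, fun α => (hent α).trans (by linarith), hd, by linarith, fun ξ => ?_,
    fun α => ?_⟩
  · have := ell_ent _ _ hdiff α
    rw [Pi.sub_apply] at this
    refine this.trans ?_
    rw [← mul_assoc]
    exact mul_le_mul_of_nonneg_right (by linarith) hδ
  · rw [ell_smul]
    have h1 := (ell_norm ξ).trans (mul_le_mul_of_nonneg_left (hlow _) zero_le_two)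
    rw [← ell_q5] at h1
    have hX : 0 ≤ n2 ξ := by rw [ell_n2]; positivity
    have hg : 0 ≤ gam g ξ ξ := by
      by_contra hn
      have : 2 * (2 * Λ * gam g ξ ξ) < 0 := by nlinarith [not_le.1 hn]
      linarith
    have h2 : (9 / 4 * Λ ^ 2)⁻¹ ≤ (hdet g)⁻¹ := inv_anti₀ hd hd3
    calc 1 / (9 * Λ ^ 3) * n2 ξ ≤ 1 / (9 * Λ ^ 3) * (2 * (2 * Λ * gam g ξ ξ)) :=
          mul_le_mul_of_nonneg_left h1 (by positivity)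
      _ = (9 / 4 * Λ ^ 2)⁻¹ * gam g ξ ξ := by
          field_simp
          ring
      _ ≤ _ := mul_le_mul_of_nonneg_right h2 hg
  · rw [Pi.smul_apply, smul_eq_mul, abs_mul, abs_of_pos hinv0]
    calc (hdet g)⁻¹ * |g α| ≤ 4 * Λ ^ 2 * (3 * Λ) :=
          mul_le_mul hinv (hent α) (abs_nonneg _) (by positivity)
      _ ≤ _ := by nlinarith

end Pool.Agent.MP_67f0e4_gt.B
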