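import Pool.Agent.MP_67f0e4_gt.B.Spec

/-! Block B, row EQ0: the evolution equation of the metric. -/

open Set Metric Filter Topology
open scoped ContDiff

noncomputable section

namespace Pool.Agent.MP_67f0e4_gt.B

open K

def eq0_a : Fin 4 → Fin 4 := ![0, 2, 0, 0]
def eq0_b : Fin 4 → Fin 4 := ![0, 2, 2, 3]
def eq0_c : Fin 4 → Fin 4 := ![1, 3, 1, 1]
def eq0_d : Fin 4 → Fin 4 := ![1, 3, 3, 2]
def eq0_s : Fin 4 → ℝ := ![1, 1, 1, -1]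

/-- the determinant -/
def eq0_q : Ex :=
  .add (.mul (.jet 0 []) (.jet 1 []))
    (.mul (.cst (-1)) (.add (.mul (.jet 2 []) (.jet 2 [])) (.mul (.jet 3 []) (.jet 3 []))))

/-- the quadratic part of the second derivative of the logarithm of the determinant -/
def eq0_Q (i j : Fin 4) : Ex :=
  .add (.mul (Ex.der i .qi) (Ex.dq j))
    (.mul .qi (.add (.add (.mul (.jet 0 [j]) (.jet 1 [i])) (.mul (.jet 0 [i]) (.jet 1 [j])))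
      (.mul (.cst (-2)) (.add (.mul (.jet 2 [i]) (.jet 2 [j])) (.mul (.jet 3 [i]) (.jet 3 [j]))))))

def eq0_R (α : Fin 4) : Ex :=
  .add (eq0_Q (eq0_a α) (eq0_b α)) (.mul (.cst (eq0_s α)) (eq0_Q (eq0_c α) (eq0_d α)))

theorem eq0_R_wt (α : Fin 4) : (eq0_R α).wt ≤ 2 := by
  simp [eq0_R, eq0_Q, Ex.wt, Ex.der, Ex.dq]

theorem eq0_R_ord (α : Fin 4) : (eq0_R α).ord ≤ 1 := by
  simp [eq0_R, eq0_Q, Ex.ord, Ex.der, Ex.dq]

theorem eq0_ev (J : Fin 4 → List (Fin 4) → ℝ) (ι : ℝ) (i j : Fin 4) :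
    (Ex.der i (.mul .qi (Ex.dq j))).ev J ι = (eq0_Q i j).ev J ι +
      ι * (J 0 [] * J 1 [i, j] + J 1 [] * J 0 [i, j] - 2 * J 2 [] * J 2 [i, j] -
        2 * J 3 [] * J 3 [i, j]) := by
  simp only [eq0_Q, Ex.ev, Ex.der, Ex.dq]
  ring

theorem eq0_ev_q (J : Fin 4 → List (Fin 4) → ℝ) (ι : ℝ) (j : Fin 4) :
    (Ex.der j eq0_q).ev J ι = (Ex.dq j).ev J ι := by
  simp only [eq0_q, Ex.ev, Ex.der, Ex.dq]
  ring

variable {S : Set ℝ} {U : Set V}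

theorem eq0_Gm (k : Kit S U) (f : Fn) (α : Fin 4) (t : ℝ) (x : V) :
    Gm f α t x = Dx (eq0_a α) (Dx (eq0_b α) f) t x +
      eq0_s α * Dx (eq0_c α) (Dx (eq0_d α) f) t x := by
  obtain ⟨h0, h1, h2, h3⟩ := k.Gm_eq f t x
  fin_cases α
  · simpa [eq0_a, eq0_b, eq0_c, eq0_d, eq0_s] using h0
  · simpa [eq0_a, eq0_b, eq0_c, eq0_d, eq0_s] using h1
  · simpa [eq0_a, eq0_b, eq0_c, eq0_d, eq0_s] using h2
  · simpa [eq0_a, eq0_b, eq0_c, eq0_d, eq0_s, sub_eq_add_neg] using h3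

theorem eq0_sm_cst (k : Kit S U) (c : ℝ) : Sm S U (fun _ _ => c) :=
  k.sm_space (g := fun _ => c) contDiffOn_const

theorem eq0_sm_lin (k : Kit S U) {f g : Fn} (hf : Sm S U f) (hg : Sm S U g) (c : ℝ) :
    Sm S U (fun t x => f t x + c * g t x) :=
  k.sm_add hf (k.sm_mul (eq0_sm_cst k c) hg)

theorem eq0_Dx_lin (k : Kit S U) {f g : Fn} (hf : Sm S U f) (hg : Sm S U g) (c : ℝ) (i : Fin 4) :
    ∀ t ∈ S, ∀ x ∈ U, Dx i (fun t x => f t x + c * g t x) t x = Dx i f t x + c * Dx i g t x := by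
  intro t ht x hx
  have h1 := k.Dx_add hf (k.sm_mul (eq0_sm_cst k c) hg) i t ht x hx
  have h2 := k.Dx_mul (eq0_sm_cst k c) hg i t ht x hx
  have h3 := k.Dx_const c i t x
  rw [h1, h2, h3]
  ring

theorem eq0_Dt_lin (k : Kit S U) {f g : Fn} (hf : Sm S U f) (hg : Sm S U g) (c : ℝ) :
    ∀ t ∈ S, ∀ x ∈ U, Dt S (fun t x => f t x + c * g t x) t x = Dt S f t x + c * Dt S g t x := by
  intro t ht x hx
  have h1 := k.Dt_add hf (k.sm_mul (eq0_sm_cst k c) hg) t ht x hx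
  have h2 := k.Dt_mul (eq0_sm_cst k c) hg t ht x hx
  have h3 := k.Dt_space (fun _ => c) t ht x
  rw [h1, h2, h3]
  ring

theorem eq0_DD_congr (k : Kit S U) {f g : Fn} (h : ∀ t ∈ S, ∀ x ∈ U, f t x = g t x)
    (i j : Fin 4) : ∀ t ∈ S, ∀ x ∈ U, Dx i (Dx j f) t x = Dx i (Dx j g) t x :=
  k.Dx_congr (k.Dx_congr h j) i

theorem eq0_DD_lin (k : Kit S U) {f g : Fn} (hf : Sm S U f) (hg : Sm S U g) (c : ℝ)
    (i j : Fin 4) : ∀ t ∈ S, ∀ x ∈ U, Dx i (Dx j (fun t x => f t x + c * g t x)) t x =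
      Dx i (Dx j f) t x + c * Dx i (Dx j g) t x := by
  intro t ht x hx
  rw [k.Dx_congr (eq0_Dx_lin k hf hg c j) i t ht x hx]
  exact eq0_Dx_lin k (k.sm_Dx hf j) (k.sm_Dx hg j) c i t ht x hx

theorem eq0_Dt_DD (k : Kit S U) {f : Fn} (hf : Sm S U f) (i j : Fin 4) :
    ∀ t ∈ S, ∀ x ∈ U, Dt S (Dx i (Dx j f)) t x = Dx i (Dx j (Dt S f)) t x := by
  intro t ht x hx
  rw [k.Dt_Dx (k.sm_Dx hf j) i t ht x hx]
  exact k.Dx_congr (k.Dt_Dx hf j) i t ht x hx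

theorem eq0_D_DD (k : Kit S U) {f : Fn} (hf : Sm S U f) (j m n : Fin 4) :
    ∀ t ∈ S, ∀ x ∈ U, Dx j (Dx m (Dx n f)) t x = Dx m (Dx n (Dx j f)) t x := by
  intro t ht x hx
  rw [k.Dx_Dx (k.sm_Dx hf n) j m t ht x hx]
  exact k.Dx_congr (k.Dx_Dx hf j n) m t ht x hx

theorem eq0_DD_DD (k : Kit S U) {f : Fn} (hf : Sm S U f) (i j m n : Fin 4) :
    ∀ t ∈ S, ∀ x ∈ U, Dx i (Dx j (Dx m (Dx n f))) t x = Dx m (Dx n (Dx i (Dx j f))) t x := by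
  intro t ht x hx
  rw [k.Dx_congr (eq0_D_DD k hf j m n) i t ht x hx]
  exact eq0_D_DD k (k.sm_Dx hf j) i m n t ht x hx

theorem eq0_DD_Gm (k : Kit S U) {f : Fn} (hf : Sm S U f) (i j α : Fin 4) :
    ∀ t ∈ S, ∀ x ∈ U, Dx i (Dx j (Gm f α)) t x =
      Dx i (Dx j (Dx (eq0_a α) (Dx (eq0_b α) f))) t x +
        eq0_s α * Dx i (Dx j (Dx (eq0_c α) (Dx (eq0_d α) f))) t x := by
  intro t ht x hx
  rw [eq0_DD_congr k (fun t _ x _ => eq0_Gm k f α t x) i j t ht x hx]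
  exact eq0_DD_lin k (k.sm_Dx (k.sm_Dx hf _) _) (k.sm_Dx (k.sm_Dx hf _) _) _ i j t ht x hx

theorem eq0_Gm_Gm (k : Kit S U) {f : Fn} (hf : Sm S U f) (α β : Fin 4) :
    ∀ t ∈ S, ∀ x ∈ U, Gm (Gm f β) α t x = Gm (Gm f α) β t x := by
  intro t ht x hx
  rw [eq0_Gm k (Gm f β) α, eq0_Gm k (Gm f α) β, eq0_DD_Gm k hf _ _ β t ht x hx,
    eq0_DD_Gm k hf _ _ β t ht x hx, eq0_DD_Gm k hf _ _ α t ht x hx,
    eq0_DD_Gm k hf _ _ α t ht x hx,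
    eq0_DD_DD k hf (eq0_a α) (eq0_b α) (eq0_a β) (eq0_b β) t ht x hx,
    eq0_DD_DD k hf (eq0_a α) (eq0_b α) (eq0_c β) (eq0_d β) t ht x hx,
    eq0_DD_DD k hf (eq0_c α) (eq0_d α) (eq0_a β) (eq0_b β) t ht x hx,
    eq0_DD_DD k hf (eq0_c α) (eq0_d α) (eq0_c β) (eq0_d β) t ht x hx]
  ring

theorem eq0_Dt_Gm (k : Kit S U) {f : Fn} (hf : Sm S U f) (α : Fin 4) :
    ∀ t ∈ S, ∀ x ∈ U, Dt S (Gm f α) t x = Gm (Dt S f) α t x := by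
  intro t ht x hx
  rw [k.Dt_congr (fun t _ x _ => eq0_Gm k f α t x) t ht x hx,
    eq0_Dt_lin k (k.sm_Dx (k.sm_Dx hf _) _) (k.sm_Dx (k.sm_Dx hf _) _) _ t ht x hx,
    eq0_Dt_DD k hf _ _ t ht x hx, eq0_Dt_DD k hf _ _ t ht x hx, eq0_Gm k (Dt S f) α]

theorem eq0 (hK : SKIT) (hE : SELL) (hB : SEXB) (hD : SEXD) : SEQ0 := by
  intro α
  refine ⟨eq0_R α, eq0_R_wt α, eq0_R_ord α, fun S U φ w0 hS hU hφ t ht x hx => ?_⟩
  have _ := hB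
  have k := hK S U hS hU
  have hd := hD S U φ w0 hS hU hφ
  have hq : ∀ t x, eq0_q.val φ t x = hdet (lv (φ t) x) := by
    intro t x
    simp only [eq0_q, Ex.val, Ex.ev, Dw, DL, Gm, hdet]
    ring
  have hq0 : ∀ t ∈ S, ∀ x ∈ U, eq0_q.val φ t x ≠ 0 := by
    intro t ht x hx
    rw [hq]
    exact (hE.2.1 _ (hφ.pos t ht x hx)).ne'
  have hL : Sm S U (fun t x => Real.log (eq0_q.val φ t x)) := k.sm_log (hd eq0_q).1 hq0
  have hw : Sm S U (fun _ => w0) := k.sm_space hφ.om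
  have hDt : ∀ t ∈ S, ∀ x ∈ U, Dt S φ t x =
      Real.log (eq0_q.val φ t x) + (-1) * (fun _ => w0 : Fn) t x := by
    intro t ht x hx
    rw [k.Dt_eq t ht x (hφ.eq t ht x hx), hq]
    ring
  have h1 : ∀ j, ∀ t ∈ S, ∀ x ∈ U, Dx j (fun t x => Real.log (eq0_q.val φ t x)) t x =
      (Ex.mul .qi (Ex.dq j)).val φ t x := by
    intro j t ht x hx
    rw [k.Dx_log (hd eq0_q).1 j t ht x hx (hq0 t ht x hx), (hd eq0_q).2 j t ht x hx, hq]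
    simp only [Ex.val, eq0_ev_q, Ex.ev]
  have h2 : ∀ i j, Dx i (Dx j (Dt S φ)) t x = (eq0_Q i j).val φ t x + (hdet (lv (φ t) x))⁻¹ *
      (Gm φ 0 t x * Dx i (Dx j (Gm φ 1)) t x + Gm φ 1 t x * Dx i (Dx j (Gm φ 0)) t x -
        2 * Gm φ 2 t x * Dx i (Dx j (Gm φ 2)) t x - 2 * Gm φ 3 t x * Dx i (Dx j (Gm φ 3)) t x) +
      (-1) * Dx i (Dx j (fun _ => w0)) t x := by
    intro i j
    rw [eq0_DD_congr k hDt i j t ht x hx, eq0_DD_lin k hL hw (-1) i j t ht x hx,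
      k.Dx_congr (h1 j) i t ht x hx, (hd _).2 i t ht x hx]
    exact congrArg (· + (-1) * Dx i (Dx j (fun _ => w0)) t x) (eq0_ev _ _ i j)
  have h3 : Gm (fun _ => w0) α t x = 0 := by
    have := hφ.ph x hx
    simp only [Gm, this, Pi.zero_apply]
  rw [eq0_Gm k] at h3
  have h4 : ∀ β, Gm (Gm φ α) β t x = Dx (eq0_a α) (Dx (eq0_b α) (Gm φ β)) t x +
      eq0_s α * Dx (eq0_c α) (Dx (eq0_d α) (Gm φ β)) t x := by
    intro β
    rw [eq0_Gm_Gm k hφ.sm β α t ht x hx, eq0_Gm k (Gm φ β) α]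
  have h5 : Box S (bb φ) (Dw [] (Gm φ α)) t x = Dt S (Gm φ α) t x - (hdet (lv (φ t) x))⁻¹ *
      (Gm φ 0 t x * Gm (Gm φ α) 1 t x + Gm φ 1 t x * Gm (Gm φ α) 0 t x -
        2 * Gm φ 2 t x * Gm (Gm φ α) 2 t x - 2 * Gm φ 3 t x * Gm (Gm φ α) 3 t x) := by
    have e1 : Dw [] (Gm φ α) = Gm φ α := rfl
    rw [e1]
    simp only [Box, bb, hmix, Pi.smul_apply, smul_eq_mul]
    simp only [Gm]
    ring
  have h6 : (eq0_R α).val φ t x = (eq0_Q (eq0_a α) (eq0_b α)).val φ t x +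
      eq0_s α * (eq0_Q (eq0_c α) (eq0_d α)).val φ t x := rfl
  rw [h5, h6, eq0_Dt_Gm k hφ.sm α t ht x hx, eq0_Gm k (Dt S φ) α, h2, h2, h4, h4, h4, h4]
  linear_combination (-1) * h3

end Pool.Agent.MP_67f0e4_gt.B
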