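import Pool.Agent.MP_67f0e4_gt.B.Spec

/-! Block B, row EQS: differentiating the evolution equation once more. -/

open Set Metric Filter Topology
open scoped ContDiff

noncomputable section

namespace Pool.Agent.MP_67f0e4_gt.B

open K

/-- the Levi form of a jet, as formal expressions -/
def eqs_L (α : Fin 4) (l : List (Fin 4)) : Fin 4 → Ex :=
  ![.add (.jet α (0 :: 0 :: l)) (.jet α (1 :: 1 :: l)),
    .add (.jet α (2 :: 2 :: l)) (.jet α (3 :: 3 :: l)),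
    .add (.jet α (0 :: 2 :: l)) (.jet α (1 :: 3 :: l)),
    .add (.jet α (0 :: 3 :: l)) (.mul (.cst (-1)) (.jet α (1 :: 2 :: l)))]

/-- the coefficients, as formal expressions -/
def eqs_b (β : Fin 4) : Ex := .mul .qi (.jet β [])

/-- formal `hmix` -/
def eqs_mix (g h : Fin 4 → Ex) : Ex :=
  .add (.add (.mul (g 0) (h 1)) (.mul (g 1) (h 0)))
    (.mul (.cst (-2)) (.add (.mul (g 2) (h 2)) (.mul (g 3) (h 3))))

theorem eqs_mix_val (φ : Fn) (g h : Fin 4 → Ex) (t : ℝ) (x : V) :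
    (eqs_mix g h).val φ t x = hmix (fun β => (g β).val φ t x) (fun β => (h β).val φ t x) := by
  simp only [eqs_mix, Ex.val, Ex.ev, hmix]
  ring

theorem eqs_mix_der (φ : Fn) (i : Fin 4) (g h : Fin 4 → Ex) (t : ℝ) (x : V) :
    ((eqs_mix g h).der i).val φ t x =
      (eqs_mix (fun β => (g β).der i) h).val φ t x +
        hmix (fun β => (g β).val φ t x) (fun β => ((h β).der i).val φ t x) := by
  simp only [eqs_mix, Ex.val, Ex.ev, Ex.der, hmix]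
  ring

theorem eqs_b_val (φ : Fn) (t : ℝ) (x : V) :
    (fun β => (eqs_b β).val φ t x) = bb φ t x := by
  funext β
  rfl

theorem eqs_jet_val (φ : Fn) (α : Fin 4) (l : List (Fin 4)) :
    (Ex.jet α l).val φ = Dw l (Gm φ α) := rfl

theorem eqs_Dw_cons (i : Fin 4) (l : List (Fin 4)) (f : Fn) :
    Dw (i :: l) f = Dx i (Dw l f) := rfl

theorem eqs_L_val {S : Set ℝ} {U : Set V} (k : Kit S U) (φ : Fn) (α : Fin 4) (l : List (Fin 4))
    (t : ℝ) (x : V) :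
    (fun β => (eqs_L α l β).val φ t x) = lv (Dw l (Gm φ α) t) x := by
  obtain ⟨h0, h1, h2, h3⟩ := k.Gm_eq (Dw l (Gm φ α)) t x
  funext β
  fin_cases β
  · exact h0.symm
  · exact h1.symm
  · exact h2.symm
  · refine Eq.trans ?_ h3.symm
    show Dx 0 (Dx 3 (Dw l (Gm φ α))) t x + -1 * Dx 1 (Dx 2 (Dw l (Gm φ α))) t x = _
    ring

theorem eqs_comm {S : Set ℝ} {U : Set V} (k : Kit S U) {w : Fn} (hw : Sm S U w)
    (i a b : Fin 4) {t : ℝ} (ht : t ∈ S) {x : V} (hx : x ∈ U) :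
    Dx i (Dx a (Dx b w)) t x = Dx a (Dx b (Dx i w)) t x := by
  rw [k.Dx_Dx (k.sm_Dx hw b) i a t ht x hx]
  exact k.Dx_congr (fun s hs y hy => k.Dx_Dx hw i b s hs y hy) a t ht x hx

theorem eqs_L_der {S : Set ℝ} {U : Set V} (k : Kit S U) (φ : Fn) (α : Fin 4) (l : List (Fin 4))
    (hw : Sm S U (Dw l (Gm φ α))) (i : Fin 4) {t : ℝ} (ht : t ∈ S) {x : V} (hx : x ∈ U) :
    (fun β => ((eqs_L α l β).der i).val φ t x) = lv (Dw (i :: l) (Gm φ α) t) x := by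
  obtain ⟨h0, h1, h2, h3⟩ := k.Gm_eq (Dx i (Dw l (Gm φ α))) t x
  have c := fun a b => eqs_comm k hw i a b ht hx
  funext β
  fin_cases β
  · refine Eq.trans ?_ h0.symm
    show Dx i (Dx 0 (Dx 0 (Dw l (Gm φ α)))) t x + Dx i (Dx 1 (Dx 1 (Dw l (Gm φ α)))) t x = _
    rw [c, c]
  · refine Eq.trans ?_ h1.symm
    show Dx i (Dx 2 (Dx 2 (Dw l (Gm φ α)))) t x + Dx i (Dx 3 (Dx 3 (Dw l (Gm φ α)))) t x = _
    rw [c, c]
  · refine Eq.trans ?_ h2.symm
    show Dx i (Dx 0 (Dx 2 (Dw l (Gm φ α)))) t x + Dx i (Dx 1 (Dx 3 (Dw l (Gm φ α)))) t x = _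
    rw [c, c]
  · refine Eq.trans ?_ h3.symm
    show Dx i (Dx 0 (Dx 3 (Dw l (Gm φ α)))) t x +
      (0 * Dx 1 (Dx 2 (Dw l (Gm φ α))) t x + -1 * Dx i (Dx 1 (Dx 2 (Dw l (Gm φ α)))) t x) = _
    rw [c, c]
    ring

theorem eqs_wt_L (α : Fin 4) (l : List (Fin 4)) (β : Fin 4) :
    (eqs_L α l β).wt ≤ l.length + 2 ∧ (eqs_L α l β).ord ≤ l.length + 2 := by
  fin_cases β <;> simp [eqs_L, Ex.wt, Ex.ord]

theorem eqs_wt_mix (g h : Fin 4 → Ex) (a b c : ℕ) (hg : ∀ β, (g β).wt ≤ a ∧ (g β).ord ≤ c)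
    (hh : ∀ β, (h β).wt ≤ b ∧ (h β).ord ≤ c) :
    (eqs_mix g h).wt ≤ a + b ∧ (eqs_mix g h).ord ≤ c := by
  have g0 := hg 0; have g1 := hg 1; have g2 := hg 2; have g3 := hg 3
  have h0 := hh 0; have h1 := hh 1; have h2 := hh 2; have h3 := hh 3
  simp only [eqs_mix, Ex.wt, Ex.ord]
  omega

theorem eqs (hK : SKIT) (hB : SEXB) (hD : SEXD) : SEQS := by
  intro i l hl α
  obtain ⟨R, hRw, hRo, hR⟩ := hl α
  have hb : ∀ β, ((eqs_b β).der i).wt ≤ 1 ∧ ((eqs_b β).der i).ord ≤ l.length + 2 := by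
    intro β
    have h := hB.1 i (eqs_b β)
    have h1 : (eqs_b β).wt = 0 := rfl
    have h2 : (eqs_b β).ord = 0 := rfl
    omega
  have hm := eqs_wt_mix (fun β => (eqs_b β).der i) (eqs_L α l) 1 (l.length + 2) (l.length + 2)
    hb (eqs_wt_L α l)
  have hd := hB.1 i R
  refine ⟨.add (R.der i) (eqs_mix (fun β => (eqs_b β).der i) (eqs_L α l)), ?_, ?_, ?_⟩
  · simp only [Ex.wt, List.length_cons]
    omega
  · simp only [Ex.ord, List.length_cons]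
    omega
  intro S U φ w0 hS hU hφ t ht x hx
  have k := hK S U hS hU
  have hw : Sm S U (Dw l (Gm φ α)) := k.sm_Dw (k.sm_Gm hφ.sm α) l
  have h1 : ∀ s ∈ S, ∀ y ∈ U, Dt S (Dw l (Gm φ α)) s y =
      (Ex.add R (eqs_mix eqs_b (eqs_L α l))).val φ s y := by
    intro s hs y hy
    have e1 := hR S U φ w0 hS hU hφ s hs y hy
    have e2 := eqs_mix_val φ eqs_b (eqs_L α l) s y
    rw [eqs_b_val, eqs_L_val k] at e2
    show _ = R.val φ s y + (eqs_mix eqs_b (eqs_L α l)).val φ s y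
    rw [e2, ← e1]
    simp only [Box]
    ring
  have h2 := k.Dx_congr h1 i t ht x hx
  rw [(hD S U φ w0 hS hU hφ _).2 i t ht x hx] at h2
  have h3 := eqs_mix_der φ i eqs_b (eqs_L α l) t x
  rw [eqs_b_val, eqs_L_der k φ α l hw i ht hx] at h3
  have h4 := k.Dt_Dx hw i t ht x hx
  have h5 : ((Ex.add R (eqs_mix eqs_b (eqs_L α l))).der i).val φ t x =
      (R.der i).val φ t x + ((eqs_mix eqs_b (eqs_L α l)).der i).val φ t x := rfl
  show Dt S (Dx i (Dw l (Gm φ α))) t x - hmix (bb φ t x) (lv (Dw (i :: l) (Gm φ α) t) x) =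
    (R.der i).val φ t x + (eqs_mix (fun β => (eqs_b β).der i) (eqs_L α l)).val φ t x
  rw [h4, h2, h5, h3]
  ring

end Pool.Agent.MP_67f0e4_gt.B
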