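import Pool.Agent.MP_67f0e4_gt.B.Spec

/-! Row EXB: size of formal expressions. -/

namespace Pool.Agent.MP_67f0e4_gt.B

open K

theorem exb_der (i : Fin 4) (a : Ex) : (a.der i).wt ≤ a.wt + 1 ∧ (a.der i).ord ≤ a.ord + 1 := by
  induction a with
  | cst r => simp [Ex.der, Ex.wt, Ex.ord]
  | jet α l => simp [Ex.der, Ex.wt, Ex.ord]
  | qi => simp [Ex.der, Ex.dq, Ex.wt, Ex.ord]
  | add a b ha hb =>
    simp only [Ex.der, Ex.wt, Ex.ord]
    omega
  | mul a b ha hb =>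
    simp only [Ex.der, Ex.wt, Ex.ord]
    omega

theorem exb_bd (m : ℕ) (K : ℝ) (a : Ex) : ∀ n : ℕ, a.wt ≤ n → a.ord ≤ m → ∃ C : ℝ, 0 < C ∧
    ∀ (J : Fin 4 → List (Fin 4) → ℝ) (ι lam : ℝ), 1 ≤ lam → |ι| ≤ K →
      (∀ α l, l.length ≤ m → |J α l| ≤ K * lam ^ l.length) → |a.ev J ι| ≤ C * lam ^ n := by
  induction a with
  | cst r =>
    refine fun n _ _ => ⟨|r| + 1, by positivity, fun J ι lam hl _ _ => ?_⟩
    have h1 : 1 ≤ lam ^ n := one_le_pow₀ hl
    have h2 := abs_nonneg r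
    change |r| ≤ _
    nlinarith
  | jet α l =>
    refine fun n hn hm => ⟨|K| + 1, by positivity, fun J ι lam hl _ hJ => ?_⟩
    have h1 : lam ^ l.length ≤ lam ^ n := pow_le_pow_right₀ hl hn
    have h2 : 0 ≤ lam ^ l.length := pow_nonneg (zero_le_one.trans hl) _
    exact (hJ α l hm).trans
      (mul_le_mul (by linarith [le_abs_self K]) h1 h2 (by positivity))
  | qi =>
    refine fun n _ _ => ⟨|K| + 1, by positivity, fun J ι lam hl hι _ => ?_⟩
    have h1 : 1 ≤ lam ^ n := one_le_pow₀ hl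
    have h2 := abs_nonneg K
    have h3 := le_abs_self K
    change |ι| ≤ _
    nlinarith
  | add a b ha hb =>
    intro n hn hm
    obtain ⟨C, hC, h⟩ := ha n ((le_max_left _ _).trans hn) ((le_max_left _ _).trans hm)
    obtain ⟨C', hC', h'⟩ := hb n ((le_max_right _ _).trans hn) ((le_max_right _ _).trans hm)
    refine ⟨C + C', add_pos hC hC', fun J ι lam hl hι hJ => ?_⟩
    rw [add_mul]
    exact (abs_add_le _ _).trans (add_le_add (h J ι lam hl hι hJ) (h' J ι lam hl hι hJ))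
  | mul a b ha hb =>
    intro n hn hm
    obtain ⟨C, hC, h⟩ := ha a.wt le_rfl ((le_max_left _ _).trans hm)
    obtain ⟨C', hC', h'⟩ := hb b.wt le_rfl ((le_max_right _ _).trans hm)
    refine ⟨C * C', mul_pos hC hC', fun J ι lam hl hι hJ => ?_⟩
    have h0 : 0 ≤ lam := zero_le_one.trans hl
    have h1 : lam ^ (a.wt + b.wt) ≤ lam ^ n := pow_le_pow_right₀ hl hn
    calc |a.ev J ι * b.ev J ι| = |a.ev J ι| * |b.ev J ι| := abs_mul _ _
      _ ≤ C * lam ^ a.wt * (C' * lam ^ b.wt) :=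
        mul_le_mul (h J ι lam hl hι hJ) (h' J ι lam hl hι hJ) (abs_nonneg _) (by positivity)
      _ = C * C' * lam ^ (a.wt + b.wt) := by ring
      _ ≤ C * C' * lam ^ n := mul_le_mul_of_nonneg_left h1 (mul_pos hC hC').le

theorem exb : SEXB := ⟨exb_der, fun a n m K hn hm => exb_bd m K a n hn hm⟩

end Pool.Agent.MP_67f0e4_gt.B
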