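import Pool.Agent.MP_67f0e4_gt.B.Spec

/-! Block B: the formal derivative is the derivative. -/

open Set

noncomputable section

namespace Pool.Agent.MP_67f0e4_gt.B

open K

/-- the statement for one expression -/
def exd_P (S : Set ℝ) (U : Set V) (φ : Fn) (a : Ex) : Prop :=
  Sm S U (a.val φ) ∧ ∀ i, ∀ t ∈ S, ∀ x ∈ U, Dx i (a.val φ) t x = (a.der i).val φ t x

/-- the determinant as an expression -/
def exd_det : Ex :=
  .add (.mul (.jet 0 []) (.jet 1 []))
    (.mul (.cst (-1)) (.add (.mul (.jet 2 []) (.jet 2 [])) (.mul (.jet 3 []) (.jet 3 []))))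

variable {S : Set ℝ} {U : Set V} {φ : Fn}

theorem exd_cst (k : Kit S U) (r : ℝ) : exd_P S U φ (.cst r) :=
  ⟨k.sm_space (g := fun _ => r) contDiffOn_const, fun i t _ x _ => k.Dx_const r i t x⟩

theorem exd_jet (k : Kit S U) (h : Sm S U φ) (α : Fin 4) (l : List (Fin 4)) :
    exd_P S U φ (.jet α l) :=
  ⟨k.sm_Dw (k.sm_Gm h α) l, fun _ _ _ _ _ => rfl⟩

theorem exd_add (k : Kit S U) {a b : Ex} (ha : exd_P S U φ a) (hb : exd_P S U φ b) :
    exd_P S U φ (.add a b) :=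
  ⟨k.sm_add ha.1 hb.1, fun i t ht x hx => (k.Dx_add ha.1 hb.1 i t ht x hx).trans (by
    rw [ha.2 i t ht x hx, hb.2 i t ht x hx]
    rfl)⟩

theorem exd_mul (k : Kit S U) {a b : Ex} (ha : exd_P S U φ a) (hb : exd_P S U φ b) :
    exd_P S U φ (.mul a b) :=
  ⟨k.sm_mul ha.1 hb.1, fun i t ht x hx => (k.Dx_mul ha.1 hb.1 i t ht x hx).trans (by
    rw [ha.2 i t ht x hx, hb.2 i t ht x hx]
    rfl)⟩

theorem exd_det_val (φ : Fn) (t : ℝ) (x : V) : exd_det.val φ t x = hdet (lv (φ t) x) := by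
  show lv (φ t) x 0 * lv (φ t) x 1 +
    (-1) * (lv (φ t) x 2 * lv (φ t) x 2 + lv (φ t) x 3 * lv (φ t) x 3) = _
  unfold hdet
  ring

theorem exd_det_der (φ : Fn) (i : Fin 4) (t : ℝ) (x : V) :
    (exd_det.der i).val φ t x = (Ex.dq i).val φ t x := by
  simp only [exd_det, Ex.der, Ex.dq, Ex.val, Ex.ev]
  ring

theorem exd_qi (k : Kit S U) (h : Sm S U φ) (h0 : ∀ t ∈ S, ∀ x ∈ U, hdet (lv (φ t) x) ≠ 0) :
    exd_P S U φ .qi := by
  have j := exd_jet k h
  have hd : exd_P S U φ exd_det :=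
    exd_add k (exd_mul k (j 0 []) (j 1 [])) (exd_mul k (exd_cst k (-1))
      (exd_add k (exd_mul k (j 2 []) (j 2 [])) (exd_mul k (j 3 []) (j 3 []))))
  have e : Ex.qi.val φ = fun t x => (exd_det.val φ t x)⁻¹ := by
    funext t x
    rw [exd_det_val]
    rfl
  have h1 : ∀ t ∈ S, ∀ x ∈ U, exd_det.val φ t x ≠ 0 := fun t ht x hx => by
    rw [exd_det_val]
    exact h0 t ht x hx
  refine ⟨by rw [e]; exact k.sm_inv hd.1 h1, fun i t ht x hx => ?_⟩
  rw [e, k.Dx_inv hd.1 i t ht x hx (h1 t ht x hx), hd.2 i t ht x hx, exd_det_der, exd_det_val]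
  exact (neg_one_mul _).symm

theorem exd (hK : SKIT) (hE : SELL) : SEXD := by
  intro S U φ w0 hS hU hF a
  have k := hK S U hS hU
  show exd_P S U φ a
  induction a with
  | cst r => exact exd_cst k r
  | jet α l => exact exd_jet k hF.sm α l
  | qi => exact exd_qi k hF.sm fun t ht x hx => (hE.2.1 _ (hF.pos t ht x hx)).ne'
  | add a b ha hb => exact exd_add k ha hb
  | mul a b ha hb => exact exd_mul k ha hb

end Pool.Agent.MP_67f0e4_gt.B
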