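import Pool.Agent.MP_67f0e4_gt.B.Spec
import Pool.Agent.MP_67f0e4_gt.K.Alg

/-! Block B: the second derivative test. -/

open Set Metric Filter Topology

noncomputable section

namespace Pool.Agent.MP_67f0e4_gt.B

open K

theorem smax_has {f : V → ℝ} {x : V} (h : ContDiffAt ℝ 2 f x) :
    HasFDerivAt (fderiv ℝ f) (fderiv ℝ (fderiv ℝ f) x) x :=
  ((h.fderiv_right (m := 1) (by norm_num)).differentiableAt one_ne_zero).hasFDerivAt

theorem smax_dd {f : V → ℝ} {x : V} (h : ContDiffAt ℝ 2 f x) (v w : V) :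
    D v (D w f) x = fderiv ℝ (fderiv ℝ f) x v w := by
  have h1 : HasFDerivAt (D w f) ((ContinuousLinearMap.apply ℝ ℝ w).comp
      (fderiv ℝ (fderiv ℝ f) x)) x :=
    (ContinuousLinearMap.apply ℝ ℝ w).hasFDerivAt.comp x (smax_has h)
  rw [D, h1.fderiv]
  rfl

theorem smax_line {f : V → ℝ} {x : V} (h : ContDiffAt ℝ 2 f x) (hm : IsLocalMax f x) (v : V) :
    fderiv ℝ (fderiv ℝ f) x v v ≤ 0 := by
  have hl : ∀ s : ℝ, HasDerivAt (fun s : ℝ => x + s • v) v s := fun s => by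
    simpa using ((hasDerivAt_id s).smul_const v).const_add x
  have h0 : x + (0 : ℝ) • v = x := by simp
  have ht : Tendsto (fun s : ℝ => x + s • v) (𝓝 0) (𝓝 x) := by
    have := (hl 0).continuousAt.tendsto
    rwa [h0] at this
  have e1 : deriv (fun s : ℝ => f (x + s • v)) =ᶠ[𝓝 0] fun s => fderiv ℝ f (x + s • v) v := by
    filter_upwards [ht.eventually (h.eventually (by simp))] with s hs
    exact ((hs.differentiableAt two_ne_zero).hasFDerivAt.comp_hasDerivAt s (hl s)).deriv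
  have e2 : HasDerivAt (fun s : ℝ => fderiv ℝ f (x + s • v) v)
      (fderiv ℝ (fderiv ℝ f) x v v) 0 := by
    have h1 : HasFDerivAt (fderiv ℝ f) (fderiv ℝ (fderiv ℝ f) x) (x + (0 : ℝ) • v) := by
      rw [h0]
      exact smax_has h
    exact (ContinuousLinearMap.apply ℝ ℝ v).hasFDerivAt.comp_hasDerivAt 0
      (h1.comp_hasDerivAt 0 (hl 0))
  have e3 : deriv (deriv fun s : ℝ => f (x + s • v)) 0 = fderiv ℝ (fderiv ℝ f) x v v := by
    rw [e1.deriv_eq, e2.deriv]
  have m1 : IsLocalMax (fun s : ℝ => f (x + s • v)) 0 := by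
    filter_upwards [ht.eventually hm] with s hs
    rwa [h0]
  by_contra hp
  rw [not_le, ← e3] at hp
  have c1 : ContinuousAt (fun s : ℝ => f (x + s • v)) 0 :=
    ContinuousAt.comp (by rw [h0]; exact h.continuousAt) (hl 0).continuousAt
  have m2 := isLocalMin_of_deriv_deriv_pos hp m1.deriv_eq_zero c1
  have e4 : (fun s : ℝ => f (x + s • v)) =ᶠ[𝓝 0] fun _ => f (x + (0 : ℝ) • v) := by
    filter_upwards [m1, m2] with s a b using le_antisymm a b
  rw [e4.deriv.deriv_eq] at hp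
  simp at hp

theorem smax_alg (B : V →L[ℝ] V →L[ℝ] ℝ) (hs : ∀ v w, B v w = B w v) (v : V) :
    qf ![B (e 0) (e 0) + B (e 1) (e 1), B (e 2) (e 2) + B (e 3) (e 3),
      B (e 0) (e 2) + B (e 1) (e 3), B (e 0) (e 3) + B (e 1) (-e 2)] v =
      B v v + B (Complex.I • v) (Complex.I • v) := by
  have h1 := V_eq v
  have h2 : Complex.I • v = (-v.1.im) • e 0 + v.1.re • e 1 + (-v.2.im) • e 2 + v.2.re • e 3 := by
    ext <;> apply Complex.ext <;> simp
  have h3 : B v v = B (v.1.re • e 0 + v.1.im • e 1 + v.2.re • e 2 + v.2.im • e 3)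
      (v.1.re • e 0 + v.1.im • e 1 + v.2.re • e 2 + v.2.im • e 3) := by rw [← h1]
  rw [h3, h2]
  simp only [qf, bf, map_add, map_smul, map_neg, ContinuousLinearMap.add_apply,
    ContinuousLinearMap.smul_apply, smul_eq_mul, Matrix.cons_val_zero, Matrix.cons_val_one,
    Matrix.cons_val, hs (e 1) (e 0), hs (e 2) (e 0), hs (e 3) (e 0), hs (e 2) (e 1),
    hs (e 3) (e 1), hs (e 3) (e 2)]
  ring

theorem smax_nn {b : Hm} (h : ∀ ξ, 0 ≤ gam b ξ ξ) : NN b := fun v => by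
  refine (h ![-v.2.re, v.2.im, v.1.re, -v.1.im]).trans_eq ?_
  simp only [gam, qf, bf, Matrix.cons_val_zero, Matrix.cons_val_one, Matrix.cons_val]
  ring

theorem smax : SMAX := fun f x b h hm hb => by
  refine ⟨?_, fun i => by rw [D, hm.fderiv_eq_zero]; rfl⟩
  have hs := h.isSymmSndFDerivAt (by simp)
  have h1 : NN (-lv f x) := fun v => by
    have e1 := smax_alg (fderiv ℝ (fderiv ℝ f) x) hs v
    have e2 : lv f x = ![fderiv ℝ (fderiv ℝ f) x (e 0) (e 0) + fderiv ℝ (fderiv ℝ f) x (e 1) (e 1),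
        fderiv ℝ (fderiv ℝ f) x (e 2) (e 2) + fderiv ℝ (fderiv ℝ f) x (e 3) (e 3),
        fderiv ℝ (fderiv ℝ f) x (e 0) (e 2) + fderiv ℝ (fderiv ℝ f) x (e 1) (e 3),
        fderiv ℝ (fderiv ℝ f) x (e 0) (e 3) + fderiv ℝ (fderiv ℝ f) x (e 1) (-e 2)] := by
      simp only [lv, lev, smax_dd h, I_e0, I_e2, I_e3]
    rw [qf_neg, e2, e1]
    linarith [smax_line h hm v, smax_line h hm (Complex.I • v)]
  have h2 := hmix_nonneg (hb.elim id smax_nn) h1
  rw [hmix_neg_right] at h2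
  linarith

end Pool.Agent.MP_67f0e4_gt.B
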