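import Pool.Agent.MP_67f0e4_gt.B.Spec

/-! Row RIC: interior bound for a Riccati type differential inequality. -/

open Set Metric Filter Topology
open scoped ContDiff

noncomputable section

namespace Pool.Agent.MP_67f0e4_gt.B

open K

lemma ric_alg {c1 C1 C3 B D η F BF Bη g g2 : ℝ} (hc1 : 0 < c1) (hη : 0 < η) (hη3 : η ≤ C3)
    (hF : 0 < F) (h0 : 0 ≤ η * BF + F * Bη - 2 * g) (hBF : BF ≤ -c1 * F ^ 2 + C1) (hB : Bη ≤ B)
    (hg : η * g = -F * g2) (hg2 : g2 ≤ D * η) :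
    η * F ≤ max ((|C1| * C3 ^ 2 + (B + 2 * D)) / c1) 1 := by
  by_cases h : η * F ≤ 1
  · exact h.trans (le_max_right _ _)
  refine le_trans ?_ (le_max_left _ _)
  rw [not_le] at h
  rw [le_div_iff₀ hc1]
  have h1 : η ^ 2 * BF ≤ η ^ 2 * (-c1 * F ^ 2 + C1) := mul_le_mul_of_nonneg_left hBF (sq_nonneg _)
  have h2 : η * F * Bη ≤ η * F * B := mul_le_mul_of_nonneg_left hB (by positivity)
  have h3 : F * g2 ≤ F * (D * η) := mul_le_mul_of_nonneg_left hg2 hF.le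
  have h4 : η ^ 2 * C1 ≤ C3 ^ 2 * |C1| :=
    (mul_le_mul_of_nonneg_left (le_abs_self C1) (sq_nonneg _)).trans
      (mul_le_mul_of_nonneg_right (pow_le_pow_left₀ hη.le hη3 2) (abs_nonneg _))
  have h5 : C3 ^ 2 * |C1| * 1 ≤ C3 ^ 2 * |C1| * (η * F) :=
    mul_le_mul_of_nonneg_left h.le (by positivity)
  have h6 := mul_nonneg hη.le h0
  refine le_of_mul_le_mul_left (a := η * F) ?_ (by positivity)
  nlinarith

lemma ric_hmix {b l : Hm} {C C3 : ℝ} (hb : ∀ α, |b α| ≤ C) (hl : ∀ α, |l α| ≤ C3) :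
    |hmix b l| ≤ 6 * C * C3 := by
  have h : ∀ α γ, |b α * l γ| ≤ C * C3 := fun α γ => by
    rw [abs_mul]
    exact mul_le_mul (hb α) (hl γ) (abs_nonneg _) ((abs_nonneg _).trans (hb α))
  have h1 := abs_le.1 (h 0 1)
  have h2 := abs_le.1 (h 1 0)
  have h3 := abs_le.1 (h 2 2)
  have h4 := abs_le.1 (h 3 3)
  rw [abs_le, hmix]
  constructor <;> linarith [h1.1, h1.2, h2.1, h2.2, h3.1, h3.2, h4.1, h4.2]

lemma ric_left {f : ℝ → ℝ} {d a t : ℝ} {S : Set ℝ} (h : HasDerivWithinAt f d S t) (ha : a < t)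
    (hS : Icc a t ⊆ S) (hm : ∀ s ∈ Icc a t, f s ≤ f t) : 0 ≤ d := by
  have h1 : IsLocalMaxOn f (Icc a t) t := IsMaxOn.localize hm
  have h2 := h1.hasFDerivWithinAt_nonpos (h.mono hS).hasFDerivWithinAt
    (sub_mem_posTangentConeAt_of_segment_subset (y := a) (by
      rw [segment_symm, segment_eq_Icc ha.le]))
  have h3 : (a - t) * d ≤ 0 := by simpa using h2
  by_contra h4
  have := mul_pos_of_neg_of_neg (sub_neg.2 ha) (not_le.1 h4)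
  linarith

lemma ric_core (hK : SKIT) (hN : SNICE) (hE : SELL) (hM : SMAX) (hC : SCUT)
    (C c1 C1 ρ κ K0 : ℝ) (hc1 : 0 < c1) (hρ : 0 < ρ) (hκ : 0 ≤ κ) : ∃ C2 : ℝ, ∀ (a b : ℝ) (z : V)
    (β : ℝ → V → Hm) (F : Fn), a < b → Sm (Icc a b) (ball z ρ) F →
    (∀ t ∈ Icc a b, ∀ x ∈ ball z ρ, Eb 0 C (β t x) ∧ 0 ≤ F t x ∧
      Box (Icc a b) β F t x ≤ -c1 * F t x ^ 2 + C1) → ∀ a1 t0 : ℝ, a ≤ a1 → a1 ≤ t0 → t0 ≤ b →
    κ * (t0 - a1) ≤ 1 → (κ * (t0 - a1) = 1 ∨ ∀ x ∈ ball z ρ, F a1 x ≤ K0) → F t0 z ≤ C2 := by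
  obtain ⟨C3, hC3, hcut⟩ := hC (ρ / 2) (by positivity)
  refine ⟨max (C3 * K0) (max ((|C1| * C3 ^ 2 + ((κ * C3 + 6 * C * C3) + 2 * (3 * C * C3))) / c1)
    1) / (ρ / 2) ^ 4, fun a b z β F hab hF hyp a1 t0 h1 h2 h3 h4 h5 => ?_⟩
  obtain ⟨hsm, hcp, hsub, hz, hzz, hpt⟩ := hcut z
  have kit := hK _ _ (hN.1 a b hab) (isOpen_ball (x := z) (ε := ρ))
  have hEB : EB z (ρ / 2) ⊆ ball z ρ := hsub.trans (closedBall_subset_ball (by linarith))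
  have hI : Icc a1 t0 ⊆ Icc a b := Icc_subset_Icc h1 h3
  obtain ⟨θ, hθ⟩ : ∃ θ : ℝ → ℝ, θ = fun t => 1 - κ * (t0 - t) := ⟨_, rfl⟩
  have sθ : Sm (Icc a b) (ball z ρ) fun t _ => θ t := kit.sm_time (by rw [hθ]; fun_prop)
  have sχ : Sm (Icc a b) (ball z ρ) fun _ => cut z (ρ / 2) := kit.sm_space hsm.contDiffOn
  have sη := kit.sm_mul sθ sχ
  have sG := kit.sm_mul sη hF
  obtain ⟨⟨t1, x1⟩, ⟨ht1, hx1⟩, hmax⟩ := (isCompact_Icc.prod hcp).exists_isMaxOn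
    ⟨(t0, z), ⟨h2, le_rfl⟩, hz⟩ (sG.continuousOn.mono (prod_mono hI hEB))
  have hmax' : ∀ t ∈ Icc a1 t0, ∀ x ∈ EB z (ρ / 2), θ t * cut z (ρ / 2) x * F t x ≤
      θ t1 * cut z (ρ / 2) x1 * F t1 x1 := fun t ht x hx => hmax (a := (t, x)) ⟨ht, hx⟩
  have h6 := hmax' t0 ⟨h2, le_rfl⟩ z hz
  have hθ0 : θ t0 = 1 := by rw [hθ]; simp
  rw [hθ0, hzz, one_mul] at h6
  rw [le_div_iff₀ (by positivity), mul_comm]
  refine h6.trans ?_
  by_cases hpos : θ t1 * cut z (ρ / 2) x1 * F t1 x1 ≤ 0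
  · exact hpos.trans (zero_le_one.trans ((le_max_right _ _).trans (le_max_right _ _)))
  rw [not_le] at hpos
  obtain ⟨hn, hχ0, hχ3, hgr, hlv⟩ := hpt x1 hx1
  obtain ⟨hEb, hF0, hBF⟩ := hyp t1 (hI ht1) x1 (hEB hx1)
  have hθa : 0 ≤ θ t1 := by
    have := mul_le_mul_of_nonneg_left (sub_le_sub_left ht1.1 t0) hκ
    rw [hθ]; linarith
  have hθb : θ t1 ≤ 1 := by
    have := mul_nonneg hκ (sub_nonneg.2 ht1.2)
    rw [hθ]; linarith
  have hFp : 0 < F t1 x1 := hF0.lt_of_ne fun h => by rw [← h, mul_zero] at hpos; exact hpos.false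
  have hη : 0 < θ t1 * cut z (ρ / 2) x1 := (mul_pos_iff_of_pos_right hFp).1 hpos
  have hη3 : θ t1 * cut z (ρ / 2) x1 ≤ C3 := (mul_le_of_le_one_left hχ0 hθb).trans hχ3
  rcases ht1.1.eq_or_lt with h7 | h7
  · have h7 : a1 = t1 := h7
    rcases h5 with h5 | h5
    · have : θ t1 = 0 := by rw [hθ, ← h7]; linarith
      rw [this, zero_mul] at hη
      exact hη.false.elim
    · rw [h7] at h5
      exact (mul_le_mul hη3 (h5 x1 (hEB hx1)) hF0 hC3.le).trans (le_max_left _ _)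
  have hC0 : 0 ≤ C := (abs_nonneg _).trans (hEb.2 0)
  have hχne : cut z (ρ / 2) x1 ≠ 0 := fun h => by rw [h, mul_zero] at hη; exact hη.false
  have hDt := ric_left (kit.has_Dt sG t1 (hI ht1) x1 (hEB hx1)) h7
    ((Icc_subset_Icc_right ht1.2).trans hI) fun s hs => hmax' s ⟨hs.1, hs.2.trans ht1.2⟩ x1 hx1
  obtain ⟨hmx, hD0⟩ := hM _ x1 (β t1 x1)
    (((kit.sm_slice sG t1 (hI ht1)).contDiffAt (isOpen_ball.mem_nhds (hEB hx1))).of_le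
      (WithTop.coe_le_coe.2 (le_top : (2 : ℕ∞) ≤ ⊤)))
    (Filter.mem_of_superset (hn hχne) fun x hx => hmax' t1 ht1 x hx)
    (Or.inr fun ξ => by simpa using hEb.1 ξ)
  have hBG := kit.Box_mul sη hF β t1 (hI ht1) x1 (hEB hx1)
  have hBη := kit.Box_mul sθ sχ β t1 (hI ht1) x1 (hEB hx1)
  have hg0 : gam (β t1 x1) (gr (fun t _ => θ t) t1 x1) (gr (fun _ => cut z (ρ / 2)) t1 x1) = 0 := by
    simp only [gam, gr, kit.Dx_time]; ring
  have hb1 : Box (Icc a b) β (fun _ => cut z (ρ / 2)) t1 x1 =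
      -hmix (β t1 x1) (lv (cut z (ρ / 2)) x1) := by
    rw [Box, kit.Dt_space _ t1 (hI ht1), zero_sub]
  have hb2 : Box (Icc a b) β (fun t _ => θ t) t1 x1 = κ := by
    have e1 := kit.Box_const (θ t1) β t1 (hI ht1) x1
    rw [Box, kit.Dt_space (fun _ => θ t1) t1 (hI ht1), zero_sub, neg_eq_zero] at e1
    have e2 : HasDerivAt θ κ t1 := by
      have := (((hasDerivAt_id t1).const_sub t0).const_mul κ).const_sub 1
      rw [hθ]; simpa using this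
    rw [Box, e1, sub_zero]
    exact kit.Dt_eq t1 (hI ht1) x1 e2.hasDerivWithinAt
  have hgη : ∀ i, gr (fun t x => θ t * cut z (ρ / 2) x) t1 x1 i =
      θ t1 * D (e i) (cut z (ρ / 2)) x1 := fun i => by
    have e1 := kit.Dx_mul sθ sχ i t1 (hI ht1) x1 (hEB hx1)
    rw [kit.Dx_time, zero_mul, zero_add] at e1
    exact e1
  have hgG : ∀ i, gr (fun t x => θ t * cut z (ρ / 2) x) t1 x1 i * F t1 x1 +
      θ t1 * cut z (ρ / 2) x1 * gr F t1 x1 i = 0 := fun i =>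
    (kit.Dx_mul sη hF i t1 (hI ht1) x1 (hEB hx1)).symm.trans (hD0 i)
  generalize gr (fun t x => θ t * cut z (ρ / 2) x) t1 x1 = ξ at hBG hgη hgG
  refine (ric_alg (g2 := gam (β t1 x1) ξ ξ) hc1 hη hη3 hFp
    ((sub_nonneg.2 (hmx.trans hDt)).trans_eq hBG) hBF ?_ ?_ ?_).trans (le_max_right _ _)
  · rw [hBη, hg0, hb1, hb2]
    have e1 := abs_le.1 (ric_hmix hEb.2 hlv)
    have e2 := mul_le_mul_of_nonneg_left hχ3 hκ
    have e3 := mul_le_mul_of_nonneg_left (neg_le.1 e1.1) hθa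
    have e4 : θ t1 * (6 * C * C3) ≤ 6 * C * C3 := mul_le_of_le_one_left (by positivity) hθb
    linarith
  · simp only [gam]
    linear_combination (β t1 x1 1 * ξ 0 - β t1 x1 2 * ξ 2 - β t1 x1 3 * ξ 3) * hgG 0 +
      (β t1 x1 1 * ξ 1 - β t1 x1 2 * ξ 3 + β t1 x1 3 * ξ 2) * hgG 1 +
      (β t1 x1 0 * ξ 2 - β t1 x1 2 * ξ 0 + β t1 x1 3 * ξ 1) * hgG 2 +
      (β t1 x1 0 * ξ 3 - β t1 x1 2 * ξ 1 - β t1 x1 3 * ξ 0) * hgG 3
  · have e0 : 0 ≤ n2 ξ := Finset.sum_nonneg fun i _ => sq_nonneg _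
    have e1 : gam (β t1 x1) ξ ξ ≤ 3 * C * n2 ξ :=
      (abs_le_of_sq_le_sq' ((hE.1 C _ ξ ξ hEb.2).trans_eq (by ring)) (by positivity)).2
    have e2 : n2 ξ = θ t1 ^ 2 * n2 fun i => D (e i) (cut z (ρ / 2)) x1 := by
      simp only [n2, hgη, mul_pow, Finset.mul_sum]
    have e3 : θ t1 ^ 2 ≤ θ t1 := by nlinarith
    have e4 : n2 ξ ≤ θ t1 * (C3 * cut z (ρ / 2) x1) := by
      rw [e2]
      exact mul_le_mul e3 hgr (Finset.sum_nonneg fun i _ => sq_nonneg _) hθa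
    have e5 := mul_le_mul_of_nonneg_left e4 (show 0 ≤ 3 * C by positivity)
    linarith

theorem ric (hK : SKIT) (hN : SNICE) (hE : SELL) (hM : SMAX) (hC : SCUT) : SRIC := by
  intro C c1 C1 ρ σ K0 hc1 hρ hσ
  obtain ⟨C2, h⟩ := ric_core hK hN hE hM hC C c1 C1 ρ σ⁻¹ K0 hc1 hρ (inv_nonneg.2 hσ)
  refine ⟨C2, fun a b z β F hab hF hyp h0 t ht => ?_⟩
  rcases hσ.eq_or_lt with h1 | h1
  · subst h1
    exact h a b z β F hab hF hyp a t le_rfl (by linarith [ht.1]) ht.2 (by simp)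
      (Or.inr (h0.resolve_left (lt_irrefl _)))
  · have h2 : σ⁻¹ * (t - (t - σ)) = 1 := by rw [sub_sub_cancel, inv_mul_cancel₀ h1.ne']
    exact h a b z β F hab hF hyp (t - σ) t (by linarith [ht.1]) (by linarith) ht.2 h2.le
      (Or.inl h2)

end Pool.Agent.MP_67f0e4_gt.B
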