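import Pool.Agent.MP_67f0e4_gt.B.Spec

/-! Sums of squares. -/

open Set Metric Filter Topology
open scoped ContDiff

noncomputable section

namespace Pool.Agent.MP_67f0e4_gt.B

open K

theorem sq_ss {ι : Type} [Fintype ι] (v : ι → Fn) :
    ss v = fun t x => ∑ β ∈ Finset.univ, (fun β t x => v β t x * v β t x) β t x := by
  funext t x
  simp only [ss, pow_two]

theorem sq_dv {ι : Type} [Fintype ι] (v : ι → Fn) (t : ℝ) (x : V) :
    ss (dv v) t x = ∑ i, ∑ β, Dx i (v β) t x ^ 2 := by
  simp only [ss, dv, Fintype.sum_prod_type]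

theorem sq (hK : SKIT) : SSQ := by
  intro S U hS hU ι _ v hv
  have k := hK S U hS hU
  have hm : ∀ β ∈ (Finset.univ : Finset ι), Sm S U ((fun β t x => v β t x * v β t x) β) :=
    fun β _ => k.sm_mul (hv β) (hv β)
  refine ⟨?_, fun b c C t ht x hx hb => ⟨?_, ?_⟩⟩
  · rw [sq_ss]
    exact k.sm_sum _ hm
  · rw [sq_ss v, k.Box_sum _ hm b t ht x hx, sq_dv, Finset.sum_comm, Finset.mul_sum,
      Finset.mul_sum, ← Finset.sum_sub_distrib]
    refine Finset.sum_le_sum fun β _ => ?_
    have h1 := k.Box_mul (hv β) (hv β) b t ht x hx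
    have h2 := hb.1 (gr (v β) t x)
    have h3 : n2 (gr (v β) t x) = ∑ i, Dx i (v β) t x ^ 2 := rfl
    rw [h3] at h2
    show Box S b (fun t x => v β t x * v β t x) t x ≤ _
    rw [h1]
    linarith
  · have h1 : ∀ i, gr (ss v) t x i = 2 * ∑ β, v β t x * Dx i (v β) t x := by
      intro i
      show Dx i (ss v) t x = _
      rw [sq_ss v, k.Dx_sum _ hm i t ht x hx, Finset.mul_sum]
      refine Finset.sum_congr rfl fun β _ => ?_
      show Dx i (fun t x => v β t x * v β t x) t x = _
      rw [k.Dx_mul (hv β) (hv β) i t ht x hx]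
      ring
    rw [sq_dv, Finset.mul_sum, Finset.mul_sum]
    unfold n2
    refine Finset.sum_le_sum fun i _ => ?_
    rw [h1]
    have h2 := Finset.sum_mul_sq_le_sq_mul_sq Finset.univ (fun β => v β t x)
      (fun β => Dx i (v β) t x)
    have h3 : ss v t x = ∑ β, v β t x ^ 2 := rfl
    rw [h3]
    linarith [mul_pow 2 (∑ β, v β t x * Dx i (v β) t x) 2]

end Pool.Agent.MP_67f0e4_gt.B
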