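import Pool.Agent.MP_67f0e4_gt.B.Spec

/-! Block B: one Bernstein step. -/

open Set Metric Filter Topology
open scoped ContDiff

noncomputable section

namespace Pool.Agent.MP_67f0e4_gt.B

open K

theorem step_real {c C A κ η C1 p ψ χ Bp Bψ g n₁ n₂ : ℝ} (hc : 0 < c) (hA : 0 < A)
    (hη : 0 ≤ η) (hC1 : 0 ≤ C1) (hs : (A + κ) * η + 144 * C ^ 2 * κ / (c * A) ≤ c / 2)
    (hp0 : 0 ≤ p) (hp : p ≤ κ) (hψ : 0 ≤ ψ) (hχ : 0 ≤ χ) (h1 : Bp ≤ -c * ψ + C1)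
    (h2 : Bψ ≤ -c * χ + η * ψ ^ 2 + C1) (hg : g ^ 2 ≤ 9 * C ^ 2 * (n₁ * n₂)) (hn₂ : 0 ≤ n₂)
    (h3 : n₁ ≤ 4 * (p * ψ)) (h4 : n₂ ≤ 4 * (ψ * χ)) :
    (A + p) * Bψ + ψ * Bp - 2 * g ≤
      -(c / (4 * (A + κ) ^ 2)) * ((A + p) * ψ) ^ 2 + (C1 ^ 2 / c + (A + κ) * C1) := by
  have hκ : 0 ≤ κ := hp0.trans hp
  obtain ⟨M, hM⟩ : ∃ M, M = 144 * C ^ 2 * κ / (c * A) := ⟨_, rfl⟩
  have hM0 : 0 ≤ M := by rw [hM]; positivity
  have hM1 : c * A * M = 144 * C ^ 2 * κ := by rw [hM]; field_simp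
  rw [← hM] at hs
  have e1 : n₁ * n₂ ≤ 4 * (κ * ψ) * (4 * (ψ * χ)) :=
    mul_le_mul (h3.trans (by gcongr)) h4 hn₂ (by positivity)
  have e2 : g ^ 2 ≤ (c * A * χ) * (M * ψ ^ 2) := by
    have := mul_le_mul_of_nonneg_left e1 (show 0 ≤ 9 * C ^ 2 by positivity)
    calc g ^ 2 ≤ 9 * C ^ 2 * (4 * (κ * ψ) * (4 * (ψ * χ))) := hg.trans this
      _ = (144 * C ^ 2 * κ) * (χ * ψ ^ 2) := by ring
      _ = _ := by rw [← hM1]; ring
  have e3 : -(2 * g) ≤ c * A * χ + M * ψ ^ 2 := by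
    have a1 : (2 * g) ^ 2 ≤ (c * A * χ + M * ψ ^ 2) ^ 2 := by
      nlinarith [sq_nonneg (c * A * χ - M * ψ ^ 2)]
    exact neg_le.1 (abs_le_of_sq_le_sq' a1 (by positivity)).1
  have e4 : (A + p) * Bψ ≤ -(c * A * χ) + (A + κ) * η * ψ ^ 2 + (A + κ) * C1 := by
    have a1 := mul_le_mul_of_nonneg_left h2 (show 0 ≤ A + p by positivity)
    have a2 : 0 ≤ p * (c * χ) := by positivity
    have a3 : 0 ≤ (κ - p) * (η * ψ ^ 2 + C1) := mul_nonneg (sub_nonneg.2 hp) (by positivity)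
    nlinarith
  have e5 : ψ * Bp ≤ -c * ψ ^ 2 + C1 * ψ := by
    have := mul_le_mul_of_nonneg_left h1 hψ
    nlinarith
  have e6 : ((A + κ) * η + M) * ψ ^ 2 ≤ c / 2 * ψ ^ 2 :=
    mul_le_mul_of_nonneg_right hs (sq_nonneg ψ)
  have e7 : C1 * ψ ≤ c / 4 * ψ ^ 2 + C1 ^ 2 / c := by
    have a1 : c / 4 * ψ ^ 2 + C1 ^ 2 / c - C1 * ψ = (c * ψ - 2 * C1) ^ 2 / (4 * c) := by
      field_simp
      ring
    have a2 : 0 ≤ (c * ψ - 2 * C1) ^ 2 / (4 * c) := by positivity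
    linarith
  have e8 : c / (4 * (A + κ) ^ 2) * ((A + p) * ψ) ^ 2 ≤ c / 4 * ψ ^ 2 := by
    have a1 : ((A + p) * ψ) ^ 2 ≤ ((A + κ) * ψ) ^ 2 := by gcongr
    have a2 : c / (4 * (A + κ) ^ 2) * ((A + κ) * ψ) ^ 2 = c / 4 * ψ ^ 2 := by
      field_simp
    rw [← a2]
    gcongr
  nlinarith

theorem step_ss {ι : Type} [Fintype ι] (v : ι → Fn) (t : ℝ) (x : V) : 0 ≤ ss v t x :=
  Finset.sum_nonneg fun _ _ => sq_nonneg _

theorem step_n2 (ξ : Fin 4 → ℝ) : 0 ≤ n2 ξ := Finset.sum_nonneg fun _ _ => sq_nonneg _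

theorem step (hK : SKIT) (hN : SNICE) (hE : SELL) (hq : SSQ) (hR : SRIC) : SSTEP := by
  intro c C A κ η C1 ρ σ K0 hc hA hκ hη hC1 hρ hσ hs
  obtain ⟨C2, hC2⟩ := hR C (c / (4 * (A + κ) ^ 2)) (C1 ^ 2 / c + (A + κ) * C1) ρ σ
    ((A + κ) * K0) (by positivity) hρ hσ
  refine ⟨C2 / A, fun ι _ a b z β v hab hv H h0 t ht => ?_⟩
  have hS := hN.1 a b hab
  have k := hK _ _ hS (isOpen_ball (x := z) (ε := ρ))
  have hdv : ∀ j, Sm (Icc a b) (ball z ρ) (dv v j) := fun j => k.sm_Dx (hv j.2) j.1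
  obtain ⟨s1, q1⟩ := hq _ _ hS isOpen_ball ι v hv
  obtain ⟨s2, q2⟩ := hq _ _ hS isOpen_ball _ (dv v) hdv
  have sA : Sm (Icc a b) (ball z ρ) fun _ _ => A := k.sm_space contDiffOn_const
  have s0 := k.sm_add sA s1
  have key := hC2 a b z β (fun t x => (A + ss v t x) * ss (dv v) t x) hab (k.sm_mul s0 s2)
    (fun t ht x hx => ?_) (h0.imp id fun h x hx => ?_) t ht
  · rw [le_div_iff₀ hA]
    have := mul_nonneg (step_ss v t z) (step_ss (dv v) t z)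
    nlinarith
  · obtain ⟨b1, b2, b3, b4⟩ := H t ht x hx
    obtain ⟨r1, r2⟩ := q1 β c C t ht x hx b1
    obtain ⟨r3, r4⟩ := q2 β c C t ht x hx b1
    refine ⟨⟨fun ξ => ?_, b1.2⟩,
      mul_nonneg (add_nonneg hA.le (step_ss _ _ _)) (step_ss _ _ _), ?_⟩
    · have := b1.1 ξ
      have := mul_nonneg hc.le (step_n2 ξ)
      linarith
    have g0 : gr (fun t x => A + ss v t x) t x = gr (ss v) t x := by
      funext i
      unfold gr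
      rw [k.Dx_add sA s1 i t ht x hx, k.Dx_const, zero_add]
    rw [k.Box_mul s0 s2 β t ht x hx, k.Box_add sA s1 β t ht x hx, k.Box_const A β t ht x,
      zero_add, g0]
    exact step_real hc hA hη hC1 hs (step_ss _ _ _) b2 (step_ss _ _ _)
      (step_ss (dv (dv v)) t x) (by linarith) (by linarith) (hE.1 C _ _ _ b1.2) (step_n2 _) r2 r4
  · have b2 := (H a ⟨le_rfl, hab.le⟩ x hx).2.1
    exact mul_le_mul (by linarith) (h x hx) (step_ss _ _ _) (by linarith)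

end Pool.Agent.MP_67f0e4_gt.B
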