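import Pool.Agent.MP_67f0e4_gt.B.Spec

/-! Row TIME: space-time derivatives are bounded by space derivatives. -/

open Set Metric Filter Topology
open scoped ContDiff

noncomputable section

namespace Pool.Agent.MP_67f0e4_gt.B

open K

/-- the time derivative of `a` is again a formal expression -/
def time_T (a : Ex) : Prop := ∃ a' : Ex, ∀ (S : Set ℝ) (U : Set V) (φ : Fn) (w0 : V → ℝ),
  Nice S → IsOpen U → PFlow S U φ w0 → ∀ t ∈ S, ∀ x ∈ U, Dt S (a.val φ) t x = a'.val φ t x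

theorem time_cst (hK : SKIT) (r : ℝ) : time_T (.cst r) :=
  ⟨.cst 0, fun S U _ _ hS hU _ t ht x _ => (hK S U hS hU).Dt_space (fun _ => r) t ht x⟩

theorem time_add (hK : SKIT) (hD : SEXD) {a b : Ex} (ha : time_T a) (hb : time_T b) :
    time_T (.add a b) := by
  obtain ⟨a', ha⟩ := ha
  obtain ⟨b', hb⟩ := hb
  refine ⟨.add a' b', fun S U φ w0 hS hU hP t ht x hx => ?_⟩
  have h := (hK S U hS hU).Dt_add (hD S U φ w0 hS hU hP a).1 (hD S U φ w0 hS hU hP b).1 t ht x hx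
  rw [ha S U φ w0 hS hU hP t ht x hx, hb S U φ w0 hS hU hP t ht x hx] at h
  exact h

theorem time_mul (hK : SKIT) (hD : SEXD) {a b : Ex} (ha : time_T a) (hb : time_T b) :
    time_T (.mul a b) := by
  obtain ⟨a', ha⟩ := ha
  obtain ⟨b', hb⟩ := hb
  refine ⟨.add (.mul a' b) (.mul a b'), fun S U φ w0 hS hU hP t ht x hx => ?_⟩
  have h := (hK S U hS hU).Dt_mul (hD S U φ w0 hS hU hP a).1 (hD S U φ w0 hS hU hP b).1 t ht x hx
  rw [ha S U φ w0 hS hU hP t ht x hx, hb S U φ w0 hS hU hP t ht x hx] at h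
  exact h

/-- two further derivatives of two jets -/
def time_two (α : Fin 4) (l : List (Fin 4)) (c : ℝ) (i j m n : Fin 4) : Ex :=
  .add (.jet α (i :: j :: l)) (.mul (.cst c) (.jet α (m :: n :: l)))

theorem time_jet (hK : SKIT) (hQ : ∀ l, EQ l) (α : Fin 4) (l : List (Fin 4)) :
    time_T (.jet α l) := by
  obtain ⟨R, -, -, hR⟩ := hQ l α
  refine ⟨.add R (.mul .qi (.add (.add (.mul (.jet 0 []) (time_two α l 1 2 2 3 3))
    (.mul (.jet 1 []) (time_two α l 1 0 0 1 1))) (.mul (.cst (-2))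
      (.add (.mul (.jet 2 []) (time_two α l 1 0 2 1 3))
        (.mul (.jet 3 []) (time_two α l (-1) 0 3 1 2)))))),
    fun S U φ w0 hS hU hP t ht x hx => ?_⟩
  have h := hR S U φ w0 hS hU hP t ht x hx
  obtain ⟨h0, h1, h2, h3⟩ := (hK S U hS hU).Gm_eq (Dw l (Gm φ α)) t x
  have e1 : Dt S (Dw l (Gm φ α)) t x = R.val φ t x + (hdet (lv (φ t) x))⁻¹ *
      (lv (φ t) x 0 * Gm (Dw l (Gm φ α)) 1 t x + lv (φ t) x 1 * Gm (Dw l (Gm φ α)) 0 t x +
        (-2) * (lv (φ t) x 2 * Gm (Dw l (Gm φ α)) 2 t x +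
          lv (φ t) x 3 * Gm (Dw l (Gm φ α)) 3 t x)) := by
    rw [← h]
    simp only [Box, hmix, bb, Gm, Pi.smul_apply, smul_eq_mul]
    ring
  rw [h0, h1, h2, h3] at e1
  change Dt S (Dw l (Gm φ α)) t x = R.val φ t x + (hdet (lv (φ t) x))⁻¹ *
      (lv (φ t) x 0 * (Dx 2 (Dx 2 (Dw l (Gm φ α))) t x + 1 * Dx 3 (Dx 3 (Dw l (Gm φ α))) t x) +
        lv (φ t) x 1 * (Dx 0 (Dx 0 (Dw l (Gm φ α))) t x + 1 * Dx 1 (Dx 1 (Dw l (Gm φ α))) t x) +
        (-2) * (lv (φ t) x 2 *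
          (Dx 0 (Dx 2 (Dw l (Gm φ α))) t x + 1 * Dx 1 (Dx 3 (Dw l (Gm φ α))) t x) +
          lv (φ t) x 3 *
          (Dx 0 (Dx 3 (Dw l (Gm φ α))) t x + (-1) * Dx 1 (Dx 2 (Dw l (Gm φ α))) t x)))
  rw [e1]; ring

/-- the determinant -/
def time_q : Ex := .add (.mul (.jet 0 []) (.jet 1 []))
  (.mul (.cst (-1)) (.add (.mul (.jet 2 []) (.jet 2 [])) (.mul (.jet 3 []) (.jet 3 []))))

theorem time_q_val (φ : Fn) (t : ℝ) (x : V) : time_q.val φ t x = hdet (lv (φ t) x) := by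
  change lv (φ t) x 0 * lv (φ t) x 1 +
    (-1) * (lv (φ t) x 2 * lv (φ t) x 2 + lv (φ t) x 3 * lv (φ t) x 3) = _
  rw [hdet]; ring

theorem time_all (hK : SKIT) (hE : SELL) (hD : SEXD) (hQ : ∀ l, EQ l) (a : Ex) : time_T a := by
  induction a with
  | cst r => exact time_cst hK r
  | jet α l => exact time_jet hK hQ α l
  | add a b ha hb => exact time_add hK hD ha hb
  | mul a b ha hb => exact time_mul hK hD ha hb
  | qi =>
    have hj := fun α => time_jet hK hQ α []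
    obtain ⟨q', hq⟩ : time_T time_q := time_add hK hD (time_mul hK hD (hj 0) (hj 1))
      (time_mul hK hD (time_cst hK _)
        (time_add hK hD (time_mul hK hD (hj 2) (hj 2)) (time_mul hK hD (hj 3) (hj 3))))
    refine ⟨.mul (.cst (-1)) (.mul (.mul .qi .qi) q'), fun S U φ w0 hS hU hP t ht x hx => ?_⟩
    have h := (hK S U hS hU).Dt_inv (hD S U φ w0 hS hU hP time_q).1 t ht x hx
      (by rw [time_q_val]; exact (hE.2.1 _ (hP.pos t ht x hx)).ne')
    rw [hq S U φ w0 hS hU hP t ht x hx] at h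
    simp only [time_q_val] at h
    change Dt S (fun t x => (hdet (lv (φ t) x))⁻¹) t x =
      (-1) * ((hdet (lv (φ t) x))⁻¹ * (hdet (lv (φ t) x))⁻¹ * q'.val φ t x)
    rw [h]; ring

/-- the five coordinate forms -/
def time_L : Option (Fin 4) → (ℝ × V →L[ℝ] ℝ)
  | none => ContinuousLinearMap.fst ℝ ℝ V
  | some i => ![Complex.reCLM.comp (ContinuousLinearMap.fst ℝ ℂ ℂ),
      Complex.imCLM.comp (ContinuousLinearMap.fst ℝ ℂ ℂ),
      Complex.reCLM.comp (ContinuousLinearMap.snd ℝ ℂ ℂ),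
      Complex.imCLM.comp (ContinuousLinearMap.snd ℝ ℂ ℂ)] i ∘L ContinuousLinearMap.snd ℝ ℝ V

theorem time_fd (hK : SKIT) (hE : SELL) (hD : SEXD) (hQ : ∀ l, EQ l) (a : Ex) :
    ∃ b : Option (Fin 4) → Ex, ∀ (S : Set ℝ) (U : Set V) (φ : Fn) (w0 : V → ℝ),
      Nice S → IsOpen U → PFlow S U φ w0 →
        EqOn (fderivWithin ℝ (fun q : ℝ × V => a.val φ q.1 q.2) (S ×ˢ U))
          (fun q => ∑ j, (ContinuousLinearMap.toSpanSingleton ℝ (time_L j) ∘
            fun q : ℝ × V => (b j).val φ q.1 q.2) q) (S ×ˢ U) := by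
  obtain ⟨a', ha⟩ := time_all hK hE hD hQ a
  refine ⟨fun j => j.elim a' fun i => a.der i, fun S U φ w0 hS hU hP => ?_⟩
  rintro ⟨t, x⟩ ⟨ht, hx⟩
  refine ContinuousLinearMap.ext fun w => ?_
  have hd := (hD S U φ w0 hS hU hP a).2
  rw [(hK S U hS hU).fderiv_eq (hD S U φ w0 hS hU hP a).1 t ht x hx w,
    ha S U φ w0 hS hU hP t ht x hx, hd 0 t ht x hx, hd 1 t ht x hx, hd 2 t ht x hx,
    hd 3 t ht x hx]
  simp [Fintype.sum_option, Fin.sum_univ_four, time_L]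
  ring

theorem time_bd (hK : SKIT) (hE : SELL) (hB : SEXB) (hD : SEXD) (hQ : ∀ l, EQ l) (k : ℕ) :
    ∀ a : Ex, ∃ k' : ℕ, ∀ A : ℝ, ∃ C : ℝ, ∀ (S : Set ℝ) (U : Set V) (φ : Fn) (w0 : V → ℝ),
      Nice S → IsOpen U → PFlow S U φ w0 → ∀ t ∈ S, ∀ x ∈ U, |(hdet (lv (φ t) x))⁻¹| ≤ A →
      (∀ α (l : List (Fin 4)), l.length ≤ k' → |Dw l (Gm φ α) t x| ≤ A) →
      ‖iteratedFDerivWithin ℝ k (fun q : ℝ × V => a.val φ q.1 q.2) (S ×ˢ U) (t, x)‖ ≤ C := by
  induction k with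
  | zero =>
    intro a
    refine ⟨a.ord, fun A => ?_⟩
    obtain ⟨C, -, hC⟩ := hB.2 a a.wt a.ord A le_rfl le_rfl
    refine ⟨C, fun S U φ w0 _ _ _ t _ x _ h1 h2 => ?_⟩
    rw [norm_iteratedFDerivWithin_zero, Real.norm_eq_abs]
    have h := hC (fun α l => Dw l (Gm φ α) t x) _ 1 le_rfl h1 fun α l hl => by
      rw [one_pow, mul_one]; exact h2 α l hl
    rw [one_pow, mul_one] at h
    exact h
  | succ k ih =>
    intro a
    obtain ⟨b, hb⟩ := time_fd hK hE hD hQ a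
    choose k' hk' using fun j => ih (b j)
    refine ⟨Finset.univ.sup k', fun A => ?_⟩
    choose C hC using fun j => hk' j A
    refine ⟨∑ j, ‖ContinuousLinearMap.toSpanSingleton ℝ (time_L j)‖ * C j,
      fun S U φ w0 hS hU hP t ht x hx h1 h2 => ?_⟩
    have hs : UniqueDiffOn ℝ (S ×ˢ U) := hS.1.prod hU.uniqueDiffOn
    have hm : (t, x) ∈ S ×ˢ U := ⟨ht, hx⟩
    have hsm : ∀ j, ContDiffWithinAt ℝ ∞ (fun q : ℝ × V => (b j).val φ q.1 q.2) (S ×ˢ U) (t, x) :=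
      fun j => (hD S U φ w0 hS hU hP (b j)).1 _ hm
    have hk : ((k : ℕ) : WithTop ℕ∞) ≤ ∞ := by exact_mod_cast le_top
    rw [← norm_iteratedFDerivWithin_fderivWithin hs hm,
      iteratedFDerivWithin_congr (hb S U φ w0 hS hU hP) hm,
      iteratedFDerivWithin_fun_sum_apply hs hm fun j _ =>
        ((ContinuousLinearMap.contDiff _).comp_contDiffWithinAt (hsm j)).of_le hk]
    refine (norm_sum_le _ _).trans (Finset.sum_le_sum fun j _ => ?_)
    refine (ContinuousLinearMap.norm_iteratedFDerivWithin_comp_left _ (hsm j) hs hm hk).trans ?_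
    exact mul_le_mul_of_nonneg_left (hC j S U φ w0 hS hU hP t ht x hx h1 fun α l hl =>
      h2 α l (hl.trans (Finset.le_sup (Finset.mem_univ j)))) (norm_nonneg _)

theorem time (hK : SKIT) (hE : SELL) (hB : SEXB) (hD : SEXD) (hQ : ∀ l, EQ l) : STIME := by
  intro k
  choose k' hk' using fun α => time_bd hK hE hB hD hQ k (.jet α [])
  refine ⟨Finset.univ.sup k', fun Λ M hΛ => ?_⟩
  obtain ⟨c, C0, -, -, h0⟩ := hE.2.2 Λ hΛ
  choose C hC using fun α => hk' α (max C0 M)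
  refine ⟨∑ α, |C α|, fun S U φ w0 hS hU hP t ht x hx he hl α => ?_⟩
  obtain ⟨-, -, h1, h2, -⟩ := h0 _ (lv (φ t) x) 0 he le_rfl (by norm_num) fun v => by simp
  have key : ‖iteratedFDerivWithin ℝ k (fun q : ℝ × V => lv (φ q.1) q.2 α) (S ×ˢ U) (t, x)‖ ≤
      ∑ α, |C α| := by
    refine (hC α S U φ w0 hS hU hP t ht x hx ?_ fun β l h => ?_).trans ((le_abs_self _).trans
      (Finset.single_le_sum (f := fun α => |C α|) (fun _ _ => abs_nonneg _) (Finset.mem_univ α)))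
    · rw [abs_of_pos (inv_pos.2 h1)]; exact h2.trans (le_max_left _ _)
    · exact (hl l (h.trans (Finset.le_sup (Finset.mem_univ α))) β x rfl).trans (le_max_right _ _)
  refine ⟨key, fun hn => ?_⟩
  have hm : (t, x) ∈ S ×ˢ U := ⟨ht, hx⟩
  have hk : ((k : ℕ) : WithTop ℕ∞) ≤ ∞ := by exact_mod_cast le_top
  have hc : ContDiffAt ℝ k (fun q : ℝ × V => lv (φ q.1) q.2 α) (t, x) :=
    (((hK S U hS hU).sm_Gm hP.sm α).contDiffAt (prod_mem_nhds hn (hU.mem_nhds hx))).of_le hk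
  rwa [iteratedFDerivWithin_eq_iteratedFDeriv (hS.1.prod hU.uniqueDiffOn) hc hm] at key

end Pool.Agent.MP_67f0e4_gt.B
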