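import Pool.Agent.MP_67f0e4_gt.B.Kit
import Pool.Agent.MP_67f0e4_gt.B.Bern
import Pool.Agent.MP_67f0e4_gt.B.RB1
import Pool.Agent.MP_67f0e4_gt.B.RBS
import Pool.Agent.MP_67f0e4_gt.B.RCONV
import Pool.Agent.MP_67f0e4_gt.B.RCUT
import Pool.Agent.MP_67f0e4_gt.B.RELL
import Pool.Agent.MP_67f0e4_gt.B.REQ0
import Pool.Agent.MP_67f0e4_gt.B.REQS
import Pool.Agent.MP_67f0e4_gt.B.REXB
import Pool.Agent.MP_67f0e4_gt.B.REXD
import Pool.Agent.MP_67f0e4_gt.B.RMAX
import Pool.Agent.MP_67f0e4_gt.B.RNUM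
import Pool.Agent.MP_67f0e4_gt.B.RRIC
import Pool.Agent.MP_67f0e4_gt.B.RSQ
import Pool.Agent.MP_67f0e4_gt.B.RSTEP
import Pool.Agent.MP_67f0e4_gt.B.RTIME

/-! Block B assembled. -/

namespace Pool.Agent.MP_67f0e4_gt.B

theorem sexd : SEXD := exd kit ell

theorem seq (l : List (Fin 4)) : EQ l := eq_all (eq0 kit ell exb sexd) (eqs kit exb sexd) l

theorem sric : SRIC := ric kit nice ell smax scut

theorem sstep : SSTEP := step kit nice ell (sq kit) sric

theorem sb : SB :=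
  sb_of (b1 kit nice ell sstep exb num seq) (bs kit nice ell sstep exb num seq)

theorem stime : STIME := time kit ell exb sexd seq

theorem sconv : SCONV := conv

theorem bern : K.BERN := bern_of sb

end Pool.Agent.MP_67f0e4_gt.B
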