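import Pool.Agent.MP_67f0e4_gt.B.Spec

/-! Block B: the choice of the scale. -/

namespace Pool.Agent.MP_67f0e4_gt.B

open K

theorem num_pick (m n : ℕ) {a b : ℝ} (ha : 0 ≤ a) (hb : 0 ≤ b) : ∃ lam : ℝ, 1 ≤ lam ∧
    a ≤ lam ^ (m + 1) ∧ b ≤ lam ^ (n + 1) ∧
      (lam = 1 ∨ lam ^ (m + 1) = a ∨ lam ^ (n + 1) = b) := by
  obtain ⟨r, hr, rfl⟩ : ∃ r : ℝ, 0 ≤ r ∧ r ^ (m + 1) = a :=
    ⟨_, Real.rpow_nonneg ha _, Real.rpow_inv_natCast_pow ha m.succ_ne_zero⟩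
  obtain ⟨s, hs, rfl⟩ : ∃ s : ℝ, 0 ≤ s ∧ s ^ (n + 1) = b :=
    ⟨_, Real.rpow_nonneg hb _, Real.rpow_inv_natCast_pow hb n.succ_ne_zero⟩
  refine ⟨max 1 (max r s), le_max_left _ _,
    pow_le_pow_left₀ hr ((le_max_left _ _).trans (le_max_right _ _)) _,
    pow_le_pow_left₀ hs ((le_max_right _ _).trans (le_max_right _ _)) _, ?_⟩
  rcases max_choice 1 (max r s) with h | h
  · exact Or.inl h
  · rcases max_choice r s with h' | h'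
    · exact Or.inr (Or.inl (by rw [h, h']))
    · exact Or.inr (Or.inr (by rw [h, h']))

theorem num_pow (n : ℕ) {δ x : ℝ} (hδ : 0 < δ) (hx : 0 ≤ x) :
    x ^ n ≤ δ * x ^ (n + 1) + δ⁻¹ ^ n := by
  have h1 : 0 ≤ δ⁻¹ ^ n := by positivity
  have h2 : 0 ≤ δ * x ^ (n + 1) := by positivity
  rcases le_total x δ⁻¹ with h | h
  · linarith [pow_le_pow_left₀ hx h n]
  · have h3 : 1 ≤ δ * x := by
      have := mul_le_mul_of_nonneg_left h hδ.le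
      rwa [mul_inv_cancel₀ hδ.ne'] at this
    have h4 := mul_le_mul_of_nonneg_right h3 (pow_nonneg hx n)
    have h5 : δ * x * x ^ n = δ * x ^ (n + 1) := by ring
    linarith

theorem num_am {ε : ℝ} (hε : 0 < ε) (x y : ℝ) : x * y ≤ ε * x ^ 2 + ε⁻¹ * y ^ 2 := by
  have h1 : ε * x ^ 2 + ε⁻¹ * y ^ 2 - x * y = ε⁻¹ * ((ε * x - y / 2) ^ 2 + 3 / 4 * y ^ 2) := by
    field_simp
    ring
  have h2 : 0 ≤ ε⁻¹ * ((ε * x - y / 2) ^ 2 + 3 / 4 * y ^ 2) := by positivity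
  linarith

theorem num : SNUM := by
  refine ⟨fun ε hε => ⟨1 + ε⁻¹ ^ 3, by positivity, fun a b ha hb => ?_⟩, fun k ε hk hε => ?_,
    fun k ε hk hε => ?_⟩
  · obtain ⟨l, h1, h2, h3, h4⟩ := num_pick 0 1 ha hb
    rw [zero_add, pow_one] at h2 h4
    refine ⟨l, h1, h2, h3, ?_⟩
    have e1 : 0 ≤ ε⁻¹ ^ 3 := by positivity
    have e2 : 0 ≤ a ^ 4 := by positivity
    have e3 : 0 ≤ ε * b ^ 2 := by positivity
    have e4 : 0 ≤ ε⁻¹ ^ 3 * a ^ 4 := by positivity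
    have e5 : (1 + ε⁻¹ ^ 3) * (1 + a ^ 4) = 1 + a ^ 4 + ε⁻¹ ^ 3 + ε⁻¹ ^ 3 * a ^ 4 := by ring
    rcases h4 with rfl | rfl | rfl
    · rw [one_pow, mul_one]; linarith
    · have : l * l ^ 3 = l ^ 4 := by ring
      linarith
    · have h0 : 0 ≤ l := zero_le_one.trans h1
      rcases le_total a (ε * l) with h | h
      · have h5 := mul_le_mul_of_nonneg_right h (pow_nonneg h0 3)
        have h6 : ε * l * l ^ 3 = ε * (l ^ (1 + 1)) ^ 2 := by ring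
        linarith
      · have h5 : l ≤ ε⁻¹ * a := (le_inv_mul_iff₀ hε).2 h
        have h6 := mul_le_mul_of_nonneg_left (pow_le_pow_left₀ h0 h5 3) ha
        have h7 : a * (ε⁻¹ * a) ^ 3 = ε⁻¹ ^ 3 * a ^ 4 := by ring
        rw [h7] at h6
        rw [e5]
        exact h6.trans (le_add_of_nonneg_of_le e3 (le_add_of_nonneg_left (by positivity)))
  · obtain ⟨δ, hδ, rfl⟩ : ∃ δ : ℝ, 0 < δ ∧ ε = 2 * δ := ⟨ε / 2, by positivity, by ring⟩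
    refine ⟨1 + δ⁻¹ * (δ ^ 2)⁻¹ ^ 1, by positivity, fun a ha => ?_⟩
    obtain ⟨l, h1, h2, -, h4⟩ := num_pick k k ha ha
    refine ⟨l, h1, h2, ?_⟩
    have e1 : 0 ≤ δ⁻¹ * (δ ^ 2)⁻¹ ^ 1 := by positivity
    have e2 : 0 ≤ δ * a ^ 2 := by positivity
    rcases h4 with rfl | h4
    · rw [one_pow]; linarith
    · have h5 : l ^ (k + 1) = a := h4.elim id id
      have h6 : l ^ 2 ≤ a := h5 ▸ pow_le_pow_right₀ h1 (by omega)
      have h7 := mul_le_mul_of_nonneg_left (h6.trans ((pow_one a).symm.le.trans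
        (num_pow 1 (pow_pos hδ 2) ha))) (inv_pos.2 hδ).le
      have h8 : δ⁻¹ * (δ ^ 2 * a ^ (1 + 1) + (δ ^ 2)⁻¹ ^ 1) =
          δ * a ^ 2 + δ⁻¹ * (δ ^ 2)⁻¹ ^ 1 := by
        field_simp
      rw [pow_succ l (k + 1), h5]
      linarith [num_am hδ a l]
  · obtain ⟨δ, hδ, rfl⟩ : ∃ δ : ℝ, 0 < δ ∧ ε = 2 * δ := ⟨ε / 2, by positivity, by ring⟩
    refine ⟨1 + δ⁻¹ ^ 3 + δ⁻¹ ^ 3 * (δ ^ 4)⁻¹ ^ 2, by positivity, fun a b ha hb => ?_⟩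
    obtain ⟨l, h1, h2, h3, h4⟩ := num_pick k (k + 1) ha hb
    refine ⟨l, h1, h2, h3, ?_⟩
    have h0 : 0 ≤ l := zero_le_one.trans h1
    have e1 : 0 ≤ δ⁻¹ ^ 3 := by positivity
    have e2 : 0 ≤ δ⁻¹ ^ 3 * (δ ^ 4)⁻¹ ^ 2 := by positivity
    have e3 : 0 ≤ δ * a ^ 4 := by positivity
    have e4 : 0 ≤ δ * b ^ 2 := by positivity
    rcases h4 with rfl | h4 | h4
    · rw [one_pow] at h2
      rw [one_pow, mul_one]; linarith
    · have h6 : l ^ 2 ≤ a := h4 ▸ pow_le_pow_right₀ h1 (by omega)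
      have h7 := mul_le_mul_of_nonneg_left h6 (mul_nonneg ha ha)
      have h8 : a * l ^ (k + 3) = a * a * l ^ 2 := by rw [mul_assoc, ← h4]; ring
      have h9 : a * a * a = a ^ 3 := by ring
      linarith [num_pow 3 hδ ha]
    · have h6 : l ^ 3 ≤ b := h4 ▸ pow_le_pow_right₀ h1 (by omega)
      have h7 : (l ^ 2) ^ (2 + 1) ≤ b ^ 2 := by
        rw [show (l ^ 2) ^ (2 + 1) = (l ^ 3) ^ 2 by ring]
        exact pow_le_pow_left₀ (pow_nonneg h0 3) h6 2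
      have h8 : a * l ^ (k + 3) = b * (a * l) := by rw [← h4]; ring
      have h9 := num_am hδ b (a * l)
      have h10 := num_am hδ (a ^ 2) (δ⁻¹ * l ^ 2)
      have h11 := mul_le_mul_of_nonneg_left ((num_pow 2 (pow_pos hδ 4) (pow_nonneg h0 2)).trans
        (add_le_add_left (mul_le_mul_of_nonneg_left h7 (pow_pos hδ 4).le) _)) e1
      have h12 : δ⁻¹ ^ 3 * (δ ^ 4 * b ^ 2 + (δ ^ 4)⁻¹ ^ 2) =
          δ * b ^ 2 + δ⁻¹ ^ 3 * (δ ^ 4)⁻¹ ^ 2 := by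
        field_simp
      have h13 : δ⁻¹ * (δ⁻¹ * l ^ 2) ^ 2 = δ⁻¹ ^ 3 * (l ^ 2) ^ 2 := by ring
      have h14 : δ⁻¹ * (a * l) ^ 2 = a ^ 2 * (δ⁻¹ * l ^ 2) := by ring
      have h15 : δ * (a ^ 2) ^ 2 = δ * a ^ 4 := by ring
      linarith

end Pool.Agent.MP_67f0e4_gt.B
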