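import Pool.Agent.MP_67f0e4_gt.B.Defs

/-! Block B: statements of the rows. -/

open Set Metric Filter Topology
open scoped ContDiff

noncomputable section

namespace Pool.Agent.MP_67f0e4_gt.B

open K

/-- calculus of jointly smooth functions on `S × U` -/
structure Kit (S : Set ℝ) (U : Set V) : Prop where
  sm_slice : ∀ {f : Fn}, Sm S U f → ∀ t ∈ S, ContDiffOn ℝ ∞ (f t) U
  sm_space : ∀ {g : V → ℝ}, ContDiffOn ℝ ∞ g U → Sm S U (fun _ => g)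
  sm_time : ∀ {θ : ℝ → ℝ}, ContDiff ℝ ∞ θ → Sm S U (fun t _ => θ t)
  sm_congr : ∀ {f g : Fn}, Sm S U f → (∀ t ∈ S, ∀ x ∈ U, g t x = f t x) → Sm S U g
  sm_add : ∀ {f g : Fn}, Sm S U f → Sm S U g → Sm S U (fun t x => f t x + g t x)
  sm_mul : ∀ {f g : Fn}, Sm S U f → Sm S U g → Sm S U (fun t x => f t x * g t x)
  sm_inv : ∀ {f : Fn}, Sm S U f → (∀ t ∈ S, ∀ x ∈ U, f t x ≠ 0) → Sm S U (fun t x => (f t x)⁻¹)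
  sm_log : ∀ {f : Fn}, Sm S U f → (∀ t ∈ S, ∀ x ∈ U, f t x ≠ 0) →
    Sm S U (fun t x => Real.log (f t x))
  sm_sum : ∀ {ι : Type} (T : Finset ι) {v : ι → Fn}, (∀ β ∈ T, Sm S U (v β)) →
    Sm S U (fun t x => ∑ β ∈ T, v β t x)
  sm_Dx : ∀ {f : Fn}, Sm S U f → ∀ i, Sm S U (Dx i f)
  sm_Dw : ∀ {f : Fn}, Sm S U f → ∀ l, Sm S U (Dw l f)
  sm_Dt : ∀ {f : Fn}, Sm S U f → Sm S U (Dt S f)
  sm_Gm : ∀ {f : Fn}, Sm S U f → ∀ α, Sm S U (Gm f α)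
  has_Dt : ∀ {f : Fn}, Sm S U f → ∀ t ∈ S, ∀ x ∈ U,
    HasDerivWithinAt (fun s => f s x) (Dt S f t x) S t
  Dt_eq : ∀ {f : Fn} {d : ℝ}, ∀ t ∈ S, ∀ x : V,
    HasDerivWithinAt (fun s => f s x) d S t → Dt S f t x = d
  fderiv_eq : ∀ {f : Fn}, Sm S U f → ∀ t ∈ S, ∀ x ∈ U, ∀ w : ℝ × V,
    fderivWithin ℝ (fun q : ℝ × V => f q.1 q.2) (S ×ˢ U) (t, x) w =
      w.1 * Dt S f t x + (w.2.1.re * Dx 0 f t x + w.2.1.im * Dx 1 f t x +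
        w.2.2.re * Dx 2 f t x + w.2.2.im * Dx 3 f t x)
  Dx_congr : ∀ {f g : Fn}, (∀ t ∈ S, ∀ x ∈ U, f t x = g t x) → ∀ i, ∀ t ∈ S, ∀ x ∈ U,
    Dx i f t x = Dx i g t x
  Dw_congr : ∀ {f g : Fn}, (∀ t ∈ S, ∀ x ∈ U, f t x = g t x) → ∀ l, ∀ t ∈ S, ∀ x ∈ U,
    Dw l f t x = Dw l g t x
  Dt_congr : ∀ {f g : Fn}, (∀ t ∈ S, ∀ x ∈ U, f t x = g t x) → ∀ t ∈ S, ∀ x ∈ U,
    Dt S f t x = Dt S g t x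
  Box_congr : ∀ {f g : Fn}, (∀ t ∈ S, ∀ x ∈ U, f t x = g t x) → ∀ b, ∀ t ∈ S, ∀ x ∈ U,
    Box S b f t x = Box S b g t x
  Gm_eq : ∀ (f : Fn) (t : ℝ) (x : V),
    Gm f 0 t x = Dx 0 (Dx 0 f) t x + Dx 1 (Dx 1 f) t x ∧
    Gm f 1 t x = Dx 2 (Dx 2 f) t x + Dx 3 (Dx 3 f) t x ∧
    Gm f 2 t x = Dx 0 (Dx 2 f) t x + Dx 1 (Dx 3 f) t x ∧
    Gm f 3 t x = Dx 0 (Dx 3 f) t x - Dx 1 (Dx 2 f) t x
  Dx_Dx : ∀ {f : Fn}, Sm S U f → ∀ i j, ∀ t ∈ S, ∀ x ∈ U,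
    Dx i (Dx j f) t x = Dx j (Dx i f) t x
  Dt_Dx : ∀ {f : Fn}, Sm S U f → ∀ i, ∀ t ∈ S, ∀ x ∈ U,
    Dt S (Dx i f) t x = Dx i (Dt S f) t x
  Dx_const : ∀ (c : ℝ) i t x, Dx i (fun _ _ => c) t x = 0
  Dx_time : ∀ (θ : ℝ → ℝ) i t x, Dx i (fun t _ => θ t) t x = 0
  Dt_space : ∀ (g : V → ℝ), ∀ t ∈ S, ∀ x, Dt S (fun _ => g) t x = 0
  Dx_add : ∀ {f g : Fn}, Sm S U f → Sm S U g → ∀ i, ∀ t ∈ S, ∀ x ∈ U,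
    Dx i (fun t x => f t x + g t x) t x = Dx i f t x + Dx i g t x
  Dx_sub : ∀ {f g : Fn}, Sm S U f → Sm S U g → ∀ i, ∀ t ∈ S, ∀ x ∈ U,
    Dx i (fun t x => f t x - g t x) t x = Dx i f t x - Dx i g t x
  Dx_mul : ∀ {f g : Fn}, Sm S U f → Sm S U g → ∀ i, ∀ t ∈ S, ∀ x ∈ U,
    Dx i (fun t x => f t x * g t x) t x = Dx i f t x * g t x + f t x * Dx i g t x
  Dx_inv : ∀ {f : Fn}, Sm S U f → ∀ i, ∀ t ∈ S, ∀ x ∈ U, f t x ≠ 0 →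
    Dx i (fun t x => (f t x)⁻¹) t x = -((f t x)⁻¹ * (f t x)⁻¹ * Dx i f t x)
  Dx_log : ∀ {f : Fn}, Sm S U f → ∀ i, ∀ t ∈ S, ∀ x ∈ U, f t x ≠ 0 →
    Dx i (fun t x => Real.log (f t x)) t x = (f t x)⁻¹ * Dx i f t x
  Dx_sum : ∀ {ι : Type} (T : Finset ι) {v : ι → Fn}, (∀ β ∈ T, Sm S U (v β)) → ∀ i,
    ∀ t ∈ S, ∀ x ∈ U, Dx i (fun t x => ∑ β ∈ T, v β t x) t x = ∑ β ∈ T, Dx i (v β) t x
  Dt_add : ∀ {f g : Fn}, Sm S U f → Sm S U g → ∀ t ∈ S, ∀ x ∈ U,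
    Dt S (fun t x => f t x + g t x) t x = Dt S f t x + Dt S g t x
  Dt_sub : ∀ {f g : Fn}, Sm S U f → Sm S U g → ∀ t ∈ S, ∀ x ∈ U,
    Dt S (fun t x => f t x - g t x) t x = Dt S f t x - Dt S g t x
  Dt_mul : ∀ {f g : Fn}, Sm S U f → Sm S U g → ∀ t ∈ S, ∀ x ∈ U,
    Dt S (fun t x => f t x * g t x) t x = Dt S f t x * g t x + f t x * Dt S g t x
  Dt_inv : ∀ {f : Fn}, Sm S U f → ∀ t ∈ S, ∀ x ∈ U, f t x ≠ 0 →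
    Dt S (fun t x => (f t x)⁻¹) t x = -((f t x)⁻¹ * (f t x)⁻¹ * Dt S f t x)
  Box_const : ∀ (c : ℝ) b, ∀ t ∈ S, ∀ x, Box S b (fun _ _ => c) t x = 0
  Box_add : ∀ {f g : Fn}, Sm S U f → Sm S U g → ∀ b, ∀ t ∈ S, ∀ x ∈ U,
    Box S b (fun t x => f t x + g t x) t x = Box S b f t x + Box S b g t x
  Box_mul : ∀ {f g : Fn}, Sm S U f → Sm S U g → ∀ b, ∀ t ∈ S, ∀ x ∈ U,
    Box S b (fun t x => f t x * g t x) t x =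
      f t x * Box S b g t x + g t x * Box S b f t x - 2 * gam (b t x) (gr f t x) (gr g t x)
  Box_sum : ∀ {ι : Type} (T : Finset ι) {v : ι → Fn}, (∀ β ∈ T, Sm S U (v β)) → ∀ b,
    ∀ t ∈ S, ∀ x ∈ U, Box S b (fun t x => ∑ β ∈ T, v β t x) t x = ∑ β ∈ T, Box S b (v β) t x

def SKIT : Prop := ∀ S U, Nice S → IsOpen U → Kit S U

def SNICE : Prop :=
  (∀ a b : ℝ, a < b → Nice (Icc a b)) ∧ (∀ a b : ℝ, Nice (Ico a b)) ∧ ∀ a b : ℝ, Nice (Ioo a b)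

/-- ellipticity: algebra of Hermitian forms -/
def SELL : Prop :=
  (∀ (C : ℝ) (b : Hm) (ξ ζ : Fin 4 → ℝ), (∀ α, |b α| ≤ C) →
    gam b ξ ζ ^ 2 ≤ 9 * C ^ 2 * (n2 ξ * n2 ζ)) ∧
  (∀ g : Hm, Pos g → 0 < hdet g) ∧
  ∀ Λ : ℝ, 0 < Λ → ∃ c C : ℝ, 0 < c ∧ 1 ≤ C ∧ ∀ (g0 g : Hm) (δ : ℝ), EllH Λ g0 → 0 ≤ δ →
    δ ≤ 1 / 2 → Cl δ g g0 → (∀ α, |g α - g0 α| ≤ C * δ) ∧ (∀ α, |g α| ≤ C) ∧ 0 < hdet g ∧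
      (hdet g)⁻¹ ≤ C ∧ Eb c C ((hdet g)⁻¹ • g)

/-- second derivative test -/
def SMAX : Prop :=
  ∀ (f : V → ℝ) (x : V) (b : Hm), ContDiffAt ℝ 2 f x → IsLocalMax f x →
    (NN b ∨ ∀ ξ, 0 ≤ gam b ξ ξ) → hmix b (lv f x) ≤ 0 ∧ ∀ i, D (e i) f x = 0

/-- the polynomial cut-off -/
def SCUT : Prop :=
  ∀ ρ : ℝ, 0 < ρ → ∃ C : ℝ, 0 < C ∧ ∀ z : V, ContDiff ℝ ∞ (cut z ρ) ∧ IsCompact (EB z ρ) ∧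
    EB z ρ ⊆ closedBall z ρ ∧ z ∈ EB z ρ ∧ cut z ρ z = ρ ^ 4 ∧
    ∀ x ∈ EB z ρ, (cut z ρ x ≠ 0 → EB z ρ ∈ 𝓝 x) ∧ 0 ≤ cut z ρ x ∧ cut z ρ x ≤ C ∧
      n2 (fun i => D (e i) (cut z ρ) x) ≤ C * cut z ρ x ∧ ∀ α, |lv (cut z ρ) x α| ≤ C

/-- interior bound for a Riccati type differential inequality -/
def SRIC : Prop :=
  ∀ C c1 C1 ρ σ K0 : ℝ, 0 < c1 → 0 < ρ → 0 ≤ σ → ∃ C2 : ℝ, ∀ (a b : ℝ) (z : V)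
    (β : ℝ → V → Hm) (F : Fn), a < b → Sm (Icc a b) (ball z ρ) F →
    (∀ t ∈ Icc a b, ∀ x ∈ ball z ρ, Eb 0 C (β t x) ∧ 0 ≤ F t x ∧
      Box (Icc a b) β F t x ≤ -c1 * F t x ^ 2 + C1) →
    (0 < σ ∨ ∀ x ∈ ball z ρ, F a x ≤ K0) → ∀ t ∈ Icc (a + σ) b, F t z ≤ C2

/-- sums of squares -/
def SSQ : Prop :=
  ∀ (S : Set ℝ) (U : Set V), Nice S → IsOpen U → ∀ (ι : Type) [Fintype ι] (v : ι → Fn),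
    (∀ β, Sm S U (v β)) → Sm S U (ss v) ∧ ∀ (b : ℝ → V → Hm) (c C : ℝ), ∀ t ∈ S, ∀ x ∈ U,
      Eb c C (b t x) →
      Box S b (ss v) t x ≤ 2 * ∑ β, v β t x * Box S b (v β) t x - 2 * c * ss (dv v) t x ∧
        n2 (gr (ss v) t x) ≤ 4 * (ss v t x * ss (dv v) t x)

/-- one Bernstein step for an abstract family -/
def SSTEP : Prop :=
  ∀ c C A κ η C1 ρ σ K0 : ℝ, 0 < c → 0 < A → 0 ≤ κ → 0 ≤ η → 0 ≤ C1 → 0 < ρ → 0 ≤ σ →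
    (A + κ) * η + 144 * C ^ 2 * κ / (c * A) ≤ c / 2 → ∃ C2 : ℝ, ∀ (ι : Type) [Fintype ι]
    (a b : ℝ) (z : V) (β : ℝ → V → Hm) (v : ι → Fn), a < b →
    (∀ j, Sm (Icc a b) (ball z ρ) (v j)) →
    (∀ t ∈ Icc a b, ∀ x ∈ ball z ρ, Eb c C (β t x) ∧ ss v t x ≤ κ ∧
      2 * ∑ j, v j t x * Box (Icc a b) β (v j) t x ≤ c * ss (dv v) t x + C1 ∧
      2 * ∑ j, dv v j t x * Box (Icc a b) β (dv v j) t x ≤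
        c * ss (dv (dv v)) t x + η * ss (dv v) t x ^ 2 + C1) →
    (0 < σ ∨ ∀ x ∈ ball z ρ, ss (dv v) a x ≤ K0) → ∀ t ∈ Icc (a + σ) b, ss (dv v) t z ≤ C2

/-- size of formal expressions -/
def SEXB : Prop :=
  (∀ (i : Fin 4) (a : Ex), (a.der i).wt ≤ a.wt + 1 ∧ (a.der i).ord ≤ a.ord + 1) ∧
  ∀ (a : Ex) (n m : ℕ) (K : ℝ), a.wt ≤ n → a.ord ≤ m → ∃ C : ℝ, 0 < C ∧
    ∀ (J : Fin 4 → List (Fin 4) → ℝ) (ι lam : ℝ), 1 ≤ lam → |ι| ≤ K →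
      (∀ α l, l.length ≤ m → |J α l| ≤ K * lam ^ l.length) → |a.ev J ι| ≤ C * lam ^ n

/-- choice of the scale `lam` -/
def SNUM : Prop :=
  (∀ ε : ℝ, 0 < ε → ∃ η : ℝ, 0 < η ∧ ∀ a b : ℝ, 0 ≤ a → 0 ≤ b → ∃ lam : ℝ, 1 ≤ lam ∧
    a ≤ lam ∧ b ≤ lam ^ 2 ∧ a * lam ^ 3 ≤ ε * b ^ 2 + η * (1 + a ^ 4)) ∧
  (∀ (k : ℕ) (ε : ℝ), 1 ≤ k → 0 < ε → ∃ C : ℝ, 0 ≤ C ∧ ∀ a : ℝ, 0 ≤ a → ∃ lam : ℝ, 1 ≤ lam ∧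
    a ≤ lam ^ (k + 1) ∧ lam ^ (k + 2) ≤ ε * a ^ 2 + C) ∧
  ∀ (k : ℕ) (ε : ℝ), 1 ≤ k → 0 < ε → ∃ C : ℝ, 0 ≤ C ∧ ∀ a b : ℝ, 0 ≤ a → 0 ≤ b →
    ∃ lam : ℝ, 1 ≤ lam ∧ a ≤ lam ^ (k + 1) ∧ b ≤ lam ^ (k + 2) ∧
      a * lam ^ (k + 3) ≤ ε * b ^ 2 + ε * a ^ 4 + C

/-- the formal derivative is the derivative -/
def SEXD : Prop :=
  ∀ (S : Set ℝ) (U : Set V) (φ : Fn) (w0 : V → ℝ), Nice S → IsOpen U → PFlow S U φ w0 →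
    ∀ a : Ex, Sm S U (a.val φ) ∧ ∀ i, ∀ t ∈ S, ∀ x ∈ U,
      Dx i (a.val φ) t x = (a.der i).val φ t x

/-- the evolution equation of the derivative of the metric along the word `l` -/
def EQ (l : List (Fin 4)) : Prop :=
  ∀ α : Fin 4, ∃ R : Ex, R.wt ≤ l.length + 2 ∧ R.ord ≤ l.length + 1 ∧
    ∀ (S : Set ℝ) (U : Set V) (φ : Fn) (w0 : V → ℝ), Nice S → IsOpen U → PFlow S U φ w0 →
      ∀ t ∈ S, ∀ x ∈ U, Box S (bb φ) (Dw l (Gm φ α)) t x = R.val φ t x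

def SEQ0 : Prop := EQ []

def SEQS : Prop := ∀ i l, EQ l → EQ (i :: l)

/-- the interior estimate of order `k` with threshold `δ` -/
def BK (Λ δ : ℝ) (k : ℕ) : Prop :=
  ∀ r R σ K : ℝ, r < R → 0 ≤ σ → ∃ C : ℝ, ∀ (g0 : Hm) (a b : ℝ) (z : V) (φ : Fn)
    (w0 : V → ℝ), EllH Λ g0 → a < b → PFlow (Icc a b) (ball z R) φ w0 →
    (∀ t ∈ Icc a b, ∀ x ∈ ball z R, Cl δ (lv (φ t) x) g0) →
    (0 < σ ∨ LB k K (φ a) (ball z R)) → ∀ t ∈ Icc (a + σ) b, LB k C (φ t) (ball z r)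

def SB1 : Prop := ∀ Λ : ℝ, 0 < Λ → ∃ δ : ℝ, 0 < δ ∧ δ ≤ 1 / 2 ∧ BK Λ δ 1

def SBS : Prop :=
  ∀ (Λ δ : ℝ) (k : ℕ), 0 < Λ → 0 ≤ δ → δ ≤ 1 / 2 → 1 ≤ k → BK Λ δ k → BK Λ δ (k + 1)

/-- BLOCK B: closeness to a constant metric gives all interior derivative bounds -/
def SB : Prop := ∀ Λ : ℝ, 0 < Λ → ∃ δ : ℝ, 0 < δ ∧ δ ≤ 1 / 2 ∧ ∀ k, 1 ≤ k → BK Λ δ k

/-- space-time derivatives of the metric are bounded by the space derivatives at the point -/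
def STIME : Prop :=
  ∀ k : ℕ, ∃ k' : ℕ, ∀ Λ M : ℝ, 0 < Λ → ∃ C : ℝ, ∀ (S : Set ℝ) (U : Set V) (φ : Fn)
    (w0 : V → ℝ), Nice S → IsOpen U → PFlow S U φ w0 → ∀ t ∈ S, ∀ x ∈ U,
    EllH Λ (lv (φ t) x) → LB k' M (φ t) {x} → ∀ α,
      ‖iteratedFDerivWithin ℝ k (fun q : ℝ × V => lv (φ q.1) q.2 α) (S ×ˢ U) (t, x)‖ ≤ C ∧
      (S ∈ 𝓝 t → ‖iteratedFDeriv ℝ k (fun q : ℝ × V => lv (φ q.1) q.2 α) (t, x)‖ ≤ C)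

/-- uniform convergence with bounded derivatives gives convergence of all derivatives -/
def SCONV : Prop :=
  ∀ (F G ι : Type) [NormedAddCommGroup F] [NormedSpace ℝ F] [NormedAddCommGroup G]
    [NormedSpace ℝ G] (l : Filter ι) (W K : Set F) (f : ι → F → G) (g : F → G), IsOpen W →
    IsCompact K → K ⊆ W → (∀ᶠ i in l, ContDiffOn ℝ ∞ (f i) W) → ContDiffOn ℝ ∞ g W →
    (∀ k : ℕ, ∃ M : ℝ, (∀ᶠ i in l, ∀ y ∈ W, ‖iteratedFDeriv ℝ k (f i) y‖ ≤ M) ∧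
      ∀ y ∈ W, ‖iteratedFDeriv ℝ k g y‖ ≤ M) →
    TendstoUniformlyOn f g l W → ∀ k : ℕ,
      TendstoUniformlyOn (fun i => iteratedFDeriv ℝ k (f i)) (iteratedFDeriv ℝ k g) l K

theorem eq_all (h0 : SEQ0) (hs : SEQS) (l : List (Fin 4)) : EQ l := by
  induction l with
  | nil => exact h0
  | cons i l ih => exact hs i l ih

theorem sb_of (h1 : SB1) (hs : SBS) : SB := by
  intro Λ hΛ
  obtain ⟨δ, hδ, hδ2, hb⟩ := h1 Λ hΛ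
  refine ⟨δ, hδ, hδ2, fun k hk => ?_⟩
  induction k, hk using Nat.le_induction with
  | base => exact hb
  | succ k hk ih => exact hs Λ δ k hΛ hδ.le hδ2 hk ih

end Pool.Agent.MP_67f0e4_gt.B
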